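import Pool.Agent.H636R2.HE.Defs
import Pool.Agent.HypVol.L_TP_prob
open MeasureTheory Real ProbabilityTheory
open scoped ENNReal BigOperators


open HypVol
namespace HypVolE

namespace S_trig_shift







theorem ts_one [Fact (0 < 2 * π)] :
    MeasurePreserving (fun x : ℝ => (x : AddCircle (2 * π)))
      (ENNReal.ofReal (2 * π)⁻¹ • volume.restrict (Set.Ico 0 (2 * π)))
      (AddCircle.haarAddCircle (T := 2 * π)) := by
  have h0 := AddCircle.measurePreserving_mk (2 * π) 0
  refine ⟨h0.measurable, ?_⟩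
  have h1 : (volume : Measure ℝ).restrict (Set.Ico 0 (2 * π))
      = volume.restrict (Set.Ioc 0 (0 + 2 * π)) := by
    rw [zero_add]
    exact Measure.restrict_congr_set Ico_ae_eq_Ioc
  rw [Measure.map_smul, h1]
  have h2 : Measure.map (fun x : ℝ => (x : AddCircle (2 * π)))
      (volume.restrict (Set.Ioc 0 (0 + 2 * π))) = volume := h0.map_eq
  rw [h2, AddCircle.volume_eq_smul_haarAddCircle, smul_smul, ← ENNReal.ofReal_mul (by positivity),
    inv_mul_cancel₀ (by positivity), ENNReal.ofReal_one, one_smul]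

theorem trig_shift {d : ℕ} {κ : Type} [Fintype κ] (k : κ → Fin d → ℤ) (c : κ → ℂ) (q : ℝ≥0∞) (h : Fin d → ℝ) :
    eLpNorm (fun x => ∑ i, c i * Complex.exp (Complex.I * ((∑ j, (k i j : ℝ) * (x j + h j) : ℝ) : ℂ))) q (TP d)
    = eLpNorm (fun x => ∑ i, c i * Complex.exp (Complex.I * ((∑ j, (k i j : ℝ) * x j : ℝ) : ℂ))) q (TP d) := by
  haveI : Fact (0 < 2 * π) := ⟨Real.two_pi_pos⟩
  set G : (Fin d → AddCircle (2 * π)) → ℂ := fun y => ∑ i, c i * ∏ j, fourier (k i j) (y j) with hG
  set ν : Measure (Fin d → AddCircle (2 * π)) :=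
    Measure.pi (fun _ : Fin d => AddCircle.haarAddCircle (T := 2 * π)) with hν
  have hGm : Measurable G := by
    refine Finset.measurable_sum _ fun i _ => measurable_const.mul ?_
    refine Finset.measurable_prod _ fun j _ => ?_
    exact (fourier (k i j)).continuous.measurable.comp (measurable_pi_apply j)
  have hmk : MeasurePreserving (fun (x : Fin d → ℝ) (j : Fin d) => ((x j : ℝ) : AddCircle (2 * π)))
      (TP d) ν := measurePreserving_pi _ _ (fun _ => ts_one)
  have hsh : MeasurePreserving (fun (y : Fin d → AddCircle (2 * π)) (j : Fin d) =>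
      y j + ((h j : ℝ) : AddCircle (2 * π))) ν ν :=
    measurePreserving_pi _ _ (fun j => measurePreserving_add_right _ _)
  have hfac : ∀ x : Fin d → ℝ, (∑ i, c i * Complex.exp (Complex.I * ((∑ j, (k i j : ℝ) * x j : ℝ) : ℂ)))
      = G (fun j => ((x j : ℝ) : AddCircle (2 * π))) := by
    intro x
    simp only [hG]
    refine Finset.sum_congr rfl fun i _ => ?_
    congr 1
    rw [Complex.ofReal_sum, Finset.mul_sum, Complex.exp_sum]
    refine Finset.prod_congr rfl fun j _ => ?_
    rw [fourier_coe_apply]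
    congr 1
    have hpi : (π : ℂ) ≠ 0 := by exact_mod_cast Real.pi_ne_zero
    push_cast
    field_simp
  have h1 : (fun x : Fin d → ℝ => ∑ i, c i * Complex.exp (Complex.I * ((∑ j, (k i j : ℝ) * (x j + h j) : ℝ) : ℂ)))
      = (G ∘ (fun (y : Fin d → AddCircle (2 * π)) (j : Fin d) =>
      y j + ((h j : ℝ) : AddCircle (2 * π)))) ∘ (fun (x : Fin d → ℝ) (j : Fin d) => ((x j : ℝ) : AddCircle (2 * π))) := by
    funext x
    rw [hfac (fun j => x j + h j)]
    simp only [Function.comp_apply]
    congr 1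
  have h2 : (fun x : Fin d → ℝ => ∑ i, c i * Complex.exp (Complex.I * ((∑ j, (k i j : ℝ) * x j : ℝ) : ℂ)))
      = G ∘ (fun (x : Fin d → ℝ) (j : Fin d) => ((x j : ℝ) : AddCircle (2 * π))) := by
    funext x
    exact hfac x
  rw [h1, h2, eLpNorm_comp_measurePreserving (hGm.comp hsh.measurable).aestronglyMeasurable hmk,
    eLpNorm_comp_measurePreserving hGm.aestronglyMeasurable hsh,
    eLpNorm_comp_measurePreserving hGm.aestronglyMeasurable hmk]

end S_trig_shift

alias trig_shift := S_trig_shift.trig_shift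

end HypVolE
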