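import Pool.Agent.H636R2.HE.EDefs
import Pool.Agent.H636R2.HE.P_trig_diff
open MeasureTheory Real ProbabilityTheory
open scoped ENNReal BigOperators


open HypVol
namespace HypVolE

namespace S_mdiff_trig







/-- trigonometric polynomial with coefficients `c` -/
noncomputable def auxT_P {d : ℕ} {κ : Type} [Fintype κ] (K : κ → Fin d → ℤ) (c : κ → ℂ) (x : Fin d → ℝ) : ℂ :=
  ∑ k : κ, c k * Complex.exp (Complex.I * ((∑ j, (K k j : ℝ) * x j : ℝ) : ℂ))

/-- coefficients -/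
noncomputable def auxT_c {d : ℕ} {κ : Type} [Fintype κ] (K : κ → Fin d → ℤ) (l : ℕ) (s : Fin d → ℕ) (e : Finset (Fin d))
    (a : κ → ℂ) (k : κ) : ℂ :=
    ((∏ j ∈ e, ((K k j : ℝ) / 2^(s j))^l : ℝ) : ℂ) * a k

theorem auxT_it1 {d : ℕ} {κ : Type} [Fintype κ] (K : κ → Fin d → ℤ) (q : ℝ≥0∞) (hq : 1 ≤ q) (j0 : Fin d) (t : ℝ) (l : ℕ) :
    ∀ c : κ → ℂ,
    eLpNorm (auxT_P K (fun k => c k * (Complex.exp (Complex.I * (((K k j0 : ℝ) * t : ℝ) : ℂ)) - 1)^l)) q
      (TP d) ≤ ENNReal.ofReal |t| ^ l *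
        eLpNorm (auxT_P K (fun k => c k * ((K k j0 : ℝ) : ℂ)^l)) q (TP d) := by
  induction l with
  | zero => intro c; simp
  | succ l ih =>
    intro c
    have h1 := (trig_diff (fun k : κ => K k)
      (fun k => c k * (Complex.exp (Complex.I * (((K k j0 : ℝ) * t : ℝ) : ℂ)) - 1)^l) q hq j0 t).1
    have h2 := ih (fun k => c k * ((K k j0 : ℝ) : ℂ))
    have e1 : (auxT_P K (fun k : κ => c k *
        (Complex.exp (Complex.I * (((K k j0 : ℝ) * t : ℝ) : ℂ)) - 1)^(l+1))) =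
        (fun x => ∑ i : κ, ((c i * (Complex.exp (Complex.I * (((K i j0 : ℝ) * t : ℝ) : ℂ)) - 1)^l) *
        (Complex.exp (Complex.I * (((K i j0 : ℝ) * t : ℝ) : ℂ)) - 1)) *
        Complex.exp (Complex.I * ((∑ j, (K i j : ℝ) * x j : ℝ) : ℂ))) := by
      funext x
      unfold auxT_P
      refine Finset.sum_congr rfl ?_
      intro k _
      beta_reduce
      rw [pow_succ]
      ring
    have e2 : (fun x => ∑ i : κ, ((c i * (Complex.exp (Complex.I * (((K i j0 : ℝ) * t : ℝ) : ℂ)) - 1)^l) *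
        ((K i j0 : ℝ) : ℂ)) *
        Complex.exp (Complex.I * ((∑ j, (K i j : ℝ) * x j : ℝ) : ℂ))) =
        auxT_P K (fun k : κ => (c k * ((K k j0 : ℝ) : ℂ)) *
        (Complex.exp (Complex.I * (((K k j0 : ℝ) * t : ℝ) : ℂ)) - 1)^l) := by
      funext x
      unfold auxT_P
      refine Finset.sum_congr rfl ?_
      intro k _
      ring
    have e3 : auxT_P K (fun k : κ => (c k * ((K k j0 : ℝ) : ℂ)) * ((K k j0 : ℝ) : ℂ)^l) =
        auxT_P K (fun k : κ => c k * ((K k j0 : ℝ) : ℂ)^(l+1)) := by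
      funext x
      unfold auxT_P
      refine Finset.sum_congr rfl ?_
      intro k _
      ring
    rw [e1]
    refine h1.trans ?_
    rw [e2]
    rw [e3] at h2
    calc ENNReal.ofReal |t| * _ ≤ ENNReal.ofReal |t| * (ENNReal.ofReal |t| ^ l *
        eLpNorm (auxT_P K (fun k : κ => c k * ((K k j0 : ℝ) : ℂ)^(l+1))) q (TP d)) := by gcongr
      _ = _ := by rw [pow_succ]; ring

theorem auxT_it2 {d : ℕ} {κ : Type} [Fintype κ] (K : κ → Fin d → ℤ) (q : ℝ≥0∞) (hq : 1 ≤ q) (j0 : Fin d) (t : ℝ) (l : ℕ)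
    (c : κ → ℂ) :
    eLpNorm (auxT_P K (fun k => c k * (Complex.exp (Complex.I * (((K k j0 : ℝ) * t : ℝ) : ℂ)) - 1)^l)) q
      (TP d) ≤ 2 ^ l * eLpNorm (auxT_P K c) q (TP d) := by
  induction l with
  | zero => simp
  | succ l ih =>
    have h1 := (trig_diff (fun k : κ => K k)
      (fun k => c k * (Complex.exp (Complex.I * (((K k j0 : ℝ) * t : ℝ) : ℂ)) - 1)^l) q hq j0 t).2
    have e1 : (auxT_P K (fun k : κ => c k *
        (Complex.exp (Complex.I * (((K k j0 : ℝ) * t : ℝ) : ℂ)) - 1)^(l+1))) =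
        (fun x => ∑ i : κ, ((c i * (Complex.exp (Complex.I * (((K i j0 : ℝ) * t : ℝ) : ℂ)) - 1)^l) *
        (Complex.exp (Complex.I * (((K i j0 : ℝ) * t : ℝ) : ℂ)) - 1)) *
        Complex.exp (Complex.I * ((∑ j, (K i j : ℝ) * x j : ℝ) : ℂ))) := by
      funext x
      unfold auxT_P
      refine Finset.sum_congr rfl ?_
      intro k _
      beta_reduce
      rw [pow_succ]
      ring
    rw [e1]
    refine h1.trans ?_
    calc 2 * _ ≤ 2 * (2 ^ l * eLpNorm (auxT_P K c) q (TP d)) := by gcongr; exact ih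
      _ = _ := by rw [pow_succ]; ring

theorem auxT_scale {d : ℕ} {κ : Type} [Fintype κ] (K : κ → Fin d → ℤ) (q : ℝ≥0∞) (lam : ℝ) (hl : 0 ≤ lam) (c : κ → ℂ) :
    eLpNorm (auxT_P K (fun k => (lam : ℂ) * c k)) q (TP d) =
      ENNReal.ofReal lam * eLpNorm (auxT_P K c) q (TP d) := by
  have e1 : auxT_P K (fun k => (lam : ℂ) * c k) = (lam : ℂ) • auxT_P K c := by
    funext x
    simp only [Pi.smul_apply, smul_eq_mul]
    unfold auxT_P
    rw [Finset.mul_sum]
    refine Finset.sum_congr rfl ?_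
    intro k _
    ring
  rw [e1, eLpNorm_const_smul]
  congr 1
  rw [← ofReal_norm]
  simp [abs_of_nonneg hl]

theorem auxT_main {d : ℕ} {κ : Type} [Fintype κ] (K : κ → Fin d → ℤ) (l : ℕ) (s : Fin d → ℕ) (a : κ → ℂ) (q : ℝ≥0∞)
    (hq : 1 ≤ q) (A : ℝ) (hA : 0 ≤ A)
    (h : ∀ e : Finset (Fin d), eLpNorm (auxT_P K (auxT_c K l s e a)) q (TP d) ≤ ENNReal.ofReal A)
    (t : Fin d → ℝ) (e : Finset (Fin d)) : ∀ e' : Finset (Fin d), Disjoint e e' →
    eLpNorm (auxT_P K (fun k => auxT_c K l s e' a k *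
      ∏ j ∈ e, (Complex.exp (Complex.I * (((K k j : ℝ) * t j : ℝ) : ℂ)) - 1)^l)) q (TP d) ≤
      ENNReal.ofReal ((∏ j ∈ e, (min 2 (2^(s j) * |t j|))^l) * A) := by
  classical
  induction e using Finset.induction_on with
  | empty =>
    intro e' _
    have h1 := h e'
    simpa using h1
  | @insert j0 e1 hj0 ih =>
    intro e' hd
    have hd1 : Disjoint e1 e' := Finset.disjoint_of_subset_left (Finset.subset_insert _ _) hd
    have hj' : j0 ∉ e' := fun hx => (Finset.disjoint_left.1 hd) (Finset.mem_insert_self _ _) hx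
    have e0 : (fun k : κ => auxT_c K l s e' a k *
        ∏ j ∈ insert j0 e1, (Complex.exp (Complex.I * (((K k j : ℝ) * t j : ℝ) : ℂ)) - 1)^l) =
        (fun k : κ => (auxT_c K l s e' a k *
        ∏ j ∈ e1, (Complex.exp (Complex.I * (((K k j : ℝ) * t j : ℝ) : ℂ)) - 1)^l) *
        (Complex.exp (Complex.I * (((K k j0 : ℝ) * t j0 : ℝ) : ℂ)) - 1)^l) := by
      funext k
      rw [Finset.prod_insert hj0]
      ring
    have hprod : 0 ≤ ∏ j ∈ e1, (min 2 (2^(s j) * |t j|))^l :=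
      Finset.prod_nonneg fun j _ => pow_nonneg (le_min (by norm_num) (by positivity)) _
    rw [e0, Finset.prod_insert hj0, mul_assoc]
    rcases le_total 2 (2^(s j0) * |t j0|) with hc | hc
    · rw [min_eq_left hc]
      refine (auxT_it2 K q hq j0 (t j0) l _).trans ?_
      have h2 := ih e' hd1
      rw [ENNReal.ofReal_mul (by positivity), ENNReal.ofReal_pow (by norm_num)]
      have h3 : ENNReal.ofReal 2 = 2 := by simp
      rw [h3]
      gcongr
    · rw [min_eq_right hc]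
      refine (auxT_it1 K q hq j0 (t j0) l _).trans ?_
      have hd2 : Disjoint e1 (insert j0 e') := by
        rw [Finset.disjoint_insert_right]
        exact ⟨hj0, hd1⟩
      have h2 := ih (insert j0 e') hd2
      have e2 : (fun k : κ => (auxT_c K l s e' a k *
          ∏ j ∈ e1, (Complex.exp (Complex.I * (((K k j : ℝ) * t j : ℝ) : ℂ)) - 1)^l) *
          ((K k j0 : ℝ) : ℂ)^l) =
          (fun k : κ => ((((2:ℝ)^(s j0))^l : ℝ) : ℂ) * (auxT_c K l s (insert j0 e') a k *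
          ∏ j ∈ e1, (Complex.exp (Complex.I * (((K k j : ℝ) * t j : ℝ) : ℂ)) - 1)^l)) := by
        funext k
        unfold auxT_c
        rw [Finset.prod_insert hj']
        have h5 : ((K k j0 : ℝ) : ℂ)^l = ((((2:ℝ)^(s j0))^l : ℝ) : ℂ) *
              ((((K k j0 : ℝ) / 2^(s j0))^l : ℝ) : ℂ) := by
            rw [← Complex.ofReal_mul, ← mul_pow, ← Complex.ofReal_pow]
            congr 2
            field_simp
        rw [h5, Complex.ofReal_mul]
        ring
      rw [e2, auxT_scale K q _ (by positivity)]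
      have e3 : ENNReal.ofReal ((2 ^ s j0 * |t j0|) ^ l * ((∏ j ∈ e1, (min 2 (2^(s j) * |t j|))^l) * A)) =
          ENNReal.ofReal |t j0| ^ l * (ENNReal.ofReal (((2:ℝ)^(s j0))^l) *
            ENNReal.ofReal ((∏ j ∈ e1, (min 2 (2^(s j) * |t j|))^l) * A)) := by
        rw [ENNReal.ofReal_mul (by positivity), mul_pow, ENNReal.ofReal_mul (by positivity),
          ENNReal.ofReal_pow (abs_nonneg (t j0))]
        ring
      rw [e3]
      gcongr

theorem auxT_mdiff {d : ℕ} {κ : Type} [Fintype κ] (K : κ → Fin d → ℤ) (l : ℕ) (e : Finset (Fin d)) (t : Fin d → ℝ) (c : κ → ℂ) :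
    mdiff l e t (auxT_P K c) = auxT_P K (fun k => c k *
      ∏ j ∈ e, (Complex.exp (Complex.I * (((K k j : ℝ) * t j : ℝ) : ℂ)) - 1)^l) := by
  classical
  funext x
  unfold mdiff auxT_P
  simp only [Finset.mul_sum]
  rw [Finset.sum_comm]
  refine Finset.sum_congr rfl ?_
  intro k _
  set z : Fin d → ℂ := fun j => Complex.exp (Complex.I * (((K k j : ℝ) * t j : ℝ) : ℂ)) with hz
  set g : Fin d → ℕ → ℂ := fun j m => if j ∈ e then ((-1 : ℂ)^(l - m) * ((l.choose m : ℕ) : ℂ)) * z j ^ m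
    else 1 with hg
  have h1 : ∀ ν ∈ Fintype.piFinset (fun j : Fin d => if j ∈ e then Finset.range (l + 1) else {0}),
      (∏ j ∈ e, ((-1 : ℂ)^(l - ν j) * ((l.choose (ν j) : ℕ) : ℂ))) * (c k *
        Complex.exp (Complex.I * ((∑ j, (K k j : ℝ) * (x j + (ν j : ℝ) * t j) : ℝ) : ℂ))) =
      (c k * Complex.exp (Complex.I * ((∑ j, (K k j : ℝ) * x j : ℝ) : ℂ))) * ∏ j, g j (ν j) := by
    intro ν hν
    rw [Fintype.mem_piFinset] at hν
    have h2 : ∏ j, g j (ν j) = (∏ j ∈ e, ((-1 : ℂ)^(l - ν j) * ((l.choose (ν j) : ℕ) : ℂ))) *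
        ∏ j, z j ^ (ν j) := by
      have h3 : (∏ j ∈ e, ((-1 : ℂ)^(l - ν j) * ((l.choose (ν j) : ℕ) : ℂ))) =
          ∏ j, (if j ∈ e then ((-1 : ℂ)^(l - ν j) * ((l.choose (ν j) : ℕ) : ℂ)) else 1) := by
        rw [Finset.prod_ite_mem]
        simp
      rw [h3, ← Finset.prod_mul_distrib]
      refine Finset.prod_congr rfl ?_
      intro j _
      by_cases hj : j ∈ e
      · simp only [hg, if_pos hj]
      · have h4 := hν j
        rw [if_neg hj, Finset.mem_singleton] at h4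
        simp only [hg, if_neg hj, h4, pow_zero, mul_one]
    have h5 : Complex.exp (Complex.I * ((∑ j, (K k j : ℝ) * (x j + (ν j : ℝ) * t j) : ℝ) : ℂ)) =
        Complex.exp (Complex.I * ((∑ j, (K k j : ℝ) * x j : ℝ) : ℂ)) * ∏ j, z j ^ (ν j) := by
      have h6 : ∏ j, z j ^ (ν j) = Complex.exp (∑ j, (ν j : ℂ) *
          (Complex.I * (((K k j : ℝ) * t j : ℝ) : ℂ))) := by
        rw [Complex.exp_sum]
        refine Finset.prod_congr rfl ?_
        intro j _
        rw [hz, ← Complex.exp_nat_mul]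
      rw [h6, ← Complex.exp_add]
      congr 1
      push_cast
      rw [Finset.mul_sum, Finset.mul_sum, ← Finset.sum_add_distrib]
      refine Finset.sum_congr rfl ?_
      intro j _
      ring
    rw [h2, h5]
    ring
  rw [Finset.sum_congr rfl h1, ← Finset.mul_sum, ← Finset.prod_univ_sum]
  have h7 : ∏ j, ∑ m ∈ (if j ∈ e then Finset.range (l + 1) else {0}), g j m =
      ∏ j ∈ e, (z j - 1)^l := by
    have h8 : ∏ j ∈ e, (z j - 1)^l = ∏ j, (if j ∈ e then (z j - 1)^l else 1) := by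
      rw [Finset.prod_ite_mem]
      simp
    rw [h8]
    refine Finset.prod_congr rfl ?_
    intro j _
    by_cases hj : j ∈ e
    · simp only [hg, if_pos hj]
      rw [sub_eq_add_neg, add_pow]
      refine Finset.sum_congr rfl ?_
      intro m _
      ring
    · simp only [hg, if_neg hj, Finset.sum_singleton]
  rw [h7]
  ring

theorem mdiff_trig {d : ℕ} {κ : Type} [Fintype κ] (l : ℕ) (s : Fin d → ℕ) (k : κ → Fin d → ℤ)
    (c : κ → ℂ) (q : ℝ≥0∞) (hq : 1 ≤ q) (A : ℝ) (hA : 0 ≤ A)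
    (h : ∀ e : Finset (Fin d), eLpNorm (fun x => ∑ i,
      (((∏ j ∈ e, ((k i j : ℝ) / 2^(s j))^l : ℝ) : ℂ) * c i) *
        Complex.exp (Complex.I * ((∑ j, (k i j : ℝ) * x j : ℝ) : ℂ))) q (TP d) ≤ ENNReal.ofReal A)
    (e : Finset (Fin d)) (t : Fin d → ℝ) :
    eLpNorm (mdiff l e t (fun x => ∑ i, c i *
        Complex.exp (Complex.I * ((∑ j, (k i j : ℝ) * x j : ℝ) : ℂ)))) q (TP d) ≤
      ENNReal.ofReal ((∏ j ∈ e, (min 2 (2^(s j) * |t j|))^l) * A) := by
  have h0 : (fun x : Fin d → ℝ => ∑ i, c i *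
        Complex.exp (Complex.I * ((∑ j, (k i j : ℝ) * x j : ℝ) : ℂ))) = auxT_P k (auxT_c k l s ∅ c) := by
    funext x
    unfold auxT_P auxT_c
    simp
  rw [h0, auxT_mdiff]
  exact auxT_main k l s c q hq A hA h t e ∅ (Finset.disjoint_empty_right _)

end S_mdiff_trig

alias mdiff_trig := S_mdiff_trig.mdiff_trig

end HypVolE
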