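import Pool.Agent.H636R2.HE.EDefs
import Pool.Agent.H636R2.HE.P_sum_min
import Pool.Agent.H636R2.HE.E_mdiff_trig
open MeasureTheory Real ProbabilityTheory
open scoped ENNReal BigOperators


open HypVol
namespace HypVolE

namespace S_HH_mem2








namespace HH2

theorem fj_cont {d : ℕ} (l : ℕ) (s : Fin d → ℕ) (e : Finset (Fin d))
    (φ : (Fin d → ℝ) → ℂ) : Continuous (fj l s e φ) := by
  unfold fj
  refine continuous_finsetSum _ fun k _ => ?_
  fun_prop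

theorem mdiff_cont {d : ℕ} (l : ℕ) (e : Finset (Fin d)) (t : Fin d → ℝ) (f : (Fin d → ℝ) → ℂ)
    (hf : Continuous f) : Continuous (mdiff l e t f) := by
  unfold mdiff
  refine continuous_finsetSum _ fun ν _ => ?_
  exact continuous_const.mul (hf.comp (by fun_prop))

theorem fj_per {d : ℕ} (l : ℕ) (s : Fin d → ℕ) (e : Finset (Fin d))
    (φ : (Fin d → ℝ) → ℂ) (x : Fin d → ℝ) (j : Fin d) :
    fj l s e φ (Function.update x j (x j + 2 * π)) = fj l s e φ x := by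
  unfold fj
  refine Finset.sum_congr rfl fun k _ => ?_
  have e1 : ∑ i, (k i : ℝ) * Function.update x j (x j + 2 * π) i =
      ∑ i, (k i : ℝ) * x i + (k j : ℝ) * (2 * π) := by
    have h : Function.update x j (x j + 2 * π) = fun i => x i + (if i = j then 2 * π else 0) := by
      funext i
      by_cases h : i = j
      · subst h; simp
      · simp [h]
    rw [h]
    simp [mul_add, Finset.sum_add_distrib]
  rw [e1]
  congr 1
  have h : Complex.I * (((∑ i, (k i : ℝ) * x i + (k j : ℝ) * (2 * π) : ℝ)) : ℂ) =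
      Complex.I * ((∑ i, (k i : ℝ) * x i : ℝ) : ℂ) + (k j : ℂ) * (2 * π * Complex.I) := by
    push_cast
    ring
  rw [h, Complex.exp_add, Complex.exp_int_mul_two_pi_mul_I, mul_one]

theorem mdiff_empty {d : ℕ} (l : ℕ) (t : Fin d → ℝ) (f : (Fin d → ℝ) → ℂ) : mdiff l ∅ t f = f := by
  funext x
  unfold mdiff
  have h : (Fintype.piFinset (fun j : Fin d => if j ∈ (∅ : Finset (Fin d)) then Finset.range (l + 1)
      else {0})) = {fun _ => 0} := by
    ext ν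
    simp only [Finset.notMem_empty, if_false, Fintype.mem_piFinset, Finset.mem_singleton]
    constructor
    · intro h; funext j; exact h j
    · rintro rfl j; rfl
  rw [h]
  simp

theorem mdiff_split {d : ℕ} {σ : Type} (S : Finset σ) (l : ℕ) (e : Finset (Fin d)) (t : Fin d → ℝ)
    (lam : ℂ) (g : σ → (Fin d → ℝ) → ℂ) :
    mdiff l e t (fun x => lam * ∑ s ∈ S, g s x) = ∑ s ∈ S, lam • mdiff l e t (g s) := by
  funext x
  rw [Finset.sum_apply]
  simp only [Pi.smul_apply, smul_eq_mul]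
  unfold mdiff
  simp only [Finset.mul_sum]
  rw [Finset.sum_comm]
  refine Finset.sum_congr rfl fun s _ => Finset.sum_congr rfl fun ν _ => ?_
  ring

theorem fj_eq {d : ℕ} (l : ℕ) (s : Fin d → ℕ) (e : Finset (Fin d))
    (φ : (Fin d → ℝ) → ℂ) : fj l s e φ = fun x => ∑ i : (bx s),
      (((∏ j ∈ e, ((i.1 j : ℝ) / 2^(s j))^l : ℝ) : ℂ) * ((fw s i.1 : ℂ) * fc φ i.1)) *
        Complex.exp (Complex.I * ((∑ j, (i.1 j : ℝ) * x j : ℝ) : ℂ)) := by
  funext x
  unfold fj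
  rw [← Finset.sum_coe_sort]
  refine Finset.sum_congr rfl fun i _ => ?_
  rw [Complex.ofReal_mul]
  ring

theorem fj_eq0 {d : ℕ} (l : ℕ) (s : Fin d → ℕ)
    (φ : (Fin d → ℝ) → ℂ) : fj l s ∅ φ = fun x => ∑ i : (bx s),
      ((fw s i.1 : ℂ) * fc φ i.1) *
        Complex.exp (Complex.I * ((∑ j, (i.1 j : ℝ) * x j : ℝ) : ℂ)) := by
  rw [fj_eq]
  funext x
  refine Finset.sum_congr rfl fun i _ => ?_
  simp

theorem fj_mdiff {d : ℕ} (l : ℕ) (s : Fin d → ℕ) (φ : (Fin d → ℝ) → ℂ) (q : ℝ≥0∞) (hq : 1 ≤ q)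
    (A : ℝ) (hA : 0 ≤ A)
    (h : ∀ e : Finset (Fin d), eLpNorm (fj l s e φ) q (TP d) ≤ ENNReal.ofReal A)
    (e : Finset (Fin d)) (t : Fin d → ℝ) :
    eLpNorm (mdiff l e t (fj l s ∅ φ)) q (TP d) ≤
      ENNReal.ofReal ((∏ j ∈ e, (min 2 (2^(s j) * |t j|))^l) * A) := by
  rw [fj_eq0]
  exact mdiff_trig (κ := (bx s)) l s (fun i => i.1) (fun i => (fw s i.1 : ℂ) * fc φ i.1) q hq A hA
    (fun e' => by
      have := h e'
      rw [fj_eq] at this
      exact this) e t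

end HH2

theorem HH_mem2 (d : ℕ) (r C : ℝ) (q : ℝ≥0∞) (hr : 0 < r) (hq : 1 ≤ q) (hC : 0 < C) : ∃ c : ℝ, 0 < c ∧
    ∀ (c' : ℝ), 0 < c' → c' ≤ c → ∀ (n : ℕ) (φ : (Fin d → Fin (n+1)) → (Fin d → ℝ) → ℂ),
    (∀ s ∈ Sh d n, ∀ e : Finset (Fin d),
      eLpNorm (fj (⌊r⌋₊ + 1) (fun j => (s j : ℕ)) e (φ s)) q (TP d) ≤ ENNReal.ofReal C) →
    (fun x => ((c' * (2:ℝ)^(-(r * n)) : ℝ) : ℂ) *
      ∑ s ∈ Sh d n, fj (⌊r⌋₊ + 1) (fun j => (s j : ℕ)) ∅ (φ s) x) ∈ HH d r q := by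
  obtain ⟨C', hC', hsum⟩ := sum_min d r hr
  refine ⟨(C * C')⁻¹, by positivity, fun c' hc' hc'c n φ h => ?_⟩
  set l := ⌊r⌋₊ + 1 with hl
  have h2r : 0 < (2 : ℝ) ^ (r * n) := Real.rpow_pos_of_pos (by norm_num) _
  have h2r' : (2 : ℝ) ^ (-(r * n)) = ((2 : ℝ) ^ (r * n))⁻¹ := Real.rpow_neg (by norm_num) _
  set lam : ℝ := c' * (2 : ℝ) ^ (-(r * n)) with hlam
  have hlam0 : 0 < lam := by
    rw [hlam, h2r']; positivity
  have hest : ∀ (e : Finset (Fin d)) (t : Fin d → ℝ),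
      eLpNorm (mdiff l e t (fun x => (lam : ℂ) *
        ∑ s ∈ Sh d n, fj l (fun j => (s j : ℕ)) ∅ (φ s) x)) q (TP d) ≤
        ENNReal.ofReal (∏ j ∈ e, |t j| ^ r) := by
    intro e t
    rw [HH2.mdiff_split (Sh d n) l e t (lam : ℂ) (fun s => fj l (fun j => (s j : ℕ)) ∅ (φ s))]
    refine (eLpNorm_sum_le (fun s _ =>
      ((HH2.mdiff_cont l e t _ (HH2.fj_cont l _ ∅ (φ s))).const_smul
        (lam : ℂ)).aestronglyMeasurable) hq).trans ?_
    have hs : ∀ s ∈ Sh d n, eLpNorm ((lam : ℂ) • mdiff l e t (fj l (fun j => (s j : ℕ)) ∅ (φ s)))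
        q (TP d) ≤ ENNReal.ofReal (lam *
          ((∏ j ∈ e, (min 2 (2 ^ ((s j : Fin (n+1)) : ℕ) * |t j|)) ^ l) * C)) := by
      intro s hs
      have hb := HH2.fj_mdiff l (fun j => ((s j : Fin (n+1)) : ℕ)) (φ s) q hq C hC.le
        (fun e' => h s hs e') e t
      rw [eLpNorm_const_smul, ENNReal.ofReal_mul hlam0.le]
      have h1 : ‖(lam : ℂ)‖ₑ = ENNReal.ofReal lam := by
        rw [← ofReal_norm_eq_enorm, Complex.norm_real, Real.norm_of_nonneg hlam0.le]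
      rw [h1]
      gcongr
    refine (Finset.sum_le_sum hs).trans ?_
    rw [← ENNReal.ofReal_sum_of_nonneg (fun s _ => by positivity)]
    refine ENNReal.ofReal_le_ofReal ?_
    rw [← Finset.mul_sum, ← Finset.sum_mul]
    have hprod : 0 ≤ ∏ j ∈ e, |t j| ^ r := Finset.prod_nonneg fun j _ => by positivity
    calc lam * ((∑ s ∈ Sh d n, ∏ j ∈ e, (min 2 (2 ^ ((s j : Fin (n+1)) : ℕ) * |t j|)) ^ l) * C)
        ≤ lam * ((C' * (2 : ℝ) ^ (r * n) * ∏ j ∈ e, |t j| ^ r) * C) := by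
          gcongr
          exact hsum n e t
      _ = (c' * (C * C')) * ∏ j ∈ e, |t j| ^ r := by
          rw [hlam, h2r']
          field_simp
      _ ≤ 1 * ∏ j ∈ e, |t j| ^ r := by
          apply mul_le_mul_of_nonneg_right _ hprod
          have hCC : 0 < C * C' := by positivity
          calc c' * (C * C') ≤ (C * C')⁻¹ * (C * C') := by gcongr
            _ = 1 := inv_mul_cancel₀ hCC.ne'
      _ = ∏ j ∈ e, |t j| ^ r := one_mul _
  refine ⟨?_, ?_, ?_, ?_⟩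
  · intro x j
    show (lam : ℂ) * ∑ s ∈ Sh d n, fj l (fun j => (s j : ℕ)) ∅ (φ s) (Function.update x j (x j + 2 * π))
      = (lam : ℂ) * ∑ s ∈ Sh d n, fj l (fun j => (s j : ℕ)) ∅ (φ s) x
    congr 1
    exact Finset.sum_congr rfl fun s _ => HH2.fj_per _ _ _ _ _ _
  · exact (continuous_const.mul
      (continuous_finsetSum _ fun s _ => HH2.fj_cont _ _ _ _)).aestronglyMeasurable
  · have h1 := hest ∅ (fun _ => 0)
    rw [HH2.mdiff_empty] at h1
    simpa using h1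
  · intro e _ t
    exact hest e t

end S_HH_mem2

alias HH_mem2 := S_HH_mem2.HH_mem2

end HypVolE
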