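import Pool.Agent.H636R2.HE.EDefs
import Pool.Agent.HypVol.L_fc_poly
import Pool.Agent.H636R2.HE.P_fc_poly0
import Pool.Agent.H636R2.HE.P_mem_layer_iff
open MeasureTheory Real ProbabilityTheory
open scoped ENNReal BigOperators


open HypVol
namespace HypVolE

namespace S_fj_poly









/-- restriction of the coordinates to one block -/
noncomputable def j37455_re {d n : ℕ} (s : Fin d → ℕ) (a : (layer d n) × Fin 2 → ℝ) :
    (layer d n) × Fin 2 → ℝ := fun i =>
  if (∀ j, Nat.size (i.1.1 j).natAbs = s j) then a i else 0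

theorem j37455_bpoly {d n : ℕ} (m : ℕ) (s : Fin d → ℕ) (a : (layer d n) × Fin 2 → ℝ) :
    bpoly m s ∅ a = poly (j37455_re s a) := by
  funext x
  unfold bpoly poly j37455_re
  refine Finset.sum_congr rfl fun k _ => ?_
  by_cases h : ∀ j, Nat.size (k.1 j).natAbs = s j
  · rw [if_pos h, if_pos h, if_pos h, Finset.prod_empty, Complex.ofReal_one, one_mul]
  · rw [if_neg h, if_neg h, if_neg h]
    simp

theorem j37455_bx {d : ℕ} (s : Fin d → ℕ) (k : Fin d → ℤ)
    (h : ∀ j, Nat.size (k j).natAbs = s j) : k ∈ bx s := by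
  unfold bx
  rw [Fintype.mem_piFinset]
  intro j
  rw [Finset.mem_Ioo]
  have h1 : (k j).natAbs < 2 ^ (s j + 1) := by
    have h2 : (k j).natAbs < 2 ^ (s j) := by
      rw [← h j]
      exact Nat.lt_size_self _
    refine h2.trans_le ?_
    exact Nat.pow_le_pow_right (by norm_num) (by omega)
  have h3 : |k j| < (2:ℤ) ^ (s j + 1) := by
    rw [Int.abs_eq_natAbs]
    exact_mod_cast h1
  exact abs_lt.1 h3

theorem j37455_fj {d n : ℕ} (l m : ℕ) (s : Fin d → ℕ) (a : (layer d n) × Fin 2 → ℝ)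
    (x : Fin d → ℝ) : fj l s ∅ (bpoly m s ∅ a) x =
      ∑ k : layer d n, if (∀ j, Nat.size (k.1 j).natAbs = s j) then
        (((Dm a (k, 0) : ℝ) : ℂ) + ((Dm a (k, 1) : ℝ) : ℂ) * Complex.I) *
        Complex.exp (Complex.I * ((∑ j, (k.1 j : ℝ) * x j : ℝ) : ℂ)) else 0 := by
  classical
  rw [j37455_bpoly]
  unfold fj
  obtain ⟨g, hg⟩ : ∃ g : (Fin d → ℤ) → ℂ, g = fun k =>
      (((∏ j ∈ (∅ : Finset (Fin d)), ((k j : ℝ) / 2^(s j))^l) * fw s k : ℝ) : ℂ) *
        fc (poly (j37455_re s a)) k *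
        Complex.exp (Complex.I * ((∑ j, (k j : ℝ) * x j : ℝ) : ℂ)) := ⟨_, rfl⟩
  have hg0 : ∀ k, fc (poly (j37455_re s a)) k = 0 → g k = 0 := by
    intro k hk
    rw [hg]
    simp only [hk, mul_zero, zero_mul]
  have hzero : ∀ k : layer d n, ¬ (∀ j, Nat.size (k.1 j).natAbs = s j) →
      fc (poly (j37455_re s a)) k.1 = 0 := by
    intro k hk
    rw [fc_poly]
    unfold j37455_re
    rw [if_neg hk, if_neg hk]
    simp
  have hA : ∑ k ∈ bx s ∩ layer d n, g k = ∑ k ∈ bx s, g k := by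
    apply Finset.sum_subset Finset.inter_subset_left
    intro k hk hk'
    apply hg0
    apply fc_poly0
    intro h
    exact hk' (Finset.mem_inter.2 ⟨hk, h⟩)
  have hB : ∑ k ∈ bx s ∩ layer d n, g k = ∑ k ∈ layer d n, g k := by
    apply Finset.sum_subset Finset.inter_subset_right
    intro k hk hk'
    apply hg0
    apply hzero ⟨k, hk⟩
    intro h
    exact hk' (Finset.mem_inter.2 ⟨j37455_bx s k h, hk⟩)
  have hC : ∑ k ∈ bx s, g k = ∑ k : layer d n, g k.1 := by
    rw [← hA, hB, ← Finset.sum_coe_sort]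
  have hD : ∑ k ∈ bx s, (((∏ j ∈ (∅ : Finset (Fin d)), ((k j : ℝ) / 2^(s j))^l) * fw s k : ℝ) : ℂ) *
        fc (poly (j37455_re s a)) k *
        Complex.exp (Complex.I * ((∑ j, (k j : ℝ) * x j : ℝ) : ℂ)) = ∑ k ∈ bx s, g k := by
    rw [hg]
  rw [hD, hC]
  refine Finset.sum_congr rfl fun k _ => ?_
  by_cases h : ∀ j, Nat.size (k.1 j).natAbs = s j
  · rw [if_pos h, hg]
    simp only
    rw [fc_poly, Finset.prod_empty, one_mul]
    have hs : (fun j => Nat.size (k.1 j).natAbs) = s := funext h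
    have e0 : Dm a (k, 0) = fw s k.1 * a (k, 0) := by
      unfold Dm
      simp only
      rw [hs]
    have e1 : Dm a (k, 1) = fw s k.1 * a (k, 1) := by
      unfold Dm
      simp only
      rw [hs]
    have r0 : j37455_re s a (k, 0) = a (k, 0) := by
      unfold j37455_re
      rw [if_pos h]
    have r1 : j37455_re s a (k, 1) = a (k, 1) := by
      unfold j37455_re
      rw [if_pos h]
    rw [e0, e1, r0, r1]
    push_cast
    ring
  · rw [if_neg h]
    exact hg0 _ (hzero k h)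

theorem fj_poly {d n : ℕ} (l m : ℕ) (a : (layer d n) × Fin 2 → ℝ) (x : Fin d → ℝ) :
    ∑ s ∈ Sh d n, fj l (fun j => (s j : ℕ)) ∅ (bpoly m (fun j => (s j : ℕ)) ∅ a) x = poly (Dm a) x := by
  rw [Finset.sum_congr rfl (fun s _ => j37455_fj l m (fun j => (s j : ℕ)) a x)]
  unfold poly
  rw [Finset.sum_comm]
  refine Finset.sum_congr rfl fun k _ => ?_
  have hk : ∑ j, Nat.size (k.1 j).natAbs = n := (mem_layer_iff d n k.1).1 k.2
  have hle : ∀ j, Nat.size (k.1 j).natAbs < n + 1 := by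
    intro j
    have h1 : Nat.size (k.1 j).natAbs ≤ ∑ j, Nat.size (k.1 j).natAbs :=
      Finset.single_le_sum (f := fun j => Nat.size (k.1 j).natAbs)
        (fun _ _ => Nat.zero_le _) (Finset.mem_univ j)
    omega
  let s0 : Fin d → Fin (n + 1) := fun j => ⟨Nat.size (k.1 j).natAbs, hle j⟩
  have hs0 : s0 ∈ Sh d n := by
    unfold Sh
    rw [Finset.mem_filter]
    exact ⟨Finset.mem_univ _, hk⟩
  rw [Finset.sum_eq_single s0]
  · rw [if_pos fun j => rfl]
  · intro s _ hne
    rw [if_neg]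
    intro h
    apply hne
    funext j
    apply Fin.ext
    exact (h j).symm
  · intro h
    exact absurd hs0 h

end S_fj_poly

alias fj_poly := S_fj_poly.fj_poly

end HypVolE
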