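import Pool.Agent.H636R2.HE.EDefs
open MeasureTheory Real ProbabilityTheory
open scoped ENNReal BigOperators


open HypVol
namespace HypVolE

namespace S_fej1




theorem fej_orth (k : ℤ) (x : ℝ) :
    ∫ y in (0:ℝ)..(2 * π), Complex.exp (Complex.I * (((k : ℝ) * (x - y) : ℝ) : ℂ)) =
      if k = 0 then ((2 * π : ℝ) : ℂ) else 0 := by
  by_cases hk : k = 0
  · subst hk
    simp
  · rw [if_neg hk]
    have hc : (-(Complex.I * (k:ℂ))) ≠ 0 := by
      simp [hk]
    have e1 : ∀ y : ℝ, Complex.exp (Complex.I * (((k : ℝ) * (x - y) : ℝ) : ℂ)) =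
        Complex.exp (Complex.I * (((k : ℝ) * x : ℝ) : ℂ)) *
          Complex.exp (-(Complex.I * (k:ℂ)) * (y:ℂ)) := by
      intro y
      rw [← Complex.exp_add]
      congr 1
      push_cast
      ring
    simp only [e1]
    rw [intervalIntegral.integral_const_mul, integral_exp_mul_complex hc]
    have e2 : Complex.exp (-(Complex.I * (k:ℂ)) * ((2 * π : ℝ) : ℂ)) = 1 := by
      have := Complex.exp_int_mul_two_pi_mul_I (-k)
      rw [← this]
      congr 1
      push_cast
      ring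
    rw [e2]
    simp

theorem fej_pars (M : ℕ) (c : ℕ → ℝ) (x : ℝ) :
    ∫ y in (0:ℝ)..(2 * π), ‖∑ a ∈ Finset.range M, (c a : ℂ) *
      Complex.exp (Complex.I * (((a : ℝ) * (x - y) : ℝ) : ℂ))‖ ^ 2 =
      2 * π * ∑ a ∈ Finset.range M, (c a) ^ 2 := by
  have key : ∀ y : ℝ, ((‖∑ a ∈ Finset.range M, (c a : ℂ) *
      Complex.exp (Complex.I * (((a : ℝ) * (x - y) : ℝ) : ℂ))‖ ^ 2 : ℝ) : ℂ) =
      ∑ a ∈ Finset.range M, ∑ b ∈ Finset.range M, ((c a : ℂ) * (c b : ℂ)) *
        Complex.exp (Complex.I * (((((a : ℤ) - (b : ℤ) : ℤ) : ℝ) * (x - y) : ℝ) : ℂ)) := by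
    intro y
    push_cast
    rw [← Complex.mul_conj', map_sum, Finset.sum_mul_sum]
    refine Finset.sum_congr rfl fun a _ => Finset.sum_congr rfl fun b _ => ?_
    rw [map_mul, Complex.conj_ofReal, ← Complex.exp_conj]
    have e1 : ∀ (A B C D : ℂ), (A * B) * (C * D) = (A * C) * (B * D) := by intros; ring
    rw [e1, ← Complex.exp_add]
    congr 2
    simp only [map_mul, Complex.conj_I, map_sub, Complex.conj_ofReal, map_natCast]
    ring
  have h1 : ((∫ y in (0:ℝ)..(2 * π), ‖∑ a ∈ Finset.range M, (c a : ℂ) *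
      Complex.exp (Complex.I * (((a : ℝ) * (x - y) : ℝ) : ℂ))‖ ^ 2 : ℝ) : ℂ) =
      ((2 * π * ∑ a ∈ Finset.range M, (c a) ^ 2 : ℝ) : ℂ) := by
    rw [← intervalIntegral.integral_ofReal]
    simp only [key]
    rw [intervalIntegral.integral_finsetSum]
    · have h2 : ∀ a ∈ Finset.range M, ∫ y in (0:ℝ)..(2 * π), ∑ b ∈ Finset.range M,
          ((c a : ℂ) * (c b : ℂ)) * Complex.exp (Complex.I *
            (((((a : ℤ) - (b : ℤ) : ℤ) : ℝ) * (x - y) : ℝ) : ℂ)) =
          ((2 * π * (c a) ^ 2 : ℝ) : ℂ) := by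
        intro a ha
        rw [intervalIntegral.integral_finsetSum]
        · simp only [intervalIntegral.integral_const_mul, fej_orth]
          rw [Finset.sum_eq_single a]
          · rw [if_pos (by ring)]
            push_cast
            ring
          · intro b _ hb
            rw [if_neg (by omega), mul_zero]
          · intro h
            exact absurd ha h
        · intro b _
          apply Continuous.intervalIntegrable
          fun_prop
      rw [Finset.sum_congr rfl h2]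
      push_cast
      rw [Finset.mul_sum]
    · intro a _
      apply Continuous.intervalIntegrable
      fun_prop
  exact_mod_cast h1

theorem fej_count (M : ℕ) (g : ℤ → ℂ) :
    ∑ a ∈ Finset.range M, ∑ b ∈ Finset.range M, g ((a:ℤ) - b) =
      ∑ k ∈ Finset.Ioo (-(M:ℤ)) (M:ℤ), ((M:ℂ) - (|(k:ℝ)| : ℝ)) * g k := by
  rw [← Finset.sum_product', ← Finset.sum_fiberwise_of_maps_to
    (t := Finset.Ioo (-(M:ℤ)) (M:ℤ)) (g := fun p : ℕ × ℕ => (p.1:ℤ) - p.2)]
  · refine Finset.sum_congr rfl fun k hk => ?_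
    rw [Finset.mem_Ioo] at hk
    have h1 : ∀ p ∈ (Finset.range M ×ˢ Finset.range M).filter
        (fun p : ℕ × ℕ => (p.1:ℤ) - p.2 = k), g ((p.1:ℤ) - p.2) = g k := by
      intro p hp
      rw [(Finset.mem_filter.1 hp).2]
    rw [Finset.sum_congr rfl h1, Finset.sum_const, nsmul_eq_mul]
    congr 1
    have h2 : (Finset.range M ×ˢ Finset.range M).filter
        (fun p : ℕ × ℕ => (p.1:ℤ) - p.2 = k) =
        (Finset.range (M - k.natAbs)).image (fun j => (j + k.toNat, j + (-k).toNat)) := by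
      ext ⟨a, b⟩
      simp only [Finset.mem_filter, Finset.mem_product, Finset.mem_range, Finset.mem_image,
        Prod.mk.injEq]
      constructor
      · rintro ⟨⟨h3, h4⟩, h5⟩
        exact ⟨min a b, by omega, by omega, by omega⟩
      · rintro ⟨j, h3, h4, h5⟩
        omega
    rw [h2, Finset.card_image_of_injective]
    · rw [Finset.card_range, Nat.cast_sub (by omega)]
      congr 1
      have h3 : (|(k:ℝ)| : ℝ) = ((k.natAbs : ℕ) : ℝ) := by rw [Nat.cast_natAbs, Int.cast_abs]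
      rw [h3, Complex.ofReal_natCast]
    · intro i j hij
      have := (Prod.mk.inj hij).1
      omega
  · intro p hp
    rw [Finset.mem_product, Finset.mem_range, Finset.mem_range] at hp
    rw [Finset.mem_Ioo]
    omega

theorem fej1 (s m : ℕ) (x : ℝ) :
    ∫ y in Set.Ico 0 (2 * π), ‖∑ k ∈ Finset.Ioo (-(2:ℤ)^(s + 1)) ((2:ℤ)^(s + 1)),
      ((((k : ℝ) / 2^s)^m * (1 - |(k : ℝ)| / 2^(s + 1)) : ℝ) : ℂ) *
        Complex.exp (Complex.I * (((k : ℝ) * (x - y) : ℝ) : ℂ))‖ ≤ 4^m * (2 * π) := by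
  have hpi : (0:ℝ) ≤ 2 * π := by positivity
  rw [integral_Ico_eq_integral_Ioc, ← intervalIntegral.integral_of_le hpi]
  set M : ℕ := 2 ^ (s + 1) with hM
  have hMR : ((M:ℕ):ℝ) = 2 ^ (s + 1) := by rw [hM]; push_cast; rfl
  have hMZ : ((M:ℕ):ℤ) = 2 ^ (s + 1) := by rw [hM]; push_cast; rfl
  have hM0 : (0:ℝ) < M := by rw [hMR]; positivity
  set P : ℕ → ℝ → ℂ := fun i y => ∑ a ∈ Finset.range M, ((((a:ℝ) / M) ^ i : ℝ) : ℂ) *
    Complex.exp (Complex.I * (((a : ℝ) * (x - y) : ℝ) : ℂ)) with hP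
  set Q : ℕ → ℝ → ℂ := fun i y => ∑ a ∈ Finset.range M, (((-(a:ℝ) / M) ^ i : ℝ) : ℂ) *
    Complex.exp (Complex.I * (((a : ℝ) * (x - y) : ℝ) : ℂ)) with hQ
  have hPc : ∀ i, Continuous (P i) := by intro i; simp only [hP]; fun_prop
  have hQc : ∀ i, Continuous (Q i) := by intro i; simp only [hQ]; fun_prop
  -- the factorisation
  have hfac : ∀ y : ℝ, ∑ k ∈ Finset.Ioo (-(2:ℤ)^(s + 1)) ((2:ℤ)^(s + 1)),
      ((((k : ℝ) / 2^s)^m * (1 - |(k : ℝ)| / 2^(s + 1)) : ℝ) : ℂ) *
        Complex.exp (Complex.I * (((k : ℝ) * (x - y) : ℝ) : ℂ)) =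
      ((2 ^ m / M : ℝ) : ℂ) * ∑ i ∈ Finset.range (m + 1), (m.choose i : ℂ) *
        (P i y * (starRingEnd ℂ) (Q (m - i) y)) := by
    intro y
    have h1 := fej_count M (fun k => (((k:ℝ) / M) ^ m : ℝ) *
      Complex.exp (Complex.I * (((k : ℝ) * (x - y) : ℝ) : ℂ)))
    rw [hMZ] at h1
    have h2 : ∑ k ∈ Finset.Ioo (-(2:ℤ)^(s + 1)) ((2:ℤ)^(s + 1)),
      ((((k : ℝ) / 2^s)^m * (1 - |(k : ℝ)| / 2^(s + 1)) : ℝ) : ℂ) *
        Complex.exp (Complex.I * (((k : ℝ) * (x - y) : ℝ) : ℂ)) =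
      ((2 ^ m / M : ℝ) : ℂ) * ∑ k ∈ Finset.Ioo (-(2:ℤ)^(s + 1)) ((2:ℤ)^(s + 1)),
        ((M:ℂ) - (|(k:ℝ)| : ℝ)) * ((((k:ℝ) / M) ^ m : ℝ) *
          Complex.exp (Complex.I * (((k : ℝ) * (x - y) : ℝ) : ℂ))) := by
      rw [Finset.mul_sum]
      refine Finset.sum_congr rfl fun k _ => ?_
      rw [← mul_assoc, ← mul_assoc]
      congr 1
      have h3 : ((k : ℝ) / 2^s)^m * (1 - |(k : ℝ)| / 2^(s + 1)) =
          2 ^ m / M * (M - |(k:ℝ)|) * ((k:ℝ) / M) ^ m := by
        have h4 : (k : ℝ) / 2 ^ s = 2 * ((k:ℝ) / M) := by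
          rw [hMR, pow_succ]; field_simp
        rw [h4, mul_pow, ← hMR]
        field_simp
      rw [h3]
      push_cast
      ring
    rw [h2, ← h1]
    congr 1
    have h5 : ∀ i, P i y * (starRingEnd ℂ) (Q (m - i) y) =
        ∑ a ∈ Finset.range M, ∑ b ∈ Finset.range M,
          ((((a:ℝ) / M) ^ i * (-(b:ℝ) / M) ^ (m - i) : ℝ) : ℂ) *
            Complex.exp (Complex.I * (((((a:ℤ) - b : ℤ) : ℝ) * (x - y) : ℝ) : ℂ)) := by
      intro i
      simp only [hP, hQ]
      rw [map_sum, Finset.sum_mul_sum]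
      refine Finset.sum_congr rfl fun a _ => Finset.sum_congr rfl fun b _ => ?_
      rw [map_mul, Complex.conj_ofReal, ← Complex.exp_conj]
      have e1 : ∀ (A B C D : ℂ), (A * B) * (C * D) = (A * C) * (B * D) := by intros; ring
      rw [e1, ← Complex.exp_add, ← Complex.ofReal_mul]
      congr 2
      rw [map_mul, Complex.conj_I, Complex.conj_ofReal]
      push_cast
      ring
    simp only [h5]
    simp only [Finset.mul_sum]
    conv_rhs => rw [Finset.sum_comm]
    refine Finset.sum_congr rfl fun a _ => ?_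
    conv_rhs => rw [Finset.sum_comm]
    refine Finset.sum_congr rfl fun b _ => ?_
    have h6 : (((((a:ℤ) - b : ℤ) : ℝ) / M) ^ m : ℝ) = ∑ i ∈ Finset.range (m + 1),
        ((a:ℝ) / M) ^ i * (-(b:ℝ) / M) ^ (m - i) * (m.choose i) := by
      rw [← add_pow]
      congr 1
      push_cast
      ring
    rw [h6]
    push_cast
    rw [Finset.sum_mul]
    refine Finset.sum_congr rfl fun i _ => ?_
    ring
  simp only [hfac]
  -- pointwise bound
  have hpt : ∀ y ∈ Set.Icc (0:ℝ) (2 * π), ‖((2 ^ m / M : ℝ) : ℂ) * ∑ i ∈ Finset.range (m + 1),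
      (m.choose i : ℂ) * (P i y * (starRingEnd ℂ) (Q (m - i) y))‖ ≤
      2 ^ m / M * ∑ i ∈ Finset.range (m + 1), (m.choose i : ℝ) *
        (1 / 2 * (‖P i y‖ ^ 2 + ‖Q (m - i) y‖ ^ 2)) := by
    intro y _
    rw [norm_mul, Complex.norm_real, Real.norm_of_nonneg (by positivity)]
    refine mul_le_mul_of_nonneg_left ((norm_sum_le _ _).trans (Finset.sum_le_sum fun i _ => ?_))
      (by positivity)
    rw [norm_mul, norm_mul, RCLike.norm_conj, Complex.norm_natCast]
    refine mul_le_mul_of_nonneg_left ?_ (by positivity)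
    nlinarith [sq_nonneg (‖P i y‖ - ‖Q (m - i) y‖)]
  have hI1 : IntervalIntegrable (fun y => ‖((2 ^ m / M : ℝ) : ℂ) * ∑ i ∈ Finset.range (m + 1),
      (m.choose i : ℂ) * (P i y * (starRingEnd ℂ) (Q (m - i) y))‖) volume 0 (2 * π) := by
    apply Continuous.intervalIntegrable
    apply Continuous.norm
    apply Continuous.mul continuous_const
    apply continuous_finsetSum
    intro i _
    exact continuous_const.mul ((hPc i).mul (Complex.continuous_conj.comp (hQc _)))
  have hI3 : ∀ i, IntervalIntegrable (fun y => ‖P i y‖ ^ 2) volume 0 (2 * π) := fun i =>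
    ((hPc i).norm.pow 2).intervalIntegrable _ _
  have hI4 : ∀ i, IntervalIntegrable (fun y => ‖Q i y‖ ^ 2) volume 0 (2 * π) := fun i =>
    ((hQc i).norm.pow 2).intervalIntegrable _ _
  have hI2 : IntervalIntegrable (fun y => (2:ℝ) ^ m / (M:ℝ) * ∑ i ∈ Finset.range (m + 1),
      (m.choose i : ℝ) * (1 / 2 * (‖P i y‖ ^ 2 + ‖Q (m - i) y‖ ^ 2))) volume 0 (2 * π) := by
    apply Continuous.intervalIntegrable
    apply Continuous.mul continuous_const
    apply continuous_finsetSum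
    intro i _
    exact continuous_const.mul (continuous_const.mul
      (((hPc i).norm.pow 2).add ((hQc _).norm.pow 2)))
  refine (intervalIntegral.integral_mono_on hpi hI1 hI2 hpt).trans ?_
  rw [intervalIntegral.integral_const_mul, intervalIntegral.integral_finsetSum]
  · have hb : ∀ i ∈ Finset.range (m + 1), ∫ y in (0:ℝ)..(2 * π), (m.choose i : ℝ) *
        (1 / 2 * (‖P i y‖ ^ 2 + ‖Q (m - i) y‖ ^ 2)) ≤ (m.choose i : ℝ) * (2 * π * M) := by
      intro i _
      rw [intervalIntegral.integral_const_mul, intervalIntegral.integral_const_mul,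
        intervalIntegral.integral_add (hI3 i) (hI4 _)]
      refine mul_le_mul_of_nonneg_left ?_ (by positivity)
      have b1 : ∫ y in (0:ℝ)..(2 * π), ‖P i y‖ ^ 2 ≤ 2 * π * M := by
        simp only [hP]
        rw [fej_pars M (fun a => ((a:ℝ) / M) ^ i) x]
        refine mul_le_mul_of_nonneg_left ?_ hpi
        refine (Finset.sum_le_card_nsmul _ _ 1 fun a ha => ?_).trans (by simp)
        rw [Finset.mem_range] at ha
        have h7 : (a:ℝ) / M ≤ 1 := by
          rw [div_le_one hM0]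
          exact_mod_cast ha.le
        exact pow_le_one₀ (by positivity) (pow_le_one₀ (by positivity) h7)
      have b2 : ∫ y in (0:ℝ)..(2 * π), ‖Q (m - i) y‖ ^ 2 ≤ 2 * π * M := by
        simp only [hQ]
        rw [fej_pars M (fun a => (-(a:ℝ) / M) ^ (m - i)) x]
        refine mul_le_mul_of_nonneg_left ?_ hpi
        refine (Finset.sum_le_card_nsmul _ _ 1 fun a ha => ?_).trans (by simp)
        rw [Finset.mem_range] at ha
        have h7 : (a:ℝ) / M ≤ 1 := by
          rw [div_le_one hM0]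
          exact_mod_cast ha.le
        have h8 : |(-(a:ℝ) / M)| ≤ 1 := by
          rw [neg_div, abs_neg, abs_of_nonneg (by positivity)]
          exact h7
        rw [← sq_abs, abs_pow]
        exact pow_le_one₀ (by positivity) (pow_le_one₀ (abs_nonneg _) h8)
      linarith
    refine (mul_le_mul_of_nonneg_left (Finset.sum_le_sum hb) (by positivity)).trans ?_
    rw [← Finset.sum_mul]
    have h9 : ∑ i ∈ Finset.range (m + 1), (m.choose i : ℝ) = 2 ^ m := by
      exact_mod_cast Nat.sum_range_choose m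
    rw [h9]
    apply le_of_eq
    have h10 : (4:ℝ) ^ m = 2 ^ m * 2 ^ m := by rw [← mul_pow]; norm_num
    rw [h10]
    field_simp
  · intro i _
    exact (((hI3 i).add (hI4 _)).const_mul _).const_mul _

end S_fej1

alias fej1 := S_fej1.fej1

end HypVolE
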