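import Pool.Agent.H636R2.HE.EDefs
open MeasureTheory Real ProbabilityTheory
open scoped ENNReal BigOperators


open HypVol
namespace HypVolE

namespace S_trig_L2




theorem trig_L2_one_x (m : ℤ) :
    ∫ x : ℝ, Complex.exp (Complex.I * ((((m : ℤ) : ℝ) * x : ℝ) : ℂ))
      ∂(ENNReal.ofReal (2 * π)⁻¹ • (volume : Measure ℝ).restrict (Set.Ico 0 (2 * π))) =
      if m = 0 then 1 else 0 := by
  have hpi : (0 : ℝ) < 2 * π := by positivity
  rw [integral_smul_measure, ENNReal.toReal_ofReal (by positivity),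
    integral_Ico_eq_integral_Ioo, ← integral_Ioc_eq_integral_Ioo,
    ← intervalIntegral.integral_of_le hpi.le]
  by_cases hm : m = 0
  · subst hm
    rw [if_pos rfl]
    have h1 : (fun x : ℝ => Complex.exp (Complex.I * (((((0 : ℤ) : ℤ) : ℝ) * x : ℝ) : ℂ))) =
        fun _ => (1 : ℂ) := by
      funext x
      simp
    rw [h1, intervalIntegral.integral_const, sub_zero, smul_smul, inv_mul_cancel₀ hpi.ne',
      one_smul]
  · rw [if_neg hm]
    have h1 : (fun x : ℝ => Complex.exp (Complex.I * ((((m : ℤ) : ℝ) * x : ℝ) : ℂ))) =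
        fun x : ℝ => Complex.exp ((Complex.I * (m : ℂ)) * (x : ℂ)) := by
      funext x
      congr 1
      push_cast
      ring
    have hc : Complex.I * (m : ℂ) ≠ 0 :=
      mul_ne_zero Complex.I_ne_zero (by exact_mod_cast hm)
    have h2 : Complex.exp (Complex.I * (m : ℂ) * ((2 * π : ℝ) : ℂ)) = 1 := by
      have h3 : Complex.I * (m : ℂ) * ((2 * π : ℝ) : ℂ) =
          (m : ℂ) * (2 * (π : ℂ) * Complex.I) := by
        push_cast
        ring
      rw [h3]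
      exact Complex.exp_int_mul_two_pi_mul_I m
    rw [h1, integral_exp_mul_complex hc, h2]
    simp

theorem trig_L2_orth_x {d : ℕ} (l k : Fin d → ℤ) :
    ∫ x : Fin d → ℝ, Complex.exp (Complex.I * ((∑ j, (l j : ℝ) * x j : ℝ) : ℂ)) *
      Complex.exp (-(Complex.I * ((∑ j, (k j : ℝ) * x j : ℝ) : ℂ))) ∂(TP d) =
      if l = k then 1 else 0 := by
  have h1 : (fun x : Fin d → ℝ => Complex.exp (Complex.I * ((∑ j, (l j : ℝ) * x j : ℝ) : ℂ)) *
      Complex.exp (-(Complex.I * ((∑ j, (k j : ℝ) * x j : ℝ) : ℂ)))) =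
      fun x => ∏ j, Complex.exp (Complex.I * (((((l j - k j : ℤ)) : ℝ) * x j : ℝ) : ℂ)) := by
    funext x
    rw [← Complex.exp_add, ← Complex.exp_sum]
    congr 1
    push_cast
    rw [Finset.mul_sum, Finset.mul_sum, ← Finset.sum_neg_distrib, ← Finset.sum_add_distrib]
    refine Finset.sum_congr rfl fun j _ => ?_
    ring
  rw [h1]
  haveI : IsFiniteMeasure (ENNReal.ofReal (2 * π)⁻¹ •
      (volume : Measure ℝ).restrict (Set.Ico 0 (2 * π))) := by
    refine ⟨?_⟩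
    rw [Measure.smul_apply, smul_eq_mul]
    exact ENNReal.mul_lt_top ENNReal.ofReal_lt_top (by
      rw [Measure.restrict_apply_univ, Real.volume_Ico]
      exact ENNReal.ofReal_lt_top)
  have h2 := integral_fintype_prod_eq_prod (𝕜 := ℂ) (ι := Fin d) (E := fun _ => ℝ)
    (μ := fun _ => ENNReal.ofReal (2 * π)⁻¹ •
      (volume : Measure ℝ).restrict (Set.Ico 0 (2 * π)))
    (fun j x => Complex.exp (Complex.I * (((((l j - k j : ℤ)) : ℝ) * x : ℝ) : ℂ)))
  rw [TP, h2, Finset.prod_congr rfl fun j _ => trig_L2_one_x (l j - k j)]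
  by_cases h : l = k
  · rw [if_pos h, h]
    simp
  · rw [if_neg h]
    obtain ⟨j, hj⟩ : ∃ j, l j ≠ k j := by
      by_contra hcon
      push Not at hcon
      exact h (funext hcon)
    exact Finset.prod_eq_zero (Finset.mem_univ j) (if_neg (sub_ne_zero.2 hj))


theorem trig_L2_TP_prob (d : ℕ) : IsProbabilityMeasure (TP d) := by
  haveI : IsProbabilityMeasure (ENNReal.ofReal (2 * π)⁻¹ •
      (volume : Measure ℝ).restrict (Set.Ico 0 (2 * π))) := by
    refine ⟨?_⟩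
    rw [Measure.smul_apply, smul_eq_mul, Measure.restrict_apply_univ, Real.volume_Ico,
      sub_zero, ← ENNReal.ofReal_mul (by positivity), inv_mul_cancel₀ (by positivity),
      ENNReal.ofReal_one]
  unfold TP
  infer_instance


theorem trig_L2_cont {d : ℕ} (S : Finset (Fin d → ℤ)) (c : (Fin d → ℤ) → ℂ) :
    Continuous (fun x : Fin d → ℝ => ∑ k ∈ S, c k *
      Complex.exp (Complex.I * ((∑ j, (k j : ℝ) * x j : ℝ) : ℂ))) := by
  fun_prop

theorem trig_L2_bd {d : ℕ} (S : Finset (Fin d → ℤ)) (c : (Fin d → ℤ) → ℂ) (x : Fin d → ℝ) :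
    ‖∑ k ∈ S, c k * Complex.exp (Complex.I * ((∑ j, (k j : ℝ) * x j : ℝ) : ℂ))‖ ≤
      ∑ k ∈ S, ‖c k‖ := by
  refine (norm_sum_le _ _).trans (Finset.sum_le_sum fun k _ => ?_)
  rw [norm_mul, Complex.norm_exp_I_mul_ofReal, mul_one]

theorem trig_L2_int {d : ℕ} (S : Finset (Fin d → ℤ)) (c : (Fin d → ℤ) → ℂ) :
    ∫ x : Fin d → ℝ, ‖∑ k ∈ S, c k *
      Complex.exp (Complex.I * ((∑ j, (k j : ℝ) * x j : ℝ) : ℂ))‖ ^ 2 ∂(TP d) =
      ∑ k ∈ S, ‖c k‖ ^ 2 := by
  haveI := trig_L2_TP_prob d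
  have h0 : ((∫ x : Fin d → ℝ, ‖∑ k ∈ S, c k *
      Complex.exp (Complex.I * ((∑ j, (k j : ℝ) * x j : ℝ) : ℂ))‖ ^ 2 ∂(TP d) : ℝ) : ℂ) =
      ∫ x : Fin d → ℝ, (∑ k ∈ S, c k *
      Complex.exp (Complex.I * ((∑ j, (k j : ℝ) * x j : ℝ) : ℂ))) *
      (starRingEnd ℂ) (∑ k ∈ S, c k *
      Complex.exp (Complex.I * ((∑ j, (k j : ℝ) * x j : ℝ) : ℂ))) ∂(TP d) := by
    rw [← integral_complex_ofReal]
    refine integral_congr_ae (Filter.Eventually.of_forall fun x => ?_)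
    simp only
    rw [Complex.mul_conj, Complex.normSq_eq_norm_sq]
  have h1 : ∀ x : Fin d → ℝ, (∑ k ∈ S, c k *
      Complex.exp (Complex.I * ((∑ j, (k j : ℝ) * x j : ℝ) : ℂ))) *
      (starRingEnd ℂ) (∑ k ∈ S, c k *
      Complex.exp (Complex.I * ((∑ j, (k j : ℝ) * x j : ℝ) : ℂ))) =
      ∑ k ∈ S, ∑ l ∈ S,
        (c k * (starRingEnd ℂ) (c l)) *
        (Complex.exp (Complex.I * ((∑ j, (k j : ℝ) * x j : ℝ) : ℂ)) *
          Complex.exp (-(Complex.I * ((∑ j, (l j : ℝ) * x j : ℝ) : ℂ)))) := by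
    intro x
    rw [map_sum, Finset.sum_mul_sum]
    refine Finset.sum_congr rfl fun k _ => Finset.sum_congr rfl fun l _ => ?_
    rw [map_mul (starRingEnd ℂ), ← Complex.exp_conj, map_mul (starRingEnd ℂ), Complex.conj_I,
      Complex.conj_ofReal, neg_mul]
    ring
  have hI : ∀ k l : Fin d → ℤ, Integrable (fun x : Fin d → ℝ =>
        (c k * (starRingEnd ℂ) (c l)) *
        (Complex.exp (Complex.I * ((∑ j, (k j : ℝ) * x j : ℝ) : ℂ)) *
          Complex.exp (-(Complex.I * ((∑ j, (l j : ℝ) * x j : ℝ) : ℂ))))) (TP d) := by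
    intro k l
    refine Integrable.const_mul ?_ _
    refine Integrable.of_bound ?_ 1 (Filter.Eventually.of_forall fun x => ?_)
    · refine Continuous.aestronglyMeasurable ?_
      fun_prop
    · rw [norm_mul, Complex.norm_exp_I_mul_ofReal, ← mul_neg, ← Complex.ofReal_neg,
        Complex.norm_exp_I_mul_ofReal, one_mul]
  have h2 : ∀ k l : Fin d → ℤ, ∫ x : Fin d → ℝ,
        (c k * (starRingEnd ℂ) (c l)) *
        (Complex.exp (Complex.I * ((∑ j, (k j : ℝ) * x j : ℝ) : ℂ)) *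
          Complex.exp (-(Complex.I * ((∑ j, (l j : ℝ) * x j : ℝ) : ℂ)))) ∂(TP d) =
      if k = l then ((‖c k‖ ^ 2 : ℝ) : ℂ) else 0 := by
    intro k l
    rw [integral_const_mul, trig_L2_orth_x]
    by_cases h : k = l
    · subst h
      rw [if_pos rfl, if_pos rfl, mul_one, Complex.mul_conj, Complex.normSq_eq_norm_sq]
    · rw [if_neg h, if_neg h, mul_zero]
  have h3 : ∫ x : Fin d → ℝ, (∑ k ∈ S, c k *
      Complex.exp (Complex.I * ((∑ j, (k j : ℝ) * x j : ℝ) : ℂ))) *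
      (starRingEnd ℂ) (∑ k ∈ S, c k *
      Complex.exp (Complex.I * ((∑ j, (k j : ℝ) * x j : ℝ) : ℂ))) ∂(TP d) =
      ((∑ k ∈ S, ‖c k‖ ^ 2 : ℝ) : ℂ) := by
    rw [integral_congr_ae (Filter.Eventually.of_forall h1),
      integral_finsetSum _ fun k _ => integrable_finsetSum _ fun l _ => hI k l]
    have h4 : ∀ k ∈ S, ∫ x : Fin d → ℝ, ∑ l ∈ S,
        (c k * (starRingEnd ℂ) (c l)) *
        (Complex.exp (Complex.I * ((∑ j, (k j : ℝ) * x j : ℝ) : ℂ)) *
          Complex.exp (-(Complex.I * ((∑ j, (l j : ℝ) * x j : ℝ) : ℂ)))) ∂(TP d) =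
        ((‖c k‖ ^ 2 : ℝ) : ℂ) := by
      intro k hk
      rw [integral_finsetSum _ fun l _ => hI k l, Finset.sum_congr rfl fun l _ => h2 k l,
        Finset.sum_ite_eq S k, if_pos hk]
    rw [Finset.sum_congr rfl h4, Complex.ofReal_sum]
  rw [h3] at h0
  exact_mod_cast h0

theorem trig_L2 {d : ℕ} (S : Finset (Fin d → ℤ)) (c : (Fin d → ℤ) → ℂ) :
    eLpNorm (fun x : Fin d → ℝ => ∑ k ∈ S, c k *
      Complex.exp (Complex.I * ((∑ j, (k j : ℝ) * x j : ℝ) : ℂ))) 2 (TP d) ≤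
      ENNReal.ofReal (Real.sqrt (∑ k ∈ S, ‖c k‖^2)) := by
  haveI := trig_L2_TP_prob d
  have hmem : MemLp (fun x : Fin d → ℝ => ∑ k ∈ S, c k *
      Complex.exp (Complex.I * ((∑ j, (k j : ℝ) * x j : ℝ) : ℂ))) 2 (TP d) := by
    refine MemLp.of_bound ?_ (∑ k ∈ S, ‖c k‖)
      (Filter.Eventually.of_forall fun x => trig_L2_bd S c x)
    exact (trig_L2_cont S c).aestronglyMeasurable
  rw [hmem.eLpNorm_eq_integral_rpow_norm (by norm_num) (by norm_num)]
  apply ENNReal.ofReal_le_ofReal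
  have h2 : (2 : ℝ≥0∞).toReal = 2 := by simp
  rw [h2]
  have h3 : ∫ x : Fin d → ℝ, ‖∑ k ∈ S, c k *
      Complex.exp (Complex.I * ((∑ j, (k j : ℝ) * x j : ℝ) : ℂ))‖ ^ (2 : ℝ) ∂(TP d) =
      ∑ k ∈ S, ‖c k‖ ^ 2 := by
    rw [← trig_L2_int S c]
    refine integral_congr_ae (Filter.Eventually.of_forall fun x => ?_)
    simp only
    exact Real.rpow_two _
  rw [h3, Real.sqrt_eq_rpow]
  norm_num

end S_trig_L2

alias trig_L2 := S_trig_L2.trig_L2

end HypVolE
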