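import Pool.Agent.H636R2.HE.Defs
import Pool.Agent.HypVol.L_TP_prob
open MeasureTheory Real ProbabilityTheory
open scoped ENNReal BigOperators


open HypVol
namespace HypVolE

namespace S_bessel







theorem bes_oned (m : ℤ) : ∫ x : ℝ, Complex.exp (Complex.I * (((m:ℝ) * x : ℝ) : ℂ))
    ∂(ENNReal.ofReal (2 * π)⁻¹ • volume.restrict (Set.Ico 0 (2 * π))) = if m = 0 then 1 else 0 := by
  have hpi : (0:ℝ) < 2 * π := by positivity
  rw [integral_smul_measure, integral_Ico_eq_integral_Ioc, ← intervalIntegral.integral_of_le hpi.le]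
  rw [ENNReal.toReal_ofReal (by positivity)]
  split_ifs with hm
  · subst hm
    simp
    field_simp
  · have hmc : (Complex.I * (m:ℂ)) ≠ 0 := by simp [hm]
    have e1 : (fun x : ℝ => Complex.exp (Complex.I * (((m:ℝ) * x : ℝ) : ℂ))) =
        fun x : ℝ => Complex.exp (Complex.I * (m:ℂ) * x) := by
      funext x
      congr 1
      push_cast
      ring
    rw [e1, integral_exp_mul_complex hmc]
    have h1 : Complex.exp (Complex.I * (m:ℂ) * ((2 * π : ℝ) : ℂ)) = 1 := by
      rw [Complex.exp_eq_one_iff]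
      exact ⟨m, by push_cast; ring⟩
    rw [h1]
    simp

theorem bes_ortho (d : ℕ) (m : Fin d → ℤ) :
    ∫ x, Complex.exp (Complex.I * ((∑ j, (m j : ℝ) * x j : ℝ) : ℂ)) ∂(TP d) = if m = 0 then 1 else 0 := by
  have h1 : ∀ x : Fin d → ℝ, Complex.exp (Complex.I * ((∑ j, (m j : ℝ) * x j : ℝ) : ℂ)) =
      ∏ j, Complex.exp (Complex.I * (((m j : ℝ) * x j : ℝ) : ℂ)) := by
    intro x
    rw [← Complex.exp_sum]
    congr 1
    push_cast
    rw [Finset.mul_sum]
  simp_rw [h1]
  unfold TP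
  have hfin : IsFiniteMeasure (ENNReal.ofReal (2 * π)⁻¹ • volume.restrict (Set.Ico 0 (2 * π))) :=
    Measure.smul_finite _ ENNReal.ofReal_ne_top
  rw [integral_fintype_prod_eq_prod (fun (j : Fin d) (y : ℝ) => Complex.exp (Complex.I * (((m j : ℝ) * y : ℝ) : ℂ)))]
  simp_rw [bes_oned]
  split_ifs with hm
  · subst hm; simp
  · obtain ⟨j, hj⟩ := Function.ne_iff.mp hm
    refine Finset.prod_eq_zero (Finset.mem_univ j) ?_
    rw [if_neg]
    exact hj

theorem bessel (d : ℕ) (f : (Fin d → ℝ) → ℂ) (A : ℝ) (hA : 0 ≤ A) (hf : MemLp f 2 (TP d))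
    (h : eLpNorm f 2 (TP d) ≤ ENNReal.ofReal A) (S : Finset (Fin d → ℤ)) :
    ∑ k ∈ S, ‖fc f k‖^2 ≤ A^2 := by
  have hprob := TP_prob d
  have hek : ∀ k : Fin d → ℤ, MemLp (fun x : Fin d → ℝ =>
      Complex.exp (Complex.I * ((∑ j, (k j : ℝ) * x j : ℝ) : ℂ))) 2 (TP d) := by
    intro k
    refine MemLp.of_bound (Continuous.aestronglyMeasurable (by fun_prop)) 1
      (Filter.Eventually.of_forall fun x => ?_)
    rw [Complex.norm_exp]
    simp
  have hconj : ∀ (k : Fin d → ℤ) (x : Fin d → ℝ),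
      (starRingEnd ℂ) (Complex.exp (Complex.I * ((∑ j, (k j : ℝ) * x j : ℝ) : ℂ))) =
      Complex.exp (-(Complex.I * ((∑ j, (k j : ℝ) * x j : ℝ) : ℂ))) := by
    intro k x
    rw [← Complex.exp_conj, map_mul, Complex.conj_I, Complex.conj_ofReal, neg_mul]
  obtain ⟨v, hvdef⟩ : ∃ v : (Fin d → ℤ) → Lp ℂ 2 (TP d), v = fun k => (hek k).toLp _ := ⟨_, rfl⟩
  have hvae : ∀ k, v k =ᵐ[TP d] (fun x : Fin d → ℝ =>
      Complex.exp (Complex.I * ((∑ j, (k j : ℝ) * x j : ℝ) : ℂ))) := by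
    intro k
    rw [hvdef]
    exact (hek k).coeFn_toLp
  have hv : Orthonormal ℂ v := by
    rw [orthonormal_iff_ite]
    intro k l
    rw [MeasureTheory.L2.inner_def]
    have e1 : ∫ a, inner ℂ (v k a) (v l a) ∂(TP d) =
        ∫ x, Complex.exp (Complex.I * ((∑ j, ((l - k) j : ℝ) * x j : ℝ) : ℂ)) ∂(TP d) := by
      refine integral_congr_ae ?_
      filter_upwards [hvae k, hvae l] with x hx1 hx2
      rw [hx1, hx2, RCLike.inner_apply, hconj, ← Complex.exp_add]
      congr 1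
      push_cast
      simp only [Pi.sub_apply, Int.cast_sub, sub_mul, Finset.sum_sub_distrib]
      ring
    rw [e1, bes_ortho]
    by_cases hkl : k = l
    · subst hkl; simp
    · rw [if_neg hkl, if_neg]
      intro h0
      exact hkl (sub_eq_zero.mp h0).symm
  have hin : ∀ k, inner ℂ (v k) (hf.toLp f) = fc f k := by
    intro k
    rw [MeasureTheory.L2.inner_def]
    unfold fc
    refine integral_congr_ae ?_
    filter_upwards [hvae k, hf.coeFn_toLp] with x hx1 hx2
    rw [hx1, hx2, RCLike.inner_apply, hconj]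
  have hb := hv.sum_inner_products_le (x := hf.toLp f) (s := S)
  simp_rw [hin] at hb
  refine hb.trans ?_
  have hn : ‖hf.toLp f‖ ≤ A := by
    rw [Lp.norm_toLp]
    exact ENNReal.toReal_le_of_le_ofReal hA h
  have h0 := norm_nonneg (hf.toLp f)
  exact pow_le_pow_left₀ h0 hn 2

end S_bessel

alias bessel := S_bessel.bessel

end HypVolE
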