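import Pool.Agent.H636R2.HE.EDefs
import Pool.Agent.HypVol.L_TP_prob
import Pool.Agent.H636R2.HE.P_bessel
import Pool.Agent.H636R2.HE.E_trig_L2
open MeasureTheory Real ProbabilityTheory
open scoped ENNReal BigOperators


open HypVol
namespace HypVolE

namespace S_fj_two









theorem fj_two (d l : ℕ) : ∃ C : ℝ, 0 < C ∧ ∀ (s : Fin d → ℕ) (e : Finset (Fin d))
    (φ : (Fin d → ℝ) → ℂ), MemLp φ 2 (TP d) → eLpNorm φ 2 (TP d) ≤ 1 →
    eLpNorm (fj l s e φ) 2 (TP d) ≤ ENNReal.ofReal C := by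
  refine ⟨(2:ℝ)^(l * d), by positivity, ?_⟩
  intro s e φ hφ hφ1
  have hbes := bessel d φ 1 zero_le_one hφ (by simpa using hφ1) (bx s)
  have htrig := trig_L2 (bx s) (fun k => (((∏ j ∈ e, ((k j : ℝ) / 2^(s j))^l) * fw s k : ℝ) : ℂ) * fc φ k)
  have hfj : fj l s e φ = fun x : Fin d → ℝ => ∑ k ∈ bx s,
      ((((∏ j ∈ e, ((k j : ℝ) / 2^(s j))^l) * fw s k : ℝ) : ℂ) * fc φ k) *
      Complex.exp (Complex.I * ((∑ j, (k j : ℝ) * x j : ℝ) : ℂ)) := rfl
  rw [hfj]
  refine htrig.trans (ENNReal.ofReal_le_ofReal ?_)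
  rw [Real.sqrt_le_left (by positivity)]
  have hk : ∀ k ∈ bx s, ‖(((∏ j ∈ e, ((k j : ℝ) / 2^(s j))^l) * fw s k : ℝ) : ℂ) * fc φ k‖^2 ≤
      ((2:ℝ)^(l * d))^2 * ‖fc φ k‖^2 := by
    intro k hk
    have hkj : ∀ j, |(k j : ℝ)| < 2^(s j + 1) := by
      intro j
      unfold bx at hk
      rw [Fintype.mem_piFinset] at hk
      have h1 := hk j
      rw [Finset.mem_Ioo] at h1
      rw [abs_lt]
      constructor
      · have : ((-(2:ℤ)^(s j + 1) : ℤ) : ℝ) < (k j : ℝ) := by exact_mod_cast h1.1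
        push_cast at this
        exact this
      · have : (k j : ℝ) < (((2:ℤ)^(s j + 1) : ℤ) : ℝ) := by exact_mod_cast h1.2
        push_cast at this
        exact this
    have h1 : |∏ j ∈ e, ((k j : ℝ) / 2^(s j))^l| ≤ 2^(l * d) := by
      rw [Finset.abs_prod]
      calc ∏ j ∈ e, |((k j : ℝ) / 2^(s j))^l| ≤ ∏ _j ∈ e, (2:ℝ)^l := by
            refine Finset.prod_le_prod (fun _ _ => abs_nonneg _) (fun j _ => ?_)
            rw [abs_pow, abs_div, abs_of_pos (show (0:ℝ) < 2^(s j) by positivity)]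
            refine pow_le_pow_left₀ (by positivity) ?_ l
            rw [div_le_iff₀ (by positivity)]
            have := hkj j
            rw [pow_succ] at this
            linarith
        _ = (2:ℝ)^(l * e.card) := by rw [Finset.prod_const, ← pow_mul]
        _ ≤ (2:ℝ)^(l * d) := by
            refine pow_le_pow_right₀ (by norm_num) (Nat.mul_le_mul_left l ?_)
            calc e.card ≤ (Finset.univ : Finset (Fin d)).card := Finset.card_le_univ e
              _ = d := by simp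
    have h2 : |fw s k| ≤ 1 := by
      unfold fw
      rw [Finset.abs_prod]
      refine Finset.prod_le_one (fun _ _ => abs_nonneg _) (fun j _ => ?_)
      have h3 : 0 ≤ |(k j : ℝ)| / 2^(s j + 1) := by positivity
      have h4 : |(k j : ℝ)| / 2^(s j + 1) ≤ 1 := by
        rw [div_le_one (by positivity)]
        exact (hkj j).le
      rw [abs_of_nonneg (by linarith)]
      linarith
    rw [norm_mul, Complex.norm_real, Real.norm_eq_abs, abs_mul, mul_pow]
    refine mul_le_mul_of_nonneg_right ?_ (by positivity)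
    refine pow_le_pow_left₀ (by positivity) ?_ 2
    calc |∏ j ∈ e, ((k j : ℝ) / 2^(s j))^l| * |fw s k| ≤ 2^(l * d) * 1 :=
          mul_le_mul h1 h2 (abs_nonneg _) (by positivity)
      _ = 2^(l * d) := mul_one _
  calc ∑ k ∈ bx s, ‖(((∏ j ∈ e, ((k j : ℝ) / 2^(s j))^l) * fw s k : ℝ) : ℂ) * fc φ k‖^2
      ≤ ∑ k ∈ bx s, ((2:ℝ)^(l * d))^2 * ‖fc φ k‖^2 := Finset.sum_le_sum hk
    _ = ((2:ℝ)^(l * d))^2 * ∑ k ∈ bx s, ‖fc φ k‖^2 := by rw [Finset.mul_sum]
    _ ≤ ((2:ℝ)^(l * d))^2 * 1^2 := mul_le_mul_of_nonneg_left hbes (by positivity)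
    _ = ((2:ℝ)^(l * d))^2 := by ring

end S_fj_two

alias fj_two := S_fj_two.fj_two

end HypVolE
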