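import Pool.Agent.H636R2.HE.EDefs
import Pool.Agent.HypVol.L_TP_prob
open MeasureTheory Real ProbabilityTheory
open scoped ENNReal BigOperators


open HypVol
namespace HypVolE

namespace S_split4







theorem split4 (d : ℕ) (lam : ℝ) (hl : 1 ≤ lam) (φ : (Fin d → ℝ) → ℂ) (hφ : MemLp φ 4 (TP d))
    (h : eLpNorm φ 4 (TP d) ≤ 1) : ∃ φ1 φ2 : (Fin d → ℝ) → ℂ,
    MemLp φ1 ⊤ (TP d) ∧ (∀ x, ‖φ1 x‖ ≤ 1) ∧ MemLp φ2 2 (TP d) ∧ eLpNorm φ2 2 (TP d) ≤ 1 ∧
    φ =ᵐ[TP d] (fun x => (lam : ℂ) * φ1 x + ((lam⁻¹ : ℝ) : ℂ) * φ2 x) := by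
  classical
  have hl0 : 0 < lam := by linarith
  have hlc : (lam : ℂ) ≠ 0 := by exact_mod_cast hl0.ne'
  set g := hφ.1.mk φ with hg
  have hgm : StronglyMeasurable g := hφ.1.stronglyMeasurable_mk
  have hgφ : φ =ᵐ[TP d] g := hφ.1.ae_eq_mk
  have hg4 : eLpNorm g 4 (TP d) ≤ 1 := by rw [← eLpNorm_congr_ae hgφ]; exact h
  let S : Set (Fin d → ℝ) := {x | ‖g x‖ ≤ lam}
  have hS : MeasurableSet S := measurableSet_le hgm.norm.measurable measurable_const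
  let φ1 : (Fin d → ℝ) → ℂ := S.indicator (fun x => ((lam⁻¹ : ℝ) : ℂ) * g x)
  let φ2 : (Fin d → ℝ) → ℂ := Sᶜ.indicator (fun x => (lam : ℂ) * g x)
  have hφ1m : StronglyMeasurable φ1 := (hgm.const_mul _).indicator hS
  have hφ2m : StronglyMeasurable φ2 := (hgm.const_mul _).indicator hS.compl
  have hb1 : ∀ x, ‖φ1 x‖ ≤ 1 := by
    intro x
    by_cases hx : x ∈ S
    · have hx' : ‖g x‖ ≤ lam := hx
      simp only [φ1, Set.indicator_of_mem hx]
      rw [norm_mul, Complex.norm_real, Real.norm_eq_abs, abs_of_pos (by positivity)]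
      rw [inv_mul_le_iff₀ hl0]
      linarith
    · simp only [φ1, Set.indicator_of_notMem hx]
      simp
  have hpt : ∀ x, ‖φ2 x‖ₑ ^ (2 : ℝ) ≤ ‖g x‖ₑ ^ (4 : ℝ) := by
    intro x
    by_cases hx : x ∈ S
    · have hx' : x ∉ Sᶜ := fun h => h hx
      simp only [φ2, Set.indicator_of_notMem hx']
      simp
    · have hx' : x ∈ Sᶜ := hx
      have hx2 : lam < ‖g x‖ := by
        have : ¬ ‖g x‖ ≤ lam := hx
        linarith
      have h1 : ‖φ2 x‖ ≤ ‖g x‖ ^ 2 := by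
        simp only [φ2, Set.indicator_of_mem hx']
        rw [norm_mul, Complex.norm_real, Real.norm_eq_abs, abs_of_pos hl0]
        nlinarith [norm_nonneg (g x)]
      have h2 : ‖φ2 x‖ₑ ≤ ‖g x‖ₑ ^ (2 : ℝ) := by
        rw [← ofReal_norm_eq_enorm, ← ofReal_norm_eq_enorm,
          ENNReal.ofReal_rpow_of_nonneg (norm_nonneg _) (by norm_num)]
        apply ENNReal.ofReal_le_ofReal
        have h3 : ‖g x‖ ^ (2 : ℝ) = ‖g x‖ ^ 2 := by
          exact_mod_cast Real.rpow_natCast ‖g x‖ 2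
        rw [h3]
        exact h1
      calc ‖φ2 x‖ₑ ^ (2 : ℝ) ≤ (‖g x‖ₑ ^ (2 : ℝ)) ^ (2 : ℝ) :=
            ENNReal.rpow_le_rpow h2 (by norm_num)
        _ = ‖g x‖ₑ ^ (4 : ℝ) := by
            rw [← ENNReal.rpow_mul]
            norm_num
  have hint4 : ∫⁻ x, ‖g x‖ₑ ^ (4 : ℝ) ∂(TP d) ≤ 1 := by
    rw [eLpNorm_eq_lintegral_rpow_enorm_toReal (by norm_num) (by norm_num)] at hg4
    have h4 : ((4 : ℝ≥0∞)).toReal = 4 := by norm_num
    rw [h4] at hg4
    have h5 := ENNReal.rpow_le_rpow hg4 (show (0 : ℝ) ≤ 4 by norm_num)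
    rw [← ENNReal.rpow_mul] at h5
    norm_num at h5
    exact_mod_cast h5
  have hint2 : ∫⁻ x, ‖φ2 x‖ₑ ^ (2 : ℝ) ∂(TP d) ≤ 1 :=
    (lintegral_mono hpt).trans hint4
  have hn2 : eLpNorm φ2 2 (TP d) ≤ 1 := by
    rw [eLpNorm_eq_lintegral_rpow_enorm_toReal (by norm_num) (by norm_num)]
    have h4 : ((2 : ℝ≥0∞)).toReal = 2 := by norm_num
    rw [h4]
    exact ENNReal.rpow_le_one hint2 (by norm_num)
  refine ⟨φ1, φ2, ?_, hb1, ?_, hn2, ?_⟩
  · exact memLp_top_of_bound hφ1m.aestronglyMeasurable 1 (Filter.Eventually.of_forall hb1)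
  · exact ⟨hφ2m.aestronglyMeasurable, lt_of_le_of_lt hn2 ENNReal.one_lt_top⟩
  · filter_upwards [hgφ] with x hx
    rw [hx]
    by_cases hxS : x ∈ S
    · have hx' : x ∉ Sᶜ := fun h => h hxS
      simp only [φ1, φ2, Set.indicator_of_mem hxS, Set.indicator_of_notMem hx']
      push_cast
      field_simp
      ring
    · have hx' : x ∈ Sᶜ := hxS
      simp only [φ1, φ2, Set.indicator_of_notMem hxS, Set.indicator_of_mem hx']
      push_cast
      field_simp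
      ring

end S_split4

alias split4 := S_split4.split4

end HypVolE
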