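import Pool.Agent.H636R2.HE.EDefs
import Pool.Agent.HypVol.L_TP_prob
import Pool.Agent.H636R2.HE.E_split4
import Pool.Agent.H636R2.HE.E_fj_sup
import Pool.Agent.H636R2.HE.E_fj_two
import Pool.Agent.H636R2.HE.E_HH_mem2
import Pool.Agent.H636R2.HE.E_fj_poly
open MeasureTheory Real ProbabilityTheory
open scoped ENNReal BigOperators


open HypVol
namespace HypVolE

namespace S_H_split












theorem hsp_cexp_cont {d : ℕ} (k : Fin d → ℤ) :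
    Continuous (fun x : Fin d → ℝ => Complex.exp (-(Complex.I * ((∑ j, (k j : ℝ) * x j : ℝ) : ℂ)))) := by
  refine Complex.continuous_exp.comp ?_
  refine Continuous.neg (Continuous.mul continuous_const ?_)
  refine Complex.continuous_ofReal.comp ?_
  exact continuous_finset_sum _ (fun j _ => continuous_const.mul (continuous_apply j))

theorem hsp_int {d : ℕ} (g : (Fin d → ℝ) → ℂ) (hg : Integrable g (TP d)) (k : Fin d → ℤ) :
    Integrable (fun x => g x * Complex.exp (-(Complex.I * ((∑ j, (k j : ℝ) * x j : ℝ) : ℂ)))) (TP d) := by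
  refine Integrable.mul_bdd (c := 1) hg (hsp_cexp_cont k).aestronglyMeasurable ?_
  refine Filter.Eventually.of_forall (fun x => ?_)
  rw [show -(Complex.I * ((∑ j, (k j : ℝ) * x j : ℝ) : ℂ)) =
    ((-(∑ j, (k j : ℝ) * x j) : ℝ) : ℂ) * Complex.I by push_cast; ring]
  rw [Complex.norm_exp_ofReal_mul_I]

theorem hsp_fc {d : ℕ} (φ g h : (Fin d → ℝ) → ℂ) (a b : ℂ) (hg : Integrable g (TP d))
    (hh : Integrable h (TP d)) (he : φ =ᵐ[TP d] fun x => a * g x + b * h x) (k : Fin d → ℤ) :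
    fc φ k = a * fc g k + b * fc h k := by
  unfold fc
  rw [← integral_const_mul, ← integral_const_mul, ← integral_add ((hsp_int g hg k).const_mul a)
    ((hsp_int h hh k).const_mul b)]
  refine integral_congr_ae ?_
  filter_upwards [he] with x hx
  rw [hx]
  ring

theorem hsp_fj {d : ℕ} (l : ℕ) (s : Fin d → ℕ) (e : Finset (Fin d)) (φ g h : (Fin d → ℝ) → ℂ)
    (a b : ℂ) (hg : Integrable g (TP d))
    (hh : Integrable h (TP d)) (he : φ =ᵐ[TP d] fun x => a * g x + b * h x) (x : Fin d → ℝ) :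
    fj l s e φ x = a * fj l s e g x + b * fj l s e h x := by
  unfold fj
  rw [Finset.mul_sum, Finset.mul_sum, ← Finset.sum_add_distrib]
  refine Finset.sum_congr rfl (fun k _ => ?_)
  rw [hsp_fc φ g h a b hg hh he k]
  ring

theorem hsp_bcont {d n : ℕ} (l : ℕ) (s : Fin d → ℕ) (e : Finset (Fin d))
    (a : (layer d n) × Fin 2 → ℝ) : Continuous (bpoly l s e a) := by
  unfold bpoly
  refine continuous_finset_sum _ (fun k _ => ?_)
  split_ifs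
  · refine Continuous.mul continuous_const ?_
    refine Complex.continuous_exp.comp ?_
    refine Continuous.mul continuous_const ?_
    refine Complex.continuous_ofReal.comp ?_
    exact continuous_finset_sum _ (fun j _ => continuous_const.mul (continuous_apply j))
  · exact continuous_const

theorem H_split (d : ℕ) (r CB : ℝ) (hr : 0 < r) (hCB : 0 < CB) : ∃ c0 : ℝ, 0 < c0 ∧
    ∀ (lam : ℝ), 1 ≤ lam → ∀ (n : ℕ) (a : (layer d n) × Fin 2 → ℝ),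
    (∀ (s : Fin d → ℕ) (e : Finset (Fin d)), ∑ j, s j = n →
      eLpNorm (bpoly (⌊r⌋₊ + 1) s e a) 4 (TP d) ≤ ENNReal.ofReal (CB * Real.sqrt (2^n))) →
    ∃ f1 ∈ HH d r ⊤, ∃ f2 ∈ HH d r 2,
    (fun x => ((c0 * (2:ℝ)^(-(r * n)) * (Real.sqrt (2^n))⁻¹ : ℝ) : ℂ) * poly (Dm a) x) =ᵐ[TP d]
      (fun x => (lam : ℂ) * f1 x + ((lam⁻¹ : ℝ) : ℂ) * f2 x) := by
  haveI := TP_prob d
  obtain ⟨C1, hC1, h1⟩ := fj_sup d (⌊r⌋₊ + 1)
  obtain ⟨C2, hC2, h2⟩ := fj_two d (⌊r⌋₊ + 1)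
  obtain ⟨c1, hc1, hH1⟩ := HH_mem2 d r C1 ⊤ hr (by simp) hC1
  obtain ⟨c2, hc2, hH2⟩ := HH_mem2 d r C2 2 hr (by norm_num) hC2
  have hcm : 0 < min c1 c2 := lt_min hc1 hc2
  refine ⟨min c1 c2 / CB, by positivity, ?_⟩
  intro lam hlam n a ha
  have hw : 0 < Real.sqrt (2^n) := Real.sqrt_pos.2 (by positivity)
  have hCw : 0 < CB * Real.sqrt (2^n) := by positivity
  have hex : ∀ s : Fin d → Fin (n+1), ∃ φ1 φ2 : (Fin d → ℝ) → ℂ,
      MemLp φ1 ⊤ (TP d) ∧ (∀ x, ‖φ1 x‖ ≤ 1) ∧ MemLp φ2 2 (TP d) ∧ eLpNorm φ2 2 (TP d) ≤ 1 ∧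
      (s ∈ Sh d n → (fun x => (((CB * Real.sqrt (2^n))⁻¹ : ℝ) : ℂ) *
        bpoly (⌊r⌋₊ + 1) (fun j => (s j : ℕ)) ∅ a x) =ᵐ[TP d]
        (fun x => (lam : ℂ) * φ1 x + ((lam⁻¹ : ℝ) : ℂ) * φ2 x)) := by
    intro s
    by_cases hs : s ∈ Sh d n
    · have hsum : ∑ j, ((s j : Fin (n+1)) : ℕ) = n := by
        simpa [Sh] using hs
      have hb := ha (fun j => (s j : ℕ)) ∅ hsum
      have hle : eLpNorm (fun x => (((CB * Real.sqrt (2^n))⁻¹ : ℝ) : ℂ) *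
          bpoly (⌊r⌋₊ + 1) (fun j => (s j : ℕ)) ∅ a x) 4 (TP d) ≤ 1 := by
        have e1 : (fun x => (((CB * Real.sqrt (2^n))⁻¹ : ℝ) : ℂ) *
          bpoly (⌊r⌋₊ + 1) (fun j => (s j : ℕ)) ∅ a x) = (((CB * Real.sqrt (2^n))⁻¹ : ℝ) : ℂ) •
            (bpoly (⌊r⌋₊ + 1) (fun j => (s j : ℕ)) ∅ a) := by
          funext x; simp [smul_eq_mul]
        rw [e1, eLpNorm_const_smul]
        have e2 : ‖(((CB * Real.sqrt (2^n))⁻¹ : ℝ) : ℂ)‖ₑ =
            ENNReal.ofReal ((CB * Real.sqrt (2^n))⁻¹) := by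
          rw [← ofReal_norm_eq_enorm, Complex.norm_real, Real.norm_eq_abs,
            abs_of_nonneg (by positivity)]
        rw [e2]
        calc _ ≤ ENNReal.ofReal ((CB * Real.sqrt (2^n))⁻¹) * ENNReal.ofReal (CB * Real.sqrt (2^n)) := by
              gcongr
          _ = 1 := by
              rw [← ENNReal.ofReal_mul (by positivity), inv_mul_cancel₀ hCw.ne', ENNReal.ofReal_one]
      have hmem : MemLp (fun x => (((CB * Real.sqrt (2^n))⁻¹ : ℝ) : ℂ) *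
          bpoly (⌊r⌋₊ + 1) (fun j => (s j : ℕ)) ∅ a x) 4 (TP d) :=
        ⟨(continuous_const.mul (hsp_bcont _ _ _ _)).aestronglyMeasurable,
          lt_of_le_of_lt hle ENNReal.one_lt_top⟩
      obtain ⟨φ1, φ2, p1, p2, p3, p4, p5⟩ := split4 d lam hlam _ hmem hle
      exact ⟨φ1, φ2, p1, p2, p3, p4, fun _ => p5⟩
    · exact ⟨0, 0, MemLp.zero, by simp, MemLp.zero, by simp, fun h => absurd h hs⟩
  choose φ1 φ2 p1 p2 p3 p4 p5 using hex
  have hm1 := hH1 (min c1 c2) hcm (min_le_left _ _) n φ1 (by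
    intro s _ e
    rw [eLpNorm_exponent_top]
    exact eLpNormEssSup_le_of_ae_bound
      (Filter.Eventually.of_forall (fun x => h1 (fun j => (s j : ℕ)) e (φ1 s) (p1 s) (p2 s) x)))
  have hm2 := hH2 (min c1 c2) hcm (min_le_right _ _) n φ2 (by
    intro s _ e
    exact h2 (fun j => (s j : ℕ)) e (φ2 s) (p3 s) (p4 s))
  refine ⟨_, hm1, _, hm2, ?_⟩
  refine Filter.Eventually.of_forall (fun x => ?_)
  simp only
  rw [← fj_poly (⌊r⌋₊ + 1) (⌊r⌋₊ + 1) a x]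
  have hkey : ∑ s ∈ Sh d n, fj (⌊r⌋₊ + 1) (fun j => (s j : ℕ)) ∅
        (bpoly (⌊r⌋₊ + 1) (fun j => (s j : ℕ)) ∅ a) x =
      ((CB * Real.sqrt (2^n) : ℝ) : ℂ) * ((lam : ℂ) * ∑ s ∈ Sh d n, fj (⌊r⌋₊ + 1) (fun j => (s j : ℕ)) ∅ (φ1 s) x +
        ((lam⁻¹ : ℝ) : ℂ) * ∑ s ∈ Sh d n, fj (⌊r⌋₊ + 1) (fun j => (s j : ℕ)) ∅ (φ2 s) x) := by
    rw [Finset.mul_sum, Finset.mul_sum, ← Finset.sum_add_distrib, Finset.mul_sum]
    refine Finset.sum_congr rfl (fun s hs => ?_)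
    rw [hsp_fj (⌊r⌋₊ + 1) (fun j => (s j : ℕ)) ∅ (bpoly (⌊r⌋₊ + 1) (fun j => (s j : ℕ)) ∅ a) (φ1 s) (φ2 s)
      (((CB * Real.sqrt (2^n) : ℝ) : ℂ) * (lam : ℂ)) (((CB * Real.sqrt (2^n) : ℝ) : ℂ) * ((lam⁻¹ : ℝ) : ℂ))
      ((p1 s).integrable (by simp)) ((p3 s).integrable (by norm_num)) ?_ x]
    · ring
    · filter_upwards [p5 s hs] with y hy
      have e3 : bpoly (⌊r⌋₊ + 1) (fun j => (s j : ℕ)) ∅ a y =
          ((CB * Real.sqrt (2^n) : ℝ) : ℂ) * ((((CB * Real.sqrt (2^n))⁻¹ : ℝ) : ℂ) *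
            bpoly (⌊r⌋₊ + 1) (fun j => (s j : ℕ)) ∅ a y) := by
        rw [← mul_assoc, ← Complex.ofReal_mul, mul_inv_cancel₀ hCw.ne', Complex.ofReal_one, one_mul]
      rw [e3, hy]
      ring
  rw [hkey]
  have hcst : ((min c1 c2 / CB * (2:ℝ)^(-(r * n)) * (Real.sqrt (2^n))⁻¹ : ℝ) : ℂ) *
      ((CB * Real.sqrt (2^n) : ℝ) : ℂ) = ((min c1 c2 * (2:ℝ)^(-(r * n)) : ℝ) : ℂ) := by
    rw [← Complex.ofReal_mul]
    congr 1
    have := hw.ne'
    field_simp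
  rw [← mul_assoc, hcst]
  ring

end S_H_split

alias H_split := S_H_split.H_split

end HypVolE
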