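import Pool.Agent.H636R2.HE.Defs
open MeasureTheory Real ProbabilityTheory
open scoped ENNReal BigOperators


open HypVol
namespace HypVolE

namespace S_EB_sup




theorem EB_sup {d n : ℕ} (a : (layer d n) × Fin 2 → ℝ) (t : ℝ) (ht : 0 ≤ t)
    (ha : a ∈ EB ((layer d n) × Fin 2) t) (x : Fin d → ℝ) :
    ‖poly a x‖ ≤ t * Real.sqrt (2 * (layer d n).card) := by
  have ha' : ∑ v, a v ^ 2 ≤ t ^ 2 := ha
  have h1 : ‖poly a x‖ ≤ ∑ k : layer d n, (|a (k, 0)| + |a (k, 1)|) := by
    unfold poly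
    refine (norm_sum_le _ _).trans ?_
    refine Finset.sum_le_sum ?_
    intro k _
    rw [norm_mul]
    have e1 : ‖Complex.exp (Complex.I * ((∑ j, (k.1 j : ℝ) * x j : ℝ) : ℂ))‖ = 1 := by
      rw [mul_comm]; exact Complex.norm_exp_ofReal_mul_I _
    rw [e1, mul_one]
    refine (norm_add_le _ _).trans ?_
    rw [norm_mul, Complex.norm_I, mul_one, Complex.norm_real, Complex.norm_real, Real.norm_eq_abs,
      Real.norm_eq_abs]
  have h2 : ∑ k : layer d n, (|a (k, 0)| + |a (k, 1)|) = ∑ v : (layer d n) × Fin 2, |a v| := by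
    rw [Fintype.sum_prod_type]
    refine Finset.sum_congr rfl ?_
    intro k _
    rw [Fin.sum_univ_two]
  have h3 : (∑ v : (layer d n) × Fin 2, |a v|) ^ 2 ≤ (2 * (layer d n).card) * ∑ v, a v ^ 2 := by
    have := sq_sum_le_card_mul_sum_sq (s := (Finset.univ : Finset ((layer d n) × Fin 2)))
      (f := fun v => |a v|)
    refine this.trans (le_of_eq ?_)
    have hc : ((Finset.univ : Finset ((layer d n) × Fin 2)).card : ℝ) = 2 * (layer d n).card := by
      rw [Finset.card_univ, Fintype.card_prod, Fintype.card_coe, Fintype.card_fin]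
      push_cast; ring
    rw [hc]
    congr 1
    refine Finset.sum_congr rfl ?_
    intro v _
    exact sq_abs _
  rw [h2] at h1
  refine h1.trans ?_
  have hc0 : (0:ℝ) ≤ 2 * (layer d n).card := by positivity
  have h4 : (∑ v : (layer d n) × Fin 2, |a v|) ≤ Real.sqrt ((2 * (layer d n).card) * t ^ 2) := by
    apply Real.le_sqrt_of_sq_le
    exact h3.trans (mul_le_mul_of_nonneg_left ha' hc0)
  refine h4.trans (le_of_eq ?_)
  rw [Real.sqrt_mul hc0, Real.sqrt_sq ht, mul_comm]

end S_EB_sup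

alias EB_sup := S_EB_sup.EB_sup

end HypVolE
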