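import Pool.Agent.H636R2.HE.EDefs
import Pool.Agent.HypVol.L_TP_prob
import Pool.Agent.H636R2.HE.P_fourier_unique
import Pool.Agent.H636R2.HE.E_split4
import Pool.Agent.H636R2.HE.E_conv_exists
open MeasureTheory Real ProbabilityTheory
open scoped ENNReal BigOperators


open HypVol
namespace HypVolE

namespace S_W_split










theorem W_split_int (d : ℕ) (k : Fin d → ℤ) (f : (Fin d → ℝ) → ℂ) (hf : Integrable f (TP d)) :
    Integrable (fun x => f x * Complex.exp (-(Complex.I * ((∑ j, (k j : ℝ) * x j : ℝ) : ℂ)))) (TP d) := by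
  have hcont : Continuous (fun x : Fin d → ℝ =>
      Complex.exp (-(Complex.I * ((∑ j, (k j : ℝ) * x j : ℝ) : ℂ)))) := by
    refine Complex.continuous_exp.comp ?_
    refine Continuous.neg (continuous_const.mul (Complex.continuous_ofReal.comp ?_))
    exact continuous_finset_sum _ (fun j _ => continuous_const.mul (continuous_apply j))
  refine hf.mono (hf.aestronglyMeasurable.mul hcont.aestronglyMeasurable) ?_
  refine Filter.Eventually.of_forall fun x => ?_
  have h1 : ‖Complex.exp (-(Complex.I * ((∑ j, (k j : ℝ) * x j : ℝ) : ℂ)))‖ = 1 := by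
    rw [Complex.norm_exp]
    have : (-(Complex.I * ((∑ j, (k j : ℝ) * x j : ℝ) : ℂ))).re = 0 := by
      rw [Complex.neg_re, Complex.re_mul_ofReal, Complex.I_re]
      simp
    rw [this, Real.exp_zero]
  rw [norm_mul, h1, mul_one]

theorem W_split_lin (d : ℕ) (k : Fin d → ℤ) (a b : ℂ) (f g : (Fin d → ℝ) → ℂ)
    (hf : Integrable f (TP d)) (hg : Integrable g (TP d)) :
    fc (fun x => a * f x + b * g x) k = a * fc f k + b * fc g k := by
  unfold fc
  rw [← integral_const_mul, ← integral_const_mul, ← integral_add]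
  · refine integral_congr_ae (Filter.Eventually.of_forall fun x => ?_)
    beta_reduce
    ring
  · exact (W_split_int d k f hf).const_mul a
  · exact (W_split_int d k g hg).const_mul b

theorem W_split (d : ℕ) (r lam : ℝ) (hr : 1/2 < r) (hl : 1 ≤ lam) (f : (Fin d → ℝ) → ℂ)
    (hf : f ∈ WF d r 4) : ∃ f1 ∈ WF d r ⊤, ∃ f2 ∈ WF d r 2,
    f =ᵐ[TP d] (fun x => (lam : ℂ) * f1 x + ((lam⁻¹ : ℝ) : ℂ) * f2 x) := by
  have hP := TP_prob d
  obtain ⟨hf4, φ, hφ4, hφ1, hfc⟩ := hf
  obtain ⟨φ1, φ2, hφ1top, hφ1b, hφ22, hφ2b, hae⟩ := split4 d lam hl φ hφ4 hφ1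
  have hφ12 : MemLp φ1 2 (TP d) := hφ1top.mono_exponent le_top
  obtain ⟨g1, hg1, hg1c⟩ := conv_exists d r hr φ1 hφ12
  obtain ⟨g2, hg2, hg2c⟩ := conv_exists d r hr φ2 hφ22
  have hg12 : MemLp g1 2 (TP d) := hg1.mono_exponent le_top
  have hg22 : MemLp g2 2 (TP d) := hg2.mono_exponent le_top
  have hf2 : MemLp f 2 (TP d) := hf4.mono_exponent (by norm_num)
  have h12 : (1 : ℝ≥0∞) ≤ 2 := by norm_num
  refine ⟨g1, ⟨hg1, φ1, hφ1top, ?_, hg1c⟩, g2, ⟨hg22, φ2, hφ22, hφ2b, hg2c⟩, ?_⟩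
  · rw [eLpNorm_exponent_top]
    refine (eLpNormEssSup_le_of_ae_bound (C := 1) (Filter.Eventually.of_forall hφ1b)).trans ?_
    rw [ENNReal.ofReal_one]
  · have hfi : Integrable f (TP d) := hf2.integrable h12
    have hg1i : Integrable g1 (TP d) := hg12.integrable h12
    have hg2i : Integrable g2 (TP d) := hg22.integrable h12
    have hφ1i : Integrable φ1 (TP d) := hφ12.integrable h12
    have hφ2i : Integrable φ2 (TP d) := hφ22.integrable h12
    have hDm : MemLp (fun x => (1:ℂ) * f x + (-1) * ((lam : ℂ) * g1 x + ((lam⁻¹ : ℝ) : ℂ) * g2 x)) 2 (TP d) := by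
      exact (hf2.const_mul 1).add (((hg12.const_mul (lam:ℂ)).add (hg22.const_mul ((lam⁻¹ : ℝ) : ℂ))).const_mul (-1))
    have hG : Integrable (fun x => (lam : ℂ) * g1 x + ((lam⁻¹ : ℝ) : ℂ) * g2 x) (TP d) :=
      (hg1i.const_mul _).add (hg2i.const_mul _)
    have h0 : ∀ k : Fin d → ℤ,
        fc (fun x => (1:ℂ) * f x + (-1) * ((lam : ℂ) * g1 x + ((lam⁻¹ : ℝ) : ℂ) * g2 x)) k = 0 := by
      intro k
      rw [W_split_lin d k 1 (-1) f _ hfi hG, W_split_lin d k _ _ g1 g2 hg1i hg2i, hg1c k, hg2c k,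
        hfc k]
      have hφe : fc φ k = (lam : ℂ) * fc φ1 k + ((lam⁻¹ : ℝ) : ℂ) * fc φ2 k := by
        rw [← W_split_lin d k _ _ φ1 φ2 hφ1i hφ2i]
        unfold fc
        refine integral_congr_ae ?_
        filter_upwards [hae] with x hx
        rw [hx]
      rw [hφe]
      ring
    have hz := fourier_unique d _ hDm h0
    filter_upwards [hz] with x hx
    have hx' : (1:ℂ) * f x + (-1) * ((lam : ℂ) * g1 x + ((lam⁻¹ : ℝ) : ℂ) * g2 x) = 0 := hx
    linear_combination hx'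

end S_W_split

alias W_split := S_W_split.W_split

end HypVolE
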