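import Pool.Agent.H636R2.HE.EDefs
open MeasureTheory Real ProbabilityTheory
open scoped ENNReal BigOperators


open HypVol
namespace HypVolE

namespace S_ent_split




theorem ent_split {d : ℕ} (k : ℕ) (Θ Θ1 Θ2 : Set ((Fin d → ℝ) → ℂ)) (lam : ℝ) (hl : 0 < lam)
    (h : ∀ f ∈ Θ, ∃ f1 ∈ Θ1, ∃ f2 ∈ Θ2,
      f =ᵐ[TP d] (fun x => (lam : ℂ) * f1 x + ((lam⁻¹ : ℝ) : ℂ) * f2 x)) :
    entLp ⊤ (2 * k) Θ ≤ ENNReal.ofReal lam * entLp ⊤ k Θ1 + ENNReal.ofReal lam⁻¹ * entLp ⊤ k Θ2 := by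
  have ha0 : ENNReal.ofReal lam ≠ 0 := by
    rw [Ne, ENNReal.ofReal_eq_zero, not_le]; exact hl
  have hb0 : ENNReal.ofReal lam⁻¹ ≠ 0 := by
    rw [Ne, ENNReal.ofReal_eq_zero, not_le]; exact inv_pos.mpr hl
  have key : ∀ ε1 : ℝ≥0∞, (0 < ε1 ∧ ∃ y : Fin (2^k) → ((Fin d → ℝ) → ℂ), (∀ j, MemLp (y j) ⊤ (TP d)) ∧
      ∀ f ∈ Θ1, ∃ j, eLpNorm (fun x => f x - y j x) ⊤ (TP d) ≤ ε1) →
      ∀ ε2 : ℝ≥0∞, (0 < ε2 ∧ ∃ y : Fin (2^k) → ((Fin d → ℝ) → ℂ), (∀ j, MemLp (y j) ⊤ (TP d)) ∧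
      ∀ f ∈ Θ2, ∃ j, eLpNorm (fun x => f x - y j x) ⊤ (TP d) ≤ ε2) →
      entLp ⊤ (2 * k) Θ ≤ ENNReal.ofReal lam * ε1 + ENNReal.ofReal lam⁻¹ * ε2 := by
    rintro ε1 ⟨h1, y1, hy1, hc1⟩ ε2 ⟨h2, y2, hy2, hc2⟩
    apply sInf_le
    refine ⟨?_, ?_⟩
    · exact lt_of_lt_of_le (ENNReal.mul_pos ha0 h1.ne') le_self_add
    · let e : Fin (2^(2*k)) ≃ Fin (2^k) × Fin (2^k) := (finCongr (by ring)).trans finProdFinEquiv.symm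
      refine ⟨fun j x => (lam : ℂ) * y1 (e j).1 x + ((lam⁻¹ : ℝ) : ℂ) * y2 (e j).2 x, ?_, ?_⟩
      · intro j
        exact ((hy1 _).const_mul _).add ((hy2 _).const_mul _)
      · intro f hf
        obtain ⟨f1, hf1, f2, hf2, hff⟩ := h f hf
        obtain ⟨j1, hj1⟩ := hc1 f1 hf1
        obtain ⟨j2, hj2⟩ := hc2 f2 hf2
        refine ⟨e.symm (j1, j2), ?_⟩
        simp only [Equiv.apply_symm_apply]
        have hae : (fun x => f x - ((lam : ℂ) * y1 j1 x + ((lam⁻¹ : ℝ) : ℂ) * y2 j2 x)) =ᵐ[TP d]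
            ((lam : ℂ) • (fun x => f1 x - y1 j1 x) + ((lam⁻¹ : ℝ) : ℂ) • (fun x => f2 x - y2 j2 x)) := by
          filter_upwards [hff] with x hx
          rw [hx]
          simp only [Pi.add_apply, Pi.smul_apply, smul_eq_mul]
          ring
        rw [eLpNorm_congr_ae hae, eLpNorm_exponent_top]
        refine (eLpNormEssSup_add_le).trans ?_
        rw [eLpNormEssSup_const_smul, eLpNormEssSup_const_smul]
        rw [eLpNorm_exponent_top] at hj1 hj2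
        have n1 : ‖(lam : ℂ)‖ₑ = ENNReal.ofReal lam := by
          rw [← ofReal_norm_eq_enorm, Complex.norm_of_nonneg hl.le]
        have n2 : ‖((lam⁻¹ : ℝ) : ℂ)‖ₑ = ENNReal.ofReal lam⁻¹ := by
          rw [← ofReal_norm_eq_enorm, Complex.norm_of_nonneg (inv_pos.mpr hl).le]
        rw [n1, n2]
        exact add_le_add (mul_le_mul_right hj1 _) (mul_le_mul_right hj2 _)
  have e1 : entLp ⊤ k Θ1 = ⨅ ε : {ε : ℝ≥0∞ | 0 < ε ∧ ∃ y : Fin (2^k) → ((Fin d → ℝ) → ℂ),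
      (∀ j, MemLp (y j) ⊤ (TP d)) ∧ ∀ f ∈ Θ1, ∃ j, eLpNorm (fun x => f x - y j x) ⊤ (TP d) ≤ ε}, (ε : ℝ≥0∞) := by
    rw [entLp, sInf_eq_iInf']
  have e2 : entLp ⊤ k Θ2 = ⨅ ε : {ε : ℝ≥0∞ | 0 < ε ∧ ∃ y : Fin (2^k) → ((Fin d → ℝ) → ℂ),
      (∀ j, MemLp (y j) ⊤ (TP d)) ∧ ∀ f ∈ Θ2, ∃ j, eLpNorm (fun x => f x - y j x) ⊤ (TP d) ≤ ε}, (ε : ℝ≥0∞) := by
    rw [entLp, sInf_eq_iInf']
  rw [e1, e2, ENNReal.mul_iInf_of_ne ha0 ENNReal.ofReal_ne_top, ENNReal.mul_iInf_of_ne hb0 ENNReal.ofReal_ne_top,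
    ENNReal.iInf_add]
  apply le_iInf
  intro i
  rw [ENNReal.add_iInf]
  apply le_iInf
  intro j
  exact key i.1 i.2 j.1 j.2

end S_ent_split

alias ent_split := S_ent_split.ent_split

end HypVolE
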