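import Pool.Agent.H636R2.HE.Defs
import Pool.Agent.HypVol.L_ess_sup
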