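import Pool.Agent.H636R2.HE.Defs
import Pool.Agent.H636R2.HE.P_trig_shift
import Pool.Agent.H636R2.HE.P_trig_diff
open MeasureTheory Real ProbabilityTheory
open scoped ENNReal BigOperators


open HypVol
namespace HypVolE

namespace S_mdiff_bound








/-- trigonometric polynomial with coefficients `c` -/
noncomputable def auxM_P {d n : ℕ} (c : layer d n → ℂ) (x : Fin d → ℝ) : ℂ :=
  ∑ k : layer d n, c k * Complex.exp (Complex.I * ((∑ j, (k.1 j : ℝ) * x j : ℝ) : ℂ))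

/-- coefficients of `bpoly` -/
noncomputable def auxM_c {d n : ℕ} (l : ℕ) (s : Fin d → ℕ) (e : Finset (Fin d))
    (a : (layer d n) × Fin 2 → ℝ) (k : layer d n) : ℂ :=
  if (∀ j, Nat.size (k.1 j).natAbs = s j) then
    ((∏ j ∈ e, ((k.1 j : ℝ) / 2^(s j))^l : ℝ) : ℂ) * ((a (k, 0) : ℂ) + (a (k, 1) : ℂ) * Complex.I)
  else 0

theorem auxM_bpoly {d n : ℕ} (l : ℕ) (s : Fin d → ℕ) (e : Finset (Fin d))
    (a : (layer d n) × Fin 2 → ℝ) : bpoly l s e a = auxM_P (auxM_c l s e a) := by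
  funext x
  unfold bpoly auxM_P auxM_c
  refine Finset.sum_congr rfl ?_
  intro k _
  split_ifs <;> simp

theorem auxM_it1 {d n : ℕ} (q : ℝ≥0∞) (hq : 1 ≤ q) (j0 : Fin d) (t : ℝ) (l : ℕ) :
    ∀ c : layer d n → ℂ,
    eLpNorm (auxM_P (fun k => c k * (Complex.exp (Complex.I * (((k.1 j0 : ℝ) * t : ℝ) : ℂ)) - 1)^l)) q
      (TP d) ≤ ENNReal.ofReal |t| ^ l *
        eLpNorm (auxM_P (fun k => c k * ((k.1 j0 : ℝ) : ℂ)^l)) q (TP d) := by
  induction l with
  | zero => intro c; simp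
  | succ l ih =>
    intro c
    have h1 := (trig_diff (fun k : layer d n => k.1)
      (fun k => c k * (Complex.exp (Complex.I * (((k.1 j0 : ℝ) * t : ℝ) : ℂ)) - 1)^l) q hq j0 t).1
    have h2 := ih (fun k => c k * ((k.1 j0 : ℝ) : ℂ))
    have e1 : (auxM_P (fun k : layer d n => c k *
        (Complex.exp (Complex.I * (((k.1 j0 : ℝ) * t : ℝ) : ℂ)) - 1)^(l+1))) =
        (fun x => ∑ i : layer d n, ((c i * (Complex.exp (Complex.I * (((i.1 j0 : ℝ) * t : ℝ) : ℂ)) - 1)^l) *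
        (Complex.exp (Complex.I * (((i.1 j0 : ℝ) * t : ℝ) : ℂ)) - 1)) *
        Complex.exp (Complex.I * ((∑ j, (i.1 j : ℝ) * x j : ℝ) : ℂ))) := by
      funext x
      unfold auxM_P
      refine Finset.sum_congr rfl ?_
      intro k _
      beta_reduce
      rw [pow_succ]
      ring
    have e2 : (fun x => ∑ i : layer d n, ((c i * (Complex.exp (Complex.I * (((i.1 j0 : ℝ) * t : ℝ) : ℂ)) - 1)^l) *
        ((i.1 j0 : ℝ) : ℂ)) *
        Complex.exp (Complex.I * ((∑ j, (i.1 j : ℝ) * x j : ℝ) : ℂ))) =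
        auxM_P (fun k : layer d n => (c k * ((k.1 j0 : ℝ) : ℂ)) *
        (Complex.exp (Complex.I * (((k.1 j0 : ℝ) * t : ℝ) : ℂ)) - 1)^l) := by
      funext x
      unfold auxM_P
      refine Finset.sum_congr rfl ?_
      intro k _
      ring
    have e3 : auxM_P (fun k : layer d n => (c k * ((k.1 j0 : ℝ) : ℂ)) * ((k.1 j0 : ℝ) : ℂ)^l) =
        auxM_P (fun k : layer d n => c k * ((k.1 j0 : ℝ) : ℂ)^(l+1)) := by
      funext x
      unfold auxM_P
      refine Finset.sum_congr rfl ?_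
      intro k _
      ring
    rw [e1]
    refine h1.trans ?_
    rw [e2]
    rw [e3] at h2
    calc ENNReal.ofReal |t| * _ ≤ ENNReal.ofReal |t| * (ENNReal.ofReal |t| ^ l *
        eLpNorm (auxM_P (fun k : layer d n => c k * ((k.1 j0 : ℝ) : ℂ)^(l+1))) q (TP d)) := by gcongr
      _ = _ := by rw [pow_succ]; ring

theorem auxM_it2 {d n : ℕ} (q : ℝ≥0∞) (hq : 1 ≤ q) (j0 : Fin d) (t : ℝ) (l : ℕ)
    (c : layer d n → ℂ) :
    eLpNorm (auxM_P (fun k => c k * (Complex.exp (Complex.I * (((k.1 j0 : ℝ) * t : ℝ) : ℂ)) - 1)^l)) q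
      (TP d) ≤ 2 ^ l * eLpNorm (auxM_P c) q (TP d) := by
  induction l with
  | zero => simp
  | succ l ih =>
    have h1 := (trig_diff (fun k : layer d n => k.1)
      (fun k => c k * (Complex.exp (Complex.I * (((k.1 j0 : ℝ) * t : ℝ) : ℂ)) - 1)^l) q hq j0 t).2
    have e1 : (auxM_P (fun k : layer d n => c k *
        (Complex.exp (Complex.I * (((k.1 j0 : ℝ) * t : ℝ) : ℂ)) - 1)^(l+1))) =
        (fun x => ∑ i : layer d n, ((c i * (Complex.exp (Complex.I * (((i.1 j0 : ℝ) * t : ℝ) : ℂ)) - 1)^l) *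
        (Complex.exp (Complex.I * (((i.1 j0 : ℝ) * t : ℝ) : ℂ)) - 1)) *
        Complex.exp (Complex.I * ((∑ j, (i.1 j : ℝ) * x j : ℝ) : ℂ))) := by
      funext x
      unfold auxM_P
      refine Finset.sum_congr rfl ?_
      intro k _
      beta_reduce
      rw [pow_succ]
      ring
    rw [e1]
    refine h1.trans ?_
    calc 2 * _ ≤ 2 * (2 ^ l * eLpNorm (auxM_P c) q (TP d)) := by gcongr; exact ih
      _ = _ := by rw [pow_succ]; ring

theorem auxM_scale {d n : ℕ} (q : ℝ≥0∞) (lam : ℝ) (hl : 0 ≤ lam) (c : layer d n → ℂ) :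
    eLpNorm (auxM_P (fun k => (lam : ℂ) * c k)) q (TP d) =
      ENNReal.ofReal lam * eLpNorm (auxM_P c) q (TP d) := by
  have e1 : auxM_P (fun k => (lam : ℂ) * c k) = (lam : ℂ) • auxM_P c := by
    funext x
    simp only [Pi.smul_apply, smul_eq_mul]
    unfold auxM_P
    rw [Finset.mul_sum]
    refine Finset.sum_congr rfl ?_
    intro k _
    ring
  rw [e1, eLpNorm_const_smul]
  congr 1
  rw [← ofReal_norm]
  simp [abs_of_nonneg hl]

theorem auxM_main {d n : ℕ} (l : ℕ) (s : Fin d → ℕ) (a : (layer d n) × Fin 2 → ℝ) (q : ℝ≥0∞)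
    (hq : 1 ≤ q) (A : ℝ) (hA : 0 ≤ A)
    (h : ∀ e : Finset (Fin d), eLpNorm (bpoly l s e a) q (TP d) ≤ ENNReal.ofReal A)
    (t : Fin d → ℝ) (e : Finset (Fin d)) : ∀ e' : Finset (Fin d), Disjoint e e' →
    eLpNorm (auxM_P (fun k => auxM_c l s e' a k *
      ∏ j ∈ e, (Complex.exp (Complex.I * (((k.1 j : ℝ) * t j : ℝ) : ℂ)) - 1)^l)) q (TP d) ≤
      ENNReal.ofReal ((∏ j ∈ e, (min 2 (2^(s j) * |t j|))^l) * A) := by
  classical
  induction e using Finset.induction_on with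
  | empty =>
    intro e' _
    have h1 := h e'
    rw [auxM_bpoly] at h1
    simpa using h1
  | @insert j0 e1 hj0 ih =>
    intro e' hd
    have hd1 : Disjoint e1 e' := Finset.disjoint_of_subset_left (Finset.subset_insert _ _) hd
    have hj' : j0 ∉ e' := fun hx => (Finset.disjoint_left.1 hd) (Finset.mem_insert_self _ _) hx
    have e0 : (fun k : layer d n => auxM_c l s e' a k *
        ∏ j ∈ insert j0 e1, (Complex.exp (Complex.I * (((k.1 j : ℝ) * t j : ℝ) : ℂ)) - 1)^l) =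
        (fun k : layer d n => (auxM_c l s e' a k *
        ∏ j ∈ e1, (Complex.exp (Complex.I * (((k.1 j : ℝ) * t j : ℝ) : ℂ)) - 1)^l) *
        (Complex.exp (Complex.I * (((k.1 j0 : ℝ) * t j0 : ℝ) : ℂ)) - 1)^l) := by
      funext k
      rw [Finset.prod_insert hj0]
      ring
    have hprod : 0 ≤ ∏ j ∈ e1, (min 2 (2^(s j) * |t j|))^l :=
      Finset.prod_nonneg fun j _ => pow_nonneg (le_min (by norm_num) (by positivity)) _
    rw [e0, Finset.prod_insert hj0, mul_assoc]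
    rcases le_total 2 (2^(s j0) * |t j0|) with hc | hc
    · rw [min_eq_left hc]
      refine (auxM_it2 q hq j0 (t j0) l _).trans ?_
      have h2 := ih e' hd1
      rw [ENNReal.ofReal_mul (by positivity), ENNReal.ofReal_pow (by norm_num)]
      have h3 : ENNReal.ofReal 2 = 2 := by simp
      rw [h3]
      gcongr
    · rw [min_eq_right hc]
      refine (auxM_it1 q hq j0 (t j0) l _).trans ?_
      have hd2 : Disjoint e1 (insert j0 e') := by
        rw [Finset.disjoint_insert_right]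
        exact ⟨hj0, hd1⟩
      have h2 := ih (insert j0 e') hd2
      have e2 : (fun k : layer d n => (auxM_c l s e' a k *
          ∏ j ∈ e1, (Complex.exp (Complex.I * (((k.1 j : ℝ) * t j : ℝ) : ℂ)) - 1)^l) *
          ((k.1 j0 : ℝ) : ℂ)^l) =
          (fun k : layer d n => ((((2:ℝ)^(s j0))^l : ℝ) : ℂ) * (auxM_c l s (insert j0 e') a k *
          ∏ j ∈ e1, (Complex.exp (Complex.I * (((k.1 j : ℝ) * t j : ℝ) : ℂ)) - 1)^l)) := by
        funext k
        unfold auxM_c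
        split_ifs with hk
        · rw [Finset.prod_insert hj']
          have h5 : ((k.1 j0 : ℝ) : ℂ)^l = ((((2:ℝ)^(s j0))^l : ℝ) : ℂ) *
              ((((k.1 j0 : ℝ) / 2^(s j0))^l : ℝ) : ℂ) := by
            rw [← Complex.ofReal_mul, ← mul_pow, ← Complex.ofReal_pow]
            congr 2
            field_simp
          rw [h5, Complex.ofReal_mul]
          ring
        · simp
      rw [e2, auxM_scale q _ (by positivity)]
      have e3 : ENNReal.ofReal ((2 ^ s j0 * |t j0|) ^ l * ((∏ j ∈ e1, (min 2 (2^(s j) * |t j|))^l) * A)) =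
          ENNReal.ofReal |t j0| ^ l * (ENNReal.ofReal (((2:ℝ)^(s j0))^l) *
            ENNReal.ofReal ((∏ j ∈ e1, (min 2 (2^(s j) * |t j|))^l) * A)) := by
        rw [ENNReal.ofReal_mul (by positivity), mul_pow, ENNReal.ofReal_mul (by positivity),
          ENNReal.ofReal_pow (abs_nonneg (t j0))]
        ring
      rw [e3]
      gcongr

theorem auxM_mdiff {d n : ℕ} (l : ℕ) (e : Finset (Fin d)) (t : Fin d → ℝ) (c : layer d n → ℂ) :
    mdiff l e t (auxM_P c) = auxM_P (fun k => c k *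
      ∏ j ∈ e, (Complex.exp (Complex.I * (((k.1 j : ℝ) * t j : ℝ) : ℂ)) - 1)^l) := by
  classical
  funext x
  unfold mdiff auxM_P
  simp only [Finset.mul_sum]
  rw [Finset.sum_comm]
  refine Finset.sum_congr rfl ?_
  intro k _
  set z : Fin d → ℂ := fun j => Complex.exp (Complex.I * (((k.1 j : ℝ) * t j : ℝ) : ℂ)) with hz
  set g : Fin d → ℕ → ℂ := fun j m => if j ∈ e then ((-1 : ℂ)^(l - m) * ((l.choose m : ℕ) : ℂ)) * z j ^ m
    else 1 with hg
  have h1 : ∀ ν ∈ Fintype.piFinset (fun j : Fin d => if j ∈ e then Finset.range (l + 1) else {0}),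
      (∏ j ∈ e, ((-1 : ℂ)^(l - ν j) * ((l.choose (ν j) : ℕ) : ℂ))) * (c k *
        Complex.exp (Complex.I * ((∑ j, (k.1 j : ℝ) * (x j + (ν j : ℝ) * t j) : ℝ) : ℂ))) =
      (c k * Complex.exp (Complex.I * ((∑ j, (k.1 j : ℝ) * x j : ℝ) : ℂ))) * ∏ j, g j (ν j) := by
    intro ν hν
    rw [Fintype.mem_piFinset] at hν
    have h2 : ∏ j, g j (ν j) = (∏ j ∈ e, ((-1 : ℂ)^(l - ν j) * ((l.choose (ν j) : ℕ) : ℂ))) *
        ∏ j, z j ^ (ν j) := by
      have h3 : (∏ j ∈ e, ((-1 : ℂ)^(l - ν j) * ((l.choose (ν j) : ℕ) : ℂ))) =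
          ∏ j, (if j ∈ e then ((-1 : ℂ)^(l - ν j) * ((l.choose (ν j) : ℕ) : ℂ)) else 1) := by
        rw [Finset.prod_ite_mem]
        simp
      rw [h3, ← Finset.prod_mul_distrib]
      refine Finset.prod_congr rfl ?_
      intro j _
      by_cases hj : j ∈ e
      · simp only [hg, if_pos hj]
      · have h4 := hν j
        rw [if_neg hj, Finset.mem_singleton] at h4
        simp only [hg, if_neg hj, h4, pow_zero, mul_one]
    have h5 : Complex.exp (Complex.I * ((∑ j, (k.1 j : ℝ) * (x j + (ν j : ℝ) * t j) : ℝ) : ℂ)) =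
        Complex.exp (Complex.I * ((∑ j, (k.1 j : ℝ) * x j : ℝ) : ℂ)) * ∏ j, z j ^ (ν j) := by
      have h6 : ∏ j, z j ^ (ν j) = Complex.exp (∑ j, (ν j : ℂ) *
          (Complex.I * (((k.1 j : ℝ) * t j : ℝ) : ℂ))) := by
        rw [Complex.exp_sum]
        refine Finset.prod_congr rfl ?_
        intro j _
        rw [hz, ← Complex.exp_nat_mul]
      rw [h6, ← Complex.exp_add]
      congr 1
      push_cast
      rw [Finset.mul_sum, Finset.mul_sum, ← Finset.sum_add_distrib]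
      refine Finset.sum_congr rfl ?_
      intro j _
      ring
    rw [h2, h5]
    ring
  rw [Finset.sum_congr rfl h1, ← Finset.mul_sum, ← Finset.prod_univ_sum]
  have h7 : ∏ j, ∑ m ∈ (if j ∈ e then Finset.range (l + 1) else {0}), g j m =
      ∏ j ∈ e, (z j - 1)^l := by
    have h8 : ∏ j ∈ e, (z j - 1)^l = ∏ j, (if j ∈ e then (z j - 1)^l else 1) := by
      rw [Finset.prod_ite_mem]
      simp
    rw [h8]
    refine Finset.prod_congr rfl ?_
    intro j _
    by_cases hj : j ∈ e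
    · simp only [hg, if_pos hj]
      rw [sub_eq_add_neg, add_pow]
      refine Finset.sum_congr rfl ?_
      intro m _
      ring
    · simp only [hg, if_neg hj, Finset.sum_singleton]
  rw [h7]
  ring

theorem mdiff_bound {d n : ℕ} (l : ℕ) (s : Fin d → ℕ) (a : (layer d n) × Fin 2 → ℝ) (q : ℝ≥0∞) (hq : 1 ≤ q)
    (A : ℝ) (hA : 0 ≤ A) (h : ∀ e : Finset (Fin d), eLpNorm (bpoly l s e a) q (TP d) ≤ ENNReal.ofReal A)
    (e : Finset (Fin d)) (t : Fin d → ℝ) :
    eLpNorm (mdiff l e t (bpoly l s ∅ a)) q (TP d) ≤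
      ENNReal.ofReal ((∏ j ∈ e, (min 2 (2^(s j) * |t j|))^l) * A) := by
  rw [auxM_bpoly, auxM_mdiff]
  exact auxM_main l s a q hq A hA h t e ∅ (Finset.disjoint_empty_right _)

end S_mdiff_bound

alias mdiff_bound := S_mdiff_bound.mdiff_bound

end HypVolE
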