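import Pool.Agent.H636R2.HE.Defs
import Pool.Agent.H636R2.HE.P_mem_layer_iff
open MeasureTheory Real ProbabilityTheory
open scoped ENNReal BigOperators


open HypVol
namespace HypVolE

namespace S_poly_blocks







theorem poly_blocks {d n : ℕ} (l : ℕ) (a : (layer d n) × Fin 2 → ℝ) (x : Fin d → ℝ) :
    poly a x = ∑ s ∈ Sh d n, bpoly l (fun j => (s j : ℕ)) ∅ a x := by
  unfold poly bpoly
  rw [Finset.sum_comm]
  refine Finset.sum_congr rfl fun k _ => ?_
  have hk : ∑ j, Nat.size (k.1 j).natAbs = n := (mem_layer_iff d n k.1).1 k.2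
  have hle : ∀ j, Nat.size (k.1 j).natAbs < n + 1 := by
    intro j
    have h1 : Nat.size (k.1 j).natAbs ≤ ∑ j, Nat.size (k.1 j).natAbs :=
      Finset.single_le_sum (f := fun j => Nat.size (k.1 j).natAbs)
        (fun _ _ => Nat.zero_le _) (Finset.mem_univ j)
    omega
  let s0 : Fin d → Fin (n + 1) := fun j => ⟨Nat.size (k.1 j).natAbs, hle j⟩
  have hs0 : s0 ∈ Sh d n := by
    unfold Sh
    rw [Finset.mem_filter]
    exact ⟨Finset.mem_univ _, hk⟩
  rw [Finset.sum_eq_single s0]
  · rw [if_pos fun j => rfl]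
    simp
  · intro s _ hne
    rw [if_neg]
    intro h
    apply hne
    funext j
    apply Fin.ext
    exact (h j).symm
  · intro h
    exact absurd hs0 h

end S_poly_blocks

alias poly_blocks := S_poly_blocks.poly_blocks

end HypVolE
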