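import Pool.Agent.H636R2.HE.Defs
import Pool.Agent.HypVol.L_TP_prob
import Pool.Agent.H636R2.HE.P_poly_blocks
import Pool.Agent.H636R2.HE.P_mdiff_bound
import Pool.Agent.H636R2.HE.P_sum_min
open MeasureTheory Real ProbabilityTheory
open scoped ENNReal BigOperators


open HypVol
namespace HypVolE

namespace S_HH_mem










theorem bpoly_cont {d n : ℕ} (l : ℕ) (s : Fin d → ℕ) (e : Finset (Fin d))
    (a : (layer d n) × Fin 2 → ℝ) : Continuous (bpoly l s e a) := by
  unfold bpoly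
  refine continuous_finsetSum _ fun k _ => ?_
  split_ifs
  · fun_prop
  · exact continuous_const

theorem poly_cont {d n : ℕ} (a : (layer d n) × Fin 2 → ℝ) : Continuous (poly a) := by
  unfold poly
  refine continuous_finsetSum _ fun k _ => ?_
  fun_prop

theorem mdiff_cont {d : ℕ} (l : ℕ) (e : Finset (Fin d)) (t : Fin d → ℝ) (f : (Fin d → ℝ) → ℂ)
    (hf : Continuous f) : Continuous (mdiff l e t f) := by
  unfold mdiff
  refine continuous_finsetSum _ fun ν _ => ?_
  exact continuous_const.mul (hf.comp (by fun_prop))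

theorem poly_per {d n : ℕ} (a : (layer d n) × Fin 2 → ℝ) (x : Fin d → ℝ) (j : Fin d) :
    poly a (Function.update x j (x j + 2 * π)) = poly a x := by
  unfold poly
  refine Finset.sum_congr rfl fun k _ => ?_
  have e1 : ∑ i, (k.1 i : ℝ) * Function.update x j (x j + 2 * π) i =
      ∑ i, (k.1 i : ℝ) * x i + (k.1 j : ℝ) * (2 * π) := by
    have h : Function.update x j (x j + 2 * π) = fun i => x i + (if i = j then 2 * π else 0) := by
      funext i
      by_cases h : i = j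
      · subst h; simp
      · simp [h]
    rw [h]
    simp [mul_add, Finset.sum_add_distrib]
  rw [e1]
  congr 1
  have h : Complex.I * (((∑ i, (k.1 i : ℝ) * x i + (k.1 j : ℝ) * (2 * π) : ℝ)) : ℂ) =
      Complex.I * ((∑ i, (k.1 i : ℝ) * x i : ℝ) : ℂ) + (k.1 j : ℂ) * (2 * π * Complex.I) := by
    push_cast
    ring
  rw [h, Complex.exp_add, Complex.exp_int_mul_two_pi_mul_I, mul_one]

theorem mdiff_empty {d : ℕ} (l : ℕ) (t : Fin d → ℝ) (f : (Fin d → ℝ) → ℂ) : mdiff l ∅ t f = f := by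
  funext x
  unfold mdiff
  have h : (Fintype.piFinset (fun j : Fin d => if j ∈ (∅ : Finset (Fin d)) then Finset.range (l + 1)
      else {0})) = {fun _ => 0} := by
    ext ν
    simp only [Finset.notMem_empty, if_false, Fintype.mem_piFinset, Finset.mem_singleton]
    constructor
    · intro h; funext j; exact h j
    · rintro rfl j; rfl
  rw [h]
  simp

theorem mdiff_split {d n : ℕ} (l : ℕ) (e : Finset (Fin d)) (t : Fin d → ℝ) (lam : ℂ)
    (a : (layer d n) × Fin 2 → ℝ) :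
    mdiff l e t (fun x => lam * poly a x) =
      ∑ s ∈ Sh d n, lam • mdiff l e t (bpoly l (fun j => (s j : ℕ)) ∅ a) := by
  funext x
  rw [Finset.sum_apply]
  simp only [Pi.smul_apply, smul_eq_mul]
  unfold mdiff
  simp only [poly_blocks l a, Finset.mul_sum]
  rw [Finset.sum_comm]
  refine Finset.sum_congr rfl fun s _ => Finset.sum_congr rfl fun ν _ => ?_
  ring

theorem HH_mem (d : ℕ) (r q C : ℝ) (hr : 0 < r) (hq : 1 ≤ q) (hC : 0 < C) : ∃ c : ℝ, 0 < c ∧
    ∀ (n : ℕ) (a : (layer d n) × Fin 2 → ℝ),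
    (∀ (s : Fin d → ℕ) (e : Finset (Fin d)), ∑ j, s j = n →
      eLpNorm (bpoly (⌊r⌋₊ + 1) s e a) (ENNReal.ofReal q) (TP d) ≤ ENNReal.ofReal (C * Real.sqrt (2^n))) →
    (fun x => ((c * (2:ℝ)^(-(r * n)) * (Real.sqrt (2^n))⁻¹ : ℝ) : ℂ) * poly a x) ∈ HH d r (ENNReal.ofReal q) := by
  obtain ⟨C', hC', hsum⟩ := sum_min d r hr
  refine ⟨(C * C')⁻¹, by positivity, fun n a h => ?_⟩
  set l := ⌊r⌋₊ + 1 with hl
  have hsq : 0 < Real.sqrt (2 ^ n) := Real.sqrt_pos.2 (by positivity)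
  have h2r : 0 < (2 : ℝ) ^ (r * n) := Real.rpow_pos_of_pos (by norm_num) _
  have h2r' : (2 : ℝ) ^ (-(r * n)) = ((2 : ℝ) ^ (r * n))⁻¹ := Real.rpow_neg (by norm_num) _
  set lam : ℝ := (C * C')⁻¹ * (2 : ℝ) ^ (-(r * n)) * (Real.sqrt (2 ^ n))⁻¹ with hlam
  have hlam0 : 0 < lam := by
    rw [hlam, h2r']; positivity
  have hone : 1 ≤ ENNReal.ofReal q := ENNReal.one_le_ofReal.2 hq
  have hest : ∀ (e : Finset (Fin d)) (t : Fin d → ℝ),
      eLpNorm (mdiff l e t (fun x => (lam : ℂ) * poly a x)) (ENNReal.ofReal q) (TP d) ≤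
        ENNReal.ofReal (∏ j ∈ e, |t j| ^ r) := by
    intro e t
    rw [mdiff_split]
    refine (eLpNorm_sum_le (fun s _ =>
      ((mdiff_cont l e t _ (bpoly_cont l _ ∅ a)).const_smul (lam : ℂ)).aestronglyMeasurable) hone).trans ?_
    have hs : ∀ s ∈ Sh d n, eLpNorm ((lam : ℂ) • mdiff l e t (bpoly l (fun j => (s j : ℕ)) ∅ a))
        (ENNReal.ofReal q) (TP d) ≤ ENNReal.ofReal (lam *
          ((∏ j ∈ e, (min 2 (2 ^ ((s j : Fin (n+1)) : ℕ) * |t j|)) ^ l) * (C * Real.sqrt (2 ^ n)))) := by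
      intro s hs
      have hsn : ∑ j, ((s j : Fin (n+1)) : ℕ) = n := (Finset.mem_filter.1 hs).2
      have hb := mdiff_bound l (fun j => ((s j : Fin (n+1)) : ℕ)) a (ENNReal.ofReal q) hone
        (C * Real.sqrt (2 ^ n)) (by positivity) (fun e' => h _ e' hsn) e t
      rw [eLpNorm_const_smul, ENNReal.ofReal_mul hlam0.le]
      have h1 : ‖(lam : ℂ)‖ₑ = ENNReal.ofReal lam := by
        rw [← ofReal_norm_eq_enorm, Complex.norm_real, Real.norm_of_nonneg hlam0.le]
      rw [h1]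
      gcongr
    refine (Finset.sum_le_sum hs).trans ?_
    rw [← ENNReal.ofReal_sum_of_nonneg (fun s _ => by positivity)]
    refine ENNReal.ofReal_le_ofReal ?_
    rw [← Finset.mul_sum, ← Finset.sum_mul]
    calc lam * ((∑ s ∈ Sh d n, ∏ j ∈ e, (min 2 (2 ^ ((s j : Fin (n+1)) : ℕ) * |t j|)) ^ l) *
          (C * Real.sqrt (2 ^ n)))
        ≤ lam * ((C' * (2 : ℝ) ^ (r * n) * ∏ j ∈ e, |t j| ^ r) * (C * Real.sqrt (2 ^ n))) := by
          gcongr
          exact hsum n e t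
      _ = ∏ j ∈ e, |t j| ^ r := by
          rw [hlam, h2r']
          field_simp
  refine ⟨?_, ?_, ?_, ?_⟩
  · intro x j
    show (lam : ℂ) * poly a (Function.update x j (x j + 2 * π)) = (lam : ℂ) * poly a x
    rw [poly_per]
  · exact (continuous_const.mul (poly_cont a)).aestronglyMeasurable
  · have h1 := hest ∅ (fun _ => 0)
    rw [mdiff_empty] at h1
    simpa using h1
  · intro e _ t
    exact hest e t

end S_HH_mem

alias HH_mem := S_HH_mem.HH_mem

end HypVolE
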