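import Pool.Agent.H636R2.HE.Defs
import Pool.Agent.HypVol.L_TP_prob
open MeasureTheory Real ProbabilityTheory
open scoped ENNReal BigOperators


open HypVol
namespace HypVolE

namespace S_memLp_mdiff







noncomputable def memLp_mdiff_T (h x : ℝ) : ℝ := Int.fract ((x + h) / (2 * π)) * (2 * π)

theorem memLp_mdiff_T_meas (h : ℝ) : Measurable (memLp_mdiff_T h) := by
  unfold memLp_mdiff_T
  exact (measurable_fract.comp ((measurable_id.add_const h).div_const _)).mul_const _

theorem memLp_mdiff_T_mp (h : ℝ) : MeasurePreserving (memLp_mdiff_T h)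
    (volume.restrict (Set.Ico 0 (2 * π))) (volume.restrict (Set.Ico 0 (2 * π))) := by
  have hp : (0:ℝ) < 2 * π := by positivity
  refine ⟨memLp_mdiff_T_meas h, ?_⟩
  refine Measure.ext_of_lintegral _ (fun g hg => ?_)
  rw [lintegral_map hg (memLp_mdiff_T_meas h)]
  set G : ℝ → ℝ≥0∞ := fun y => g (Int.fract (y / (2 * π)) * (2 * π)) with hG
  have hGper : ∀ (m : AddSubgroup.zmultiples (2 * π)) (x : ℝ), G (m +ᵥ x) = G x := by
    intro m x
    obtain ⟨m, k, hk⟩ := m
    simp only [hG]
    congr 2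
    have hk' : (k:ℝ) * (2 * π) = m := by simpa using hk
    show Int.fract ((m + x) / (2 * π)) = Int.fract (x / (2 * π))
    rw [← hk', add_div, mul_div_assoc, div_self hp.ne', mul_one, Int.fract_intCast_add]
  have h1 : ∫⁻ x in Set.Ico 0 (2 * π), g (memLp_mdiff_T h x) = ∫⁻ x in Set.Ioc 0 (2 * π), G (x + h) := by
    rw [restrict_Ico_eq_restrict_Ioc]
    rfl
  have h2 : ∫⁻ x in Set.Ioc 0 (2 * π), G (x + h) = ∫⁻ y in Set.Ioc h (h + 2 * π), G y := by
    have h3 := (measurePreserving_add_right (volume : Measure ℝ) h).setLIntegral_comp_preimage_emb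
      (MeasurableEquiv.addRight h).measurableEmbedding G (Set.Ioc h (h + 2 * π))
    rw [← h3]
    congr 2
    ext x
    simp
  have h4 : ∫⁻ y in Set.Ioc h (h + 2 * π), G y = ∫⁻ y in Set.Ioc 0 (0 + 2 * π), G y :=
    (isAddFundamentalDomain_Ioc hp h).setLIntegral_eq (isAddFundamentalDomain_Ioc hp 0) G hGper
  have h5 : ∫⁻ y in Set.Ioc 0 (0 + 2 * π), G y = ∫⁻ y in Set.Ico 0 (2 * π), g y := by
    rw [zero_add, ← restrict_Ico_eq_restrict_Ioc]
    refine setLIntegral_congr_fun measurableSet_Ico (fun y hy => ?_)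
    simp only [hG]
    have h6 : Int.fract (y / (2 * π)) = y / (2 * π) := by
      rw [Int.fract_eq_self]
      exact ⟨div_nonneg hy.1 hp.le, by rw [div_lt_one hp]; exact hy.2⟩
    rw [h6, div_mul_cancel₀ _ hp.ne']
  rw [h1, h2, h4, h5]

theorem memLp_mdiff_TP (d : ℕ) (h : Fin d → ℝ) :
    MeasurePreserving (fun (x : Fin d → ℝ) (j : Fin d) => memLp_mdiff_T (h j) (x j)) (TP d) (TP d) := by
  unfold TP
  have hs : ∀ i : Fin d, SigmaFinite (ENNReal.ofReal (2 * π)⁻¹ • (volume : Measure ℝ).restrict (Set.Ico 0 (2 * π))) := by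
    intro i
    have : IsFiniteMeasure (ENNReal.ofReal (2 * π)⁻¹ • (volume : Measure ℝ).restrict (Set.Ico 0 (2 * π))) := by
      constructor
      rw [Measure.smul_apply, Measure.restrict_apply_univ, Real.volume_Ico, smul_eq_mul]
      exact ENNReal.mul_lt_top ENNReal.ofReal_lt_top ENNReal.ofReal_lt_top
    infer_instance
  exact measurePreserving_pi (hν := hs) _ _ (fun i => (memLp_mdiff_T_mp (h i)).smul_measure _)

theorem memLp_mdiff_per1 (d : ℕ) (f : (Fin d → ℝ) → ℂ)
    (hp : ∀ (x : Fin d → ℝ) (j : Fin d), f (Function.update x j (x j + 2 * π)) = f x)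
    (y : Fin d → ℝ) (j : Fin d) (m : ℤ) : f (Function.update y j (y j + m * (2 * π))) = f y := by
  have hstep : ∀ m : ℤ, f (Function.update y j (y j + ((m + 1 : ℤ) : ℝ) * (2 * π))) =
      f (Function.update y j (y j + m * (2 * π))) := by
    intro m
    have h := hp (Function.update y j (y j + m * (2 * π))) j
    rw [Function.update_self, Function.update_idem] at h
    rw [← h]
    congr 2
    push_cast
    ring
  induction m using Int.induction_on with
  | zero => simp
  | succ k ih => rw [hstep]; exact ih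
  | pred k ih =>
    have := hstep (-(k:ℤ) - 1)
    rw [sub_add_cancel] at this
    rw [← this]; exact ih

theorem memLp_mdiff_per (d : ℕ) (f : (Fin d → ℝ) → ℂ)
    (hp : ∀ (x : Fin d → ℝ) (j : Fin d), f (Function.update x j (x j + 2 * π)) = f x)
    (x : Fin d → ℝ) (m : Fin d → ℤ) (s : Finset (Fin d)) :
    f (fun j => if j ∈ s then x j + m j * (2 * π) else x j) = f x := by
  induction s using Finset.induction_on with
  | empty => simp
  | insert j s hj ih =>
    rw [← ih]
    rw [← memLp_mdiff_per1 d f hp (fun j => if j ∈ s then x j + m j * (2 * π) else x j) j (m j)]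
    congr 1
    funext i
    by_cases hi : i = j
    · subst hi
      simp [hj]
    · simp [Function.update_of_ne hi, hi]

theorem memLp_mdiff_tr (d : ℕ) (f : (Fin d → ℝ) → ℂ)
    (hp : ∀ (x : Fin d → ℝ) (j : Fin d), f (Function.update x j (x j + 2 * π)) = f x)
    (q : ℝ≥0∞) (hf : MemLp f q (TP d)) (h : Fin d → ℝ) :
    MemLp (fun x : Fin d → ℝ => f (fun j => x j + h j)) q (TP d) := by
  have h1 := hf.comp_measurePreserving (memLp_mdiff_TP d h)
  have h2 : (f ∘ fun (x : Fin d → ℝ) (j : Fin d) => memLp_mdiff_T (h j) (x j)) =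
      fun x : Fin d → ℝ => f (fun j => x j + h j) := by
    funext x
    simp only [Function.comp]
    have h3 := memLp_mdiff_per d f hp (fun j => memLp_mdiff_T (h j) (x j))
      (fun j => ⌊(x j + h j) / (2 * π)⌋) Finset.univ
    rw [← h3]
    congr 1
    funext j
    simp only [Finset.mem_univ, if_true]
    unfold memLp_mdiff_T
    have hp : (0:ℝ) < 2 * π := by positivity
    rw [← add_mul, Int.fract_add_floor, div_mul_cancel₀ _ hp.ne']
  rw [← h2]
  exact h1

theorem memLp_mdiff (d : ℕ) (f : (Fin d → ℝ) → ℂ)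
    (hp : ∀ (x : Fin d → ℝ) (j : Fin d), f (Function.update x j (x j + 2 * π)) = f x)
    (hm : AEStronglyMeasurable f volume) (q : ℝ≥0∞) (hf : MemLp f q (TP d)) (l : ℕ) (e : Finset (Fin d))
    (t : Fin d → ℝ) : MemLp (mdiff l e t f) q (TP d) := by
  unfold mdiff
  refine memLp_finsetSum _ (fun ν _ => ?_)
  exact (memLp_mdiff_tr d f hp q hf (fun j => (ν j : ℝ) * t j)).const_mul _

end S_memLp_mdiff

alias memLp_mdiff := S_memLp_mdiff.memLp_mdiff

end HypVolE
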