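import Pool.Agent.H636R2.HE.Defs
import Pool.Agent.HypVol.L_card_layer
import Pool.Agent.HypVol.L_shp_upper
import Pool.Agent.HypVol.L_TP_prob
import Pool.Agent.H636R2.HE.P_mem_layer_iff
import Pool.Agent.H636R2.HE.P_bessel
import Pool.Agent.H636R2.HE.P_fc_mdiff
import Pool.Agent.H636R2.HE.P_memLp_mdiff
import Pool.Agent.HypVol.L_card_layer
import Pool.Agent.HypVol.L_shp_upper
open MeasureTheory Real ProbabilityTheory
open scoped ENNReal BigOperators


open HypVol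
namespace HypVolE

namespace S_H_co













theorem H_co_ac (d : ℕ) : TP d ≪ (volume : Measure (Fin d → ℝ)) := by
  have h1 : TP d = (ENNReal.ofReal (2 * π)⁻¹) ^ d •
      (volume : Measure (Fin d → ℝ)).restrict (Set.pi Set.univ fun _ => Set.Ico 0 (2 * π)) := by
    unfold TP
    rw [volume_pi, Measure.restrict_pi_pi]
    have : IsFiniteMeasure (volume.restrict (Set.Ico (0:ℝ) (2 * π))) := ⟨by
      rw [Measure.restrict_apply_univ, Real.volume_Ico]
      exact ENNReal.ofReal_lt_top⟩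
    have h2 : IsFiniteMeasure (ENNReal.ofReal (2 * π)⁻¹ • volume.restrict (Set.Ico (0:ℝ) (2 * π))) :=
      Measure.smul_finite _ ENNReal.ofReal_ne_top
    refine Measure.pi_eq fun s hs => ?_
    rw [Measure.smul_apply, Measure.pi_pi, smul_eq_mul]
    simp only [Measure.smul_apply, smul_eq_mul]
    rw [Finset.prod_mul_distrib, Finset.prod_const, Finset.card_univ, Fintype.card_fin]
  rw [h1]
  exact (Measure.smul_absolutelyContinuous).trans
    (Measure.absolutelyContinuous_of_le Measure.restrict_le_self)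

theorem H_co_norm (θ : ℝ) (h1 : π / 2 ≤ |θ|) (h2 : |θ| ≤ π) :
    1 ≤ ‖Complex.exp (Complex.I * (θ : ℂ)) - 1‖ := by
  have hc : Real.cos θ ≤ 0 := by
    rw [← Real.cos_abs]
    exact Real.cos_nonpos_of_pi_div_two_le_of_le h1 (by linarith [Real.pi_pos])
  have hsq : ‖Complex.exp (Complex.I * (θ : ℂ)) - 1‖ ^ 2 = 2 - 2 * Real.cos θ := by
    rw [mul_comm, Complex.sq_norm, Complex.normSq_apply]
    simp only [Complex.sub_re, Complex.sub_im, Complex.exp_ofReal_mul_I_re,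
      Complex.exp_ofReal_mul_I_im, Complex.one_re, Complex.one_im]
    have := Real.sin_sq_add_cos_sq θ
    nlinarith
  by_contra hcon
  rw [not_le] at hcon
  have h3 : ‖Complex.exp (Complex.I * (θ : ℂ)) - 1‖ ^ 2 < 1 := by
    have := norm_nonneg (Complex.exp (Complex.I * (θ : ℂ)) - 1)
    nlinarith
  linarith

theorem H_co_size (k : ℤ) (s : ℕ) (hs : 1 ≤ s) (hk : Nat.size k.natAbs = s) :
    π / 2 ≤ |(k : ℝ) * (π / 2 ^ s)| ∧ |(k : ℝ) * (π / 2 ^ s)| ≤ π := by
  have h1 : 2 ^ (s - 1) ≤ k.natAbs := by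
    rw [← Nat.lt_size]
    omega
  have h2 : k.natAbs < 2 ^ s := by
    rw [← Nat.size_le]
    omega
  have h3 : |(k : ℝ)| = (k.natAbs : ℝ) := by
    rw [Nat.cast_natAbs]
    simp
  have hp : (0:ℝ) < 2 ^ s := by positivity
  have e : |(k : ℝ) * (π / 2 ^ s)| = (k.natAbs : ℝ) * (π / 2 ^ s) := by
    rw [abs_mul, h3, abs_of_pos (by positivity)]
  rw [e]
  have h1R : (2:ℝ) ^ (s - 1) ≤ (k.natAbs : ℝ) := by exact_mod_cast h1
  have h2R : (k.natAbs : ℝ) ≤ 2 ^ s := by exact_mod_cast h2.le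
  have h4 : (2:ℝ) ^ s = 2 * 2 ^ (s - 1) := by
    rw [← pow_succ']
    congr 1
    omega
  constructor
  · calc π / 2 = (2:ℝ) ^ (s - 1) * (π / 2 ^ s) := by
          rw [h4]
          field_simp
      _ ≤ _ := mul_le_mul_of_nonneg_right h1R (by positivity)
  · calc _ ≤ (2:ℝ) ^ s * (π / 2 ^ s) := mul_le_mul_of_nonneg_right h2R (by positivity)
      _ = π := by field_simp

theorem H_co_prod (d n : ℕ) (r : ℝ) (hr : 0 < r) (s : Fin d → ℕ) (hs : ∑ j, s j = n)
    (e : Finset (Fin d)) (he : ∀ j, j ∉ e → s j = 0) :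
    ∏ j ∈ e, |π / 2 ^ (s j)| ^ r ≤ π ^ (r * d) * (2:ℝ) ^ (-(r * n)) := by
  have h1 : ∀ j ∈ e, |π / 2 ^ (s j)| ^ r = π ^ r * (2:ℝ) ^ (-(r * s j)) := by
    intro j _
    rw [abs_of_pos (by positivity), Real.div_rpow Real.pi_pos.le (by positivity),
      ← Real.rpow_natCast, ← Real.rpow_mul (by norm_num), Real.rpow_neg (by norm_num),
      mul_comm r (s j : ℝ), div_eq_mul_inv]
  rw [Finset.prod_congr rfl h1, Finset.prod_mul_distrib, Finset.prod_const,
    ← Real.rpow_sum_of_pos (by norm_num)]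
  have h2 : ∑ j ∈ e, -(r * (s j : ℝ)) = -(r * n) := by
    rw [Finset.sum_neg_distrib, ← Finset.mul_sum]
    congr 2
    rw [← hs, Nat.cast_sum]
    exact Finset.sum_subset (Finset.subset_univ e) (fun j _ hj => by rw [he j hj]; simp)
  rw [h2]
  apply mul_le_mul_of_nonneg_right _ (by positivity)
  have h3 : (1:ℝ) ≤ π ^ r := Real.one_le_rpow (by linarith [Real.pi_gt_three]) hr.le
  calc (π ^ r) ^ e.card ≤ (π ^ r) ^ d :=
        pow_le_pow_right₀ h3 ((Finset.card_le_univ e).trans (by rw [Fintype.card_fin]))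
    _ = π ^ (r * d) := by rw [← Real.rpow_natCast, ← Real.rpow_mul Real.pi_pos.le]

theorem H_co_block (d : ℕ) (r q : ℝ) (hr : 0 < r) (hq : 2 ≤ q) (f : (Fin d → ℝ) → ℂ)
    (hf : f ∈ HH d r (ENNReal.ofReal q)) (n : ℕ) (s : Fin d → ℕ) (hs : ∑ j, s j = n)
    (S : Finset (Fin d → ℤ)) (hS : ∀ k ∈ S, ∀ j, Nat.size (k j).natAbs = s j) :
    ∑ k ∈ S, ‖fc f k‖ ^ 2 ≤ (π ^ (r * d) * (2:ℝ) ^ (-(r * n))) ^ 2 := by
  obtain ⟨hper, hmeas, hnorm, hdiff⟩ := hf
  have hprob := TP_prob d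
  have hq2 : (2:ℝ≥0∞) ≤ ENNReal.ofReal q := by
    have : (2:ℝ≥0∞) = ENNReal.ofReal 2 := by simp
    rw [this]
    exact ENNReal.ofReal_le_ofReal hq
  have hmT : AEStronglyMeasurable f (TP d) := hmeas.mono_ac (H_co_ac d)
  have hfq : MemLp f (ENNReal.ofReal q) (TP d) := ⟨hmT, lt_of_le_of_lt hnorm ENNReal.one_lt_top⟩
  have hf2 : MemLp f 2 (TP d) := hfq.mono_exponent hq2
  have hfi : Integrable f (TP d) := hf2.integrable (by norm_num)
  classical
  set A := π ^ (r * d) * (2:ℝ) ^ (-(r * n)) with hA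
  have hA0 : 0 ≤ A := by positivity
  by_cases he : (Finset.univ.filter fun j : Fin d => 1 ≤ s j).Nonempty
  · set e := Finset.univ.filter fun j : Fin d => 1 ≤ s j with hedef
    have h1 := hdiff e he (fun j => π / 2 ^ (s j))
    have h2 : MemLp (mdiff (⌊r⌋₊ + 1) e (fun j => π / 2 ^ (s j)) f) (ENNReal.ofReal q) (TP d) :=
      memLp_mdiff d f hper hmeas _ hfq _ _ _
    have h3 : eLpNorm (mdiff (⌊r⌋₊ + 1) e (fun j => π / 2 ^ (s j)) f) 2 (TP d) ≤
        ENNReal.ofReal A := by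
      refine (eLpNorm_le_eLpNorm_of_exponent_le hq2 h2.1).trans (h1.trans ?_)
      apply ENNReal.ofReal_le_ofReal
      apply H_co_prod d n r hr s hs e
      intro j hj
      rw [hedef, Finset.mem_filter, not_and] at hj
      have := hj (Finset.mem_univ j)
      omega
    have h4 := bessel d _ A hA0 (h2.mono_exponent hq2) h3 S
    refine le_trans (Finset.sum_le_sum fun k hk => ?_) h4
    rw [fc_mdiff d f hper hmeas hfi]
    apply pow_le_pow_left₀ (norm_nonneg _)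
    rw [norm_mul, norm_prod]
    apply le_mul_of_one_le_left (norm_nonneg _)
    have h5 : ∏ j ∈ e, (1:ℝ) ≤ ∏ j ∈ e,
        ‖(Complex.exp (Complex.I * (((k j : ℝ) * (π / 2 ^ (s j)) : ℝ) : ℂ)) - 1) ^ (⌊r⌋₊ + 1)‖ := by
      apply Finset.prod_le_prod (fun _ _ => zero_le_one)
      intro j hj
      rw [norm_pow]
      apply one_le_pow₀
      have hj1 : 1 ≤ s j := (Finset.mem_filter.1 hj).2
      obtain ⟨g1, g2⟩ := H_co_size (k j) (s j) hj1 (hS k hk j)
      exact H_co_norm _ g1 g2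
    rwa [Finset.prod_const_one] at h5
  · rw [Finset.not_nonempty_iff_eq_empty] at he
    have h0 : ∀ j, s j = 0 := by
      intro j
      by_contra h
      have : j ∈ (Finset.univ.filter fun j : Fin d => 1 ≤ s j) :=
        Finset.mem_filter.2 ⟨Finset.mem_univ _, by omega⟩
      rw [he] at this
      exact absurd this (Finset.notMem_empty _)
    have hn0 : n = 0 := by
      rw [← hs]
      exact Finset.sum_eq_zero fun j _ => h0 j
    have h1A : (1:ℝ) ≤ A := by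
      rw [hA, hn0]
      simp only [Nat.cast_zero, mul_zero, neg_zero, Real.rpow_zero, mul_one]
      exact Real.one_le_rpow (by linarith [Real.pi_gt_three]) (by positivity)
    have h1 := bessel d f 1 zero_le_one hf2
      ((eLpNorm_le_eLpNorm_of_exponent_le hq2 hmT).trans (by simpa using hnorm)) S
    refine h1.trans ?_
    exact pow_le_pow_left₀ zero_le_one h1A 2

theorem H_co_shp (d : ℕ) (hd : 1 ≤ d) : ∃ C : ℝ, 0 < C ∧ ∀ n : ℕ,
    (shp d n : ℝ) ≤ C * ((max n 1 : ℕ) : ℝ)^(d-1) := by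
  obtain ⟨C, hC, h⟩ := shp_upper d hd
  refine ⟨max C 1, lt_max_of_lt_left hC, fun n => ?_⟩
  rcases Nat.eq_zero_or_pos n with hn | hn
  · subst hn
    have h1 : shp d 0 ≤ 1 := by
      unfold shp
      refine (Finset.card_le_univ _).trans ?_
      simp
    have h2 : (shp d 0 : ℝ) ≤ 1 := by exact_mod_cast h1
    simp only [Nat.max_eq_right (Nat.zero_le 1), Nat.cast_one, one_pow, mul_one]
    exact h2.trans (le_max_right _ _)
  · rw [Nat.max_eq_left hn]
    exact (h n hn).trans (mul_le_mul_of_nonneg_right (le_max_left _ _) (by positivity))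

theorem H_co_sum (d : ℕ) (f : (Fin d → ℝ) → ℂ) (n : ℕ) :
    ∑ i, (co f n i) ^ 2 = ∑ k ∈ layer d n, ‖fc f k‖ ^ 2 := by
  rw [Fintype.sum_prod_type, ← Finset.sum_coe_sort (layer d n) (fun k => ‖fc f k‖ ^ 2)]
  refine Finset.sum_congr rfl fun k _ => ?_
  rw [Fin.sum_univ_two, Complex.sq_norm, Complex.normSq_apply]
  show (if (0 : Fin 2) = 0 then (fc f k.1).re else (fc f k.1).im) ^ 2 +
    (if (1 : Fin 2) = 0 then (fc f k.1).re else (fc f k.1).im) ^ 2 = _
  simp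
  ring

theorem H_co_layer (d : ℕ) (r q : ℝ) (hr : 0 < r) (hq : 2 ≤ q) (f : (Fin d → ℝ) → ℂ)
    (hf : f ∈ HH d r (ENNReal.ofReal q)) (n : ℕ) :
    ∑ k ∈ layer d n, ‖fc f k‖ ^ 2 ≤ shp d n * (π ^ (r * d) * (2:ℝ) ^ (-(r * n))) ^ 2 := by
  classical
  let g : (Fin d → ℤ) → (Fin d → Fin (n+1)) := fun k j => Fin.ofNat (n+1) (Nat.size (k j).natAbs)
  have hval : ∀ k ∈ layer d n, ∀ j, ((g k j : Fin (n+1)) : ℕ) = Nat.size (k j).natAbs := by
    intro k hk j
    rw [mem_layer_iff] at hk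
    have h1 : Nat.size (k j).natAbs ≤ n := by
      rw [← hk]
      exact Finset.single_le_sum (f := fun j => Nat.size (k j).natAbs) (fun _ _ => Nat.zero_le _)
        (Finset.mem_univ j)
    show Nat.size (k j).natAbs % (n+1) = _
    exact Nat.mod_eq_of_lt (by omega)
  have hmap : ∀ k ∈ layer d n, g k ∈ Sh d n := by
    intro k hk
    rw [Sh, Finset.mem_filter]
    refine ⟨Finset.mem_univ _, ?_⟩
    rw [Finset.sum_congr rfl fun j _ => hval k hk j]
    exact (mem_layer_iff d n k).1 hk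
  rw [← Finset.sum_fiberwise_of_maps_to hmap]
  have h1 : ∀ s ∈ Sh d n, ∑ k ∈ (layer d n).filter (fun k => g k = s), ‖fc f k‖ ^ 2 ≤
      (π ^ (r * d) * (2:ℝ) ^ (-(r * n))) ^ 2 := by
    intro s hs
    rw [Sh, Finset.mem_filter] at hs
    refine H_co_block d r q hr hq f hf n (fun j => (s j : ℕ)) hs.2 _ ?_
    intro k hk j
    rw [Finset.mem_filter] at hk
    rw [← hval k hk.1 j, hk.2]
  refine (Finset.sum_le_sum h1).trans ?_
  rw [Finset.sum_const, nsmul_eq_mul]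
  rfl

theorem H_co (d : ℕ) (hd : 1 ≤ d) (r q : ℝ) (hr : 0 < r) (hq : 2 ≤ q) : ∃ K : ℝ, 0 < K ∧
    ∀ f ∈ HH d r (ENNReal.ofReal q), MemLp f 2 (TP d) ∧
      ∀ n : ℕ, co f n ∈ EB ((layer d n) × Fin 2)
        (K * (2:ℝ)^(-(r * n)) * ((max n 1 : ℕ) : ℝ)^(((d:ℝ) - 1)/2)) := by
  obtain ⟨C, hC, hshp⟩ := H_co_shp d hd
  refine ⟨Real.sqrt C * π ^ (r * d), by positivity, fun f hf => ⟨?_, fun n => ?_⟩⟩
  · obtain ⟨hper, hmeas, hnorm, hdiff⟩ := hf
    have hprob := TP_prob d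
    have hq2 : (2:ℝ≥0∞) ≤ ENNReal.ofReal q := by
      have : (2:ℝ≥0∞) = ENNReal.ofReal 2 := by simp
      rw [this]
      exact ENNReal.ofReal_le_ofReal hq
    have hmT : AEStronglyMeasurable f (TP d) := hmeas.mono_ac (H_co_ac d)
    have hfq : MemLp f (ENNReal.ofReal q) (TP d) :=
      ⟨hmT, lt_of_le_of_lt hnorm ENNReal.one_lt_top⟩
    exact hfq.mono_exponent hq2
  · show ∑ i, (co f n i) ^ 2 ≤ _
    rw [H_co_sum]
    refine (H_co_layer d r q hr hq f hf n).trans ?_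
    have h1 := hshp n
    have hm : (0:ℝ) < ((max n 1 : ℕ) : ℝ) := by
      have : 0 < max n 1 := by omega
      exact_mod_cast this
    have h2 : (((max n 1 : ℕ) : ℝ)^(((d:ℝ) - 1)/2)) ^ 2 = ((max n 1 : ℕ) : ℝ)^(d-1) := by
      rw [← Real.rpow_natCast, ← Real.rpow_mul hm.le]
      have h3 : ((d:ℝ) - 1)/2 * ((2:ℕ) : ℝ) = ((d - 1 : ℕ) : ℝ) := by
        rw [Nat.cast_sub hd]
        push_cast
        ring
      rw [h3, Real.rpow_natCast]
    have h4 : (Real.sqrt C * π ^ (r * d) * (2:ℝ)^(-(r * n)) *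
        ((max n 1 : ℕ) : ℝ)^(((d:ℝ) - 1)/2)) ^ 2 =
        (C * ((max n 1 : ℕ) : ℝ)^(d-1)) * (π ^ (r * d) * (2:ℝ) ^ (-(r * n))) ^ 2 := by
      rw [mul_pow, mul_pow, mul_pow, h2, Real.sq_sqrt hC.le, mul_pow]
      ring
    rw [h4]
    exact mul_le_mul_of_nonneg_right h1 (by positivity)

end S_H_co

alias H_co := S_H_co.H_co

end HypVolE
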