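import Pool.Agent.H636R2.HE.Defs
open MeasureTheory Real ProbabilityTheory
open scoped ENNReal BigOperators


open HypVol
namespace HypVolE

namespace S_PB_facts




theorem poly_sub' {d n : ℕ} (a b : (layer d n) × Fin 2 → ℝ) (x : Fin d → ℝ) :
    poly (a - b) x = poly a x - poly b x := by
  unfold poly
  rw [← Finset.sum_sub_distrib]
  refine Finset.sum_congr rfl (fun k _ => ?_)
  simp only [Pi.sub_apply]
  push_cast
  ring

theorem poly_neg' {d n : ℕ} (a : (layer d n) × Fin 2 → ℝ) (x : Fin d → ℝ) :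
    poly (-a) x = - poly a x := by
  unfold poly
  rw [← Finset.sum_neg_distrib]
  refine Finset.sum_congr rfl (fun k _ => ?_)
  simp only [Pi.neg_apply]
  push_cast
  ring

theorem poly_smul' {d n : ℕ} (θ : ℝ) (a : (layer d n) × Fin 2 → ℝ) (x : Fin d → ℝ) :
    poly (fun i => θ * a i) x = θ • poly a x := by
  unfold poly
  rw [Finset.smul_sum]
  refine Finset.sum_congr rfl (fun k _ => ?_)
  rw [Complex.real_smul]
  push_cast
  ring

theorem poly_cont' {d n : ℕ} (a : (layer d n) × Fin 2 → ℝ) : Continuous (fun x => poly a x) := by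
  unfold poly
  fun_prop

theorem poly_bound' {d n : ℕ} (a : (layer d n) × Fin 2 → ℝ) (x : Fin d → ℝ) :
    ‖poly a x‖ ≤ ∑ k : layer d n, (|a (k, 0)| + |a (k, 1)|) := by
  unfold poly
  refine (norm_sum_le _ _).trans (Finset.sum_le_sum (fun k _ => ?_))
  rw [norm_mul]
  have h1 : ‖Complex.exp (Complex.I * ((∑ j, (k.1 j : ℝ) * x j : ℝ) : ℂ))‖ = 1 := by
    rw [mul_comm]; exact Complex.norm_exp_ofReal_mul_I _
  rw [h1, mul_one]
  refine (norm_add_le _ _).trans ?_
  rw [norm_mul, Complex.norm_I, mul_one, Complex.norm_real, Complex.norm_real, Real.norm_eq_abs, Real.norm_eq_abs]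

instance TP_prob' (d : ℕ) : IsProbabilityMeasure (TP d) := by
  have h1 : IsProbabilityMeasure (ENNReal.ofReal (2 * π)⁻¹ • (volume : Measure ℝ).restrict (Set.Ico 0 (2 * π))) := by
    constructor
    rw [Measure.smul_apply, Measure.restrict_apply_univ, Real.volume_Ico, smul_eq_mul,
      ← ENNReal.ofReal_mul (by positivity), sub_zero, inv_mul_cancel₀ (by positivity), ENNReal.ofReal_one]
  unfold TP
  infer_instance

theorem poly_eLp' {d n : ℕ} (p : ℝ≥0∞) (a : (layer d n) × Fin 2 → ℝ) :
    eLpNorm (poly a) p (TP d) ≤ ENNReal.ofReal (∑ k : layer d n, (|a (k, 0)| + |a (k, 1)|)) := by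
  have h := eLpNorm_le_of_ae_bound (μ := TP d) (p := p) (f := poly a)
    (C := ∑ k : layer d n, (|a (k, 0)| + |a (k, 1)|)) (Filter.Eventually.of_forall (poly_bound' a))
  rw [measure_univ, ENNReal.one_rpow, one_mul] at h
  exact h

theorem PB_facts (d n : ℕ) (p : ℝ≥0∞) (hp : 1 ≤ p) (t : ℝ) :
    MeasurableSet (PB d n p t) ∧ (∀ y ∈ PB d n p t, -y ∈ PB d n p t) ∧
    (∀ x ∈ PB d n p t, ∀ y ∈ PB d n p t, x - y ∈ PB d n p (2 * t)) ∧
    (∀ θ : ℝ, 0 ≤ θ → ∀ y ∈ PB d n p t, (fun i => θ * y i) ∈ PB d n p (θ * t)) := by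
  have hm : ∀ a : (layer d n) × Fin 2 → ℝ, AEStronglyMeasurable (poly a) (TP d) := fun a =>
    (poly_cont' a).aestronglyMeasurable
  refine ⟨?_, ?_, ?_, ?_⟩
  · apply IsClosed.measurableSet
    rw [← isSeqClosed_iff_isClosed]
    intro u a hu ha
    show eLpNorm (poly a) p (TP d) ≤ ENNReal.ofReal t
    have hle : ∀ m, eLpNorm (poly a) p (TP d) ≤ ENNReal.ofReal t +
        ENNReal.ofReal (∑ k : layer d n, (|(a - u m) (k, 0)| + |(a - u m) (k, 1)|)) := by
      intro m
      have h1 : poly a = poly (u m) + poly (a - u m) := by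
        funext x
        rw [Pi.add_apply, poly_sub']
        ring
      rw [h1]
      refine (eLpNorm_add_le (hm _) (hm _) hp).trans ?_
      exact add_le_add (hu m) (poly_eLp' p _)
    have hlim : Filter.Tendsto (fun m => ENNReal.ofReal t +
        ENNReal.ofReal (∑ k : layer d n, (|(a - u m) (k, 0)| + |(a - u m) (k, 1)|)))
        Filter.atTop (nhds (ENNReal.ofReal t + ENNReal.ofReal 0)) := by
      refine Filter.Tendsto.add tendsto_const_nhds ?_
      refine (ENNReal.continuous_ofReal.tendsto _).comp ?_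
      have hc : Continuous (fun v : (layer d n) × Fin 2 → ℝ =>
          ∑ k : layer d n, (|(a - v) (k, 0)| + |(a - v) (k, 1)|)) := by
        simp only [Pi.sub_apply]
        fun_prop
      have h2 := (hc.tendsto a).comp ha
      simpa [Function.comp_def] using h2
    have h3 := ge_of_tendsto' hlim hle
    simpa using h3
  · intro y hy
    show eLpNorm (poly (-y)) p (TP d) ≤ ENNReal.ofReal t
    have h1 : poly (-y) = - poly y := by
      funext x
      rw [Pi.neg_apply, poly_neg']
    rw [h1, eLpNorm_neg]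
    exact hy
  · intro x hx y hy
    show eLpNorm (poly (x - y)) p (TP d) ≤ ENNReal.ofReal (2 * t)
    have h1 : poly (x - y) = poly x - poly y := by
      funext z
      rw [Pi.sub_apply, poly_sub']
    rw [h1]
    refine (eLpNorm_sub_le (hm _) (hm _) hp).trans ?_
    refine (add_le_add hx hy).trans ?_
    rw [ENNReal.ofReal_mul (by norm_num)]
    rw [ENNReal.ofReal_ofNat, two_mul]
  · intro θ hθ y hy
    show eLpNorm (poly (fun i => θ * y i)) p (TP d) ≤ ENNReal.ofReal (θ * t)
    have h1 : poly (fun i => θ * y i) = θ • poly y := by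
      funext z
      rw [Pi.smul_apply, poly_smul']
    rw [h1, eLpNorm_const_smul, ENNReal.ofReal_mul hθ]
    refine mul_le_mul' ?_ hy
    rw [Real.enorm_eq_ofReal hθ]

end S_PB_facts

alias PB_facts := S_PB_facts.PB_facts

end HypVolE
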