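import Pool.Agent.H636R2.HE.Defs
open MeasureTheory Real ProbabilityTheory
open scoped ENNReal BigOperators


open HypVol
namespace HypVolE

namespace S_indep_blocks




theorem indep_two {ι : Type} [Fintype ι] (ν : Measure ℝ) [IsProbabilityMeasure ν]
    (U V : Finset ι) (hUV : Disjoint U V) (A B : Set (ι → ℝ)) (hA : MeasurableSet A)
    (hB : MeasurableSet B)
    (hAd : ∀ a a' : ι → ℝ, (∀ i ∈ U, a i = a' i) → (a ∈ A ↔ a' ∈ A))
    (hBd : ∀ a a' : ι → ℝ, (∀ i ∈ V, a i = a' i) → (a ∈ B ↔ a' ∈ B)) :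
    Measure.pi (fun _ : ι => ν) (A ∩ B) =
      Measure.pi (fun _ : ι => ν) A * Measure.pi (fun _ : ι => ν) B := by
  classical
  have hi : iIndepFun (fun (i : ι) (ω : ι → ℝ) => ω i) (Measure.pi (fun _ : ι => ν)) :=
    iIndepFun_pi (X := fun (_ : ι) (x : ℝ) => x) (fun i => aemeasurable_id)
  have h2 := hi.indepFun_finset U V hUV (fun i => measurable_pi_apply i)
  have key : ∀ (W : Finset ι) (D : Set (ι → ℝ)), MeasurableSet D →
      (∀ a a' : ι → ℝ, (∀ i ∈ W, a i = a' i) → (a ∈ D ↔ a' ∈ D)) →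
      ∃ D' : Set (W → ℝ), MeasurableSet D' ∧ D = (fun (a : ι → ℝ) (i : W) => a i) ⁻¹' D' := by
    intro W D hD hDd
    have hmeas : Measurable (fun (b : W → ℝ) (i : ι) => if h : i ∈ W then b ⟨i, h⟩ else 0) := by
      rw [measurable_pi_iff]
      intro i
      by_cases h : i ∈ W
      · simp only [dif_pos h]
        exact measurable_pi_apply _
      · simp only [dif_neg h]
        exact measurable_const
    refine ⟨(fun (b : W → ℝ) (i : ι) => if h : i ∈ W then b ⟨i, h⟩ else 0) ⁻¹' D, hmeas hD, ?_⟩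
    ext a
    rw [Set.mem_preimage, Set.mem_preimage]
    apply hDd
    intro i hiW
    simp only [dif_pos hiW]
  obtain ⟨A', hA', eA⟩ := key U A hA hAd
  obtain ⟨B', hB', eB⟩ := key V B hB hBd
  have h3 := h2.measure_inter_preimage_eq_mul A' B' hA' hB'
  rw [eA, eB]
  exact h3

theorem indep_blocks {ι σ : Type} [Fintype ι] [DecidableEq σ] (ν : Measure ℝ) [IsProbabilityMeasure ν]
    (π' : ι → σ) (S : Finset σ) (G : σ → Set (ι → ℝ)) (hG : ∀ s, MeasurableSet (G s))
    (hdep : ∀ s, ∀ a a' : ι → ℝ, (∀ i, π' i = s → a i = a' i) → (a ∈ G s ↔ a' ∈ G s)) :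
    Measure.pi (fun _ : ι => ν) (⋂ s ∈ S, G s) = ∏ s ∈ S, Measure.pi (fun _ : ι => ν) (G s) := by
  classical
  induction S using Finset.induction_on with
  | empty => simp
  | insert s0 S' hs ih =>
    rw [Finset.prod_insert hs, ← ih]
    have h1 : (⋂ s ∈ insert s0 S', G s) = G s0 ∩ ⋂ s ∈ S', G s := by
      rw [Finset.set_biInter_insert]
    rw [h1]
    apply indep_two ν (Finset.univ.filter (fun i => π' i = s0))
      (Finset.univ.filter (fun i => π' i ∈ S'))
    · rw [Finset.disjoint_left]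
      intro i hi hi'
      rw [Finset.mem_filter] at hi hi'
      exact hs (hi.2 ▸ hi'.2)
    · exact hG s0
    · exact Finset.measurableSet_biInter S' (fun s _ => hG s)
    · intro a a' h
      exact hdep s0 a a' (fun i hi => h i (Finset.mem_filter.2 ⟨Finset.mem_univ _, hi⟩))
    · intro a a' h
      simp only [Set.mem_iInter]
      refine forall_congr' (fun s => forall_congr' (fun hsS => ?_))
      exact hdep s a a' (fun i hi => h i (Finset.mem_filter.2 ⟨Finset.mem_univ _, hi ▸ hsS⟩))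

end S_indep_blocks

alias indep_blocks := S_indep_blocks.indep_blocks

end HypVolE
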