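import Pool.Agent.H636R2.HE.Defs
import Pool.Agent.HypVol.L_card_layer
import Pool.Agent.H636R2.HE.P_mem_layer_iff
import Pool.Agent.H636R2.HE.P_bpoly_bad
import Pool.Agent.H636R2.HE.P_indep_blocks
import Pool.Agent.HypVol.L_card_layer
open MeasureTheory Real ProbabilityTheory
open scoped ENNReal BigOperators


open HypVol
namespace HypVolE

namespace S_block_vol










instance bv_inst_fin (d : ℕ) : IsFiniteMeasure (TP d) := by
  unfold TP
  haveI : ∀ i : Fin d, IsFiniteMeasure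
      ((fun _ : Fin d => ENNReal.ofReal (2 * π)⁻¹ • (volume : Measure ℝ).restrict (Set.Ico 0 (2 * π))) i) := by
    intro i
    refine ⟨?_⟩
    simp only [Measure.smul_apply, Measure.restrict_apply MeasurableSet.univ, Set.univ_inter,
      Real.volume_Ico, smul_eq_mul]
    exact ENNReal.mul_lt_top ENNReal.ofReal_lt_top ENNReal.ofReal_lt_top
  infer_instance

theorem bv_cont {d n : ℕ} (l : ℕ) (s : Fin d → ℕ) (e : Finset (Fin d)) :
    Continuous (fun p : ((layer d n) × Fin 2 → ℝ) × (Fin d → ℝ) => bpoly l s e p.1 p.2) := by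
  unfold bpoly
  refine continuous_finset_sum _ fun k _ => ?_
  split_ifs
  · fun_prop
  · fun_prop

theorem bv_meas {d n : ℕ} (q : ℝ) (hq : 1 ≤ q) (l : ℕ) (s : Fin d → ℕ) (e : Finset (Fin d)) :
    Measurable (fun a : (layer d n) × Fin 2 → ℝ =>
      eLpNorm (bpoly l s e a) (ENNReal.ofReal q) (TP d)) := by
  have hq0 : ENNReal.ofReal q ≠ 0 := by
    rw [Ne, ENNReal.ofReal_eq_zero]; linarith
  have hqt : ENNReal.ofReal q ≠ ⊤ := ENNReal.ofReal_ne_top
  have h1 : ∀ a : (layer d n) × Fin 2 → ℝ, eLpNorm (bpoly l s e a) (ENNReal.ofReal q) (TP d)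
      = (∫⁻ x, ‖bpoly l s e a x‖ₑ ^ (ENNReal.ofReal q).toReal ∂(TP d)) ^ (1 / (ENNReal.ofReal q).toReal) :=
    fun a => eLpNorm_eq_lintegral_rpow_enorm_toReal hq0 hqt
  simp_rw [h1]
  refine Measurable.pow_const ?_ _
  refine Measurable.lintegral_prod_right' (f := fun p : ((layer d n) × Fin 2 → ℝ) × (Fin d → ℝ) =>
    ‖bpoly l s e p.1 p.2‖ₑ ^ (ENNReal.ofReal q).toReal) ?_
  exact ((bv_cont l s e).measurable.enorm).pow_const _

theorem block_vol (d : ℕ) (hd : 1 ≤ d) (q : ℝ) (hq : 1 ≤ q) (l : ℕ) : ∃ C : ℝ, 0 < C ∧ ∀ n : ℕ,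
    1 ≤ volume {a : (layer d n) × Fin 2 → ℝ | (∀ i, |a i| ≤ 1) ∧
      ∀ (s : Fin d → ℕ) (e : Finset (Fin d)), ∑ j, s j = n →
      eLpNorm (bpoly l s e a) (ENNReal.ofReal q) (TP d) ≤ ENNReal.ofReal (C * Real.sqrt (2^n))} := by
  classical
  obtain ⟨C, hC, hbad⟩ := bpoly_bad d q hq l ((1/2)^(d+1)) (by positivity)
  refine ⟨C, hC, fun n => ?_⟩
  set ν : Measure ℝ := (2:ℝ≥0∞)⁻¹ • (volume : Measure ℝ).restrict (Set.Icc (-1) 1) with hν
  haveI hνp : IsProbabilityMeasure ν := by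
    refine ⟨?_⟩
    rw [hν, Measure.smul_apply, Measure.restrict_apply MeasurableSet.univ, Set.univ_inter,
      Real.volume_Icc, smul_eq_mul]
    norm_num
    exact ENNReal.inv_mul_cancel (by norm_num) (by norm_num)
  set m : ℕ := Fintype.card ((layer d n) × Fin 2) with hm
  have hm2 : m = 2 * (layer d n).card := by
    rw [hm, Fintype.card_prod, Fintype.card_coe, Fintype.card_fin, mul_comm]
  set cube : Set ((layer d n) × Fin 2 → ℝ) := Set.univ.pi fun _ => Set.Icc (-1) 1 with hcube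
  have hmemc : ∀ a : (layer d n) × Fin 2 → ℝ, a ∈ cube ↔ ∀ i, |a i| ≤ 1 := by
    intro a
    rw [hcube]
    simp only [Set.mem_univ_pi, Set.mem_Icc, abs_le]
  have hpi : Measure.pi (fun _ : (layer d n) × Fin 2 => ν) =
      ((2:ℝ≥0∞) ^ m)⁻¹ • (volume : Measure ((layer d n) × Fin 2 → ℝ)).restrict cube := by
    refine Measure.pi_eq fun s hs => ?_
    rw [Measure.smul_apply, hcube, volume_pi, Measure.restrict_pi_pi, Measure.pi_pi]
    simp only [hν, Measure.smul_apply, smul_eq_mul]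
    rw [Finset.prod_mul_distrib, Finset.prod_const, Finset.card_univ, ← hm, ENNReal.inv_pow]
  have h2m0 : (2:ℝ≥0∞) ^ m ≠ 0 := by positivity
  have h2mt : (2:ℝ≥0∞) ^ m ≠ ⊤ := ENNReal.pow_ne_top (by norm_num)
  have hvol : ∀ P : Set ((layer d n) × Fin 2 → ℝ), MeasurableSet P →
      volume (P ∩ cube) = (2:ℝ≥0∞) ^ m * Measure.pi (fun _ : (layer d n) × Fin 2 => ν) P := by
    intro P hP
    rw [hpi, Measure.smul_apply, Measure.restrict_apply hP, smul_eq_mul, ← mul_assoc,
      ENNReal.mul_inv_cancel h2m0 h2mt, one_mul]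
  set G : (Fin d → ℕ) → Set ((layer d n) × Fin 2 → ℝ) := fun s => {a | ∀ e : Finset (Fin d),
      eLpNorm (bpoly l s e a) (ENNReal.ofReal q) (TP d) ≤ ENNReal.ofReal (C * Real.sqrt (2^n))} with hG
  have hGm : ∀ s, MeasurableSet (G s) := by
    intro s
    have : G s = ⋂ e : Finset (Fin d), {a | eLpNorm (bpoly l s e a) (ENNReal.ofReal q) (TP d) ≤
        ENNReal.ofReal (C * Real.sqrt (2^n))} := by
      ext a; simp [hG]
    rw [this]
    exact MeasurableSet.iInter fun e => (bv_meas q hq l s e) measurableSet_Iic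
  have hdep : ∀ s, ∀ a a' : (layer d n) × Fin 2 → ℝ,
      (∀ i, (fun j => Nat.size (i.1.1 j).natAbs) = s → a i = a' i) → (a ∈ G s ↔ a' ∈ G s) := by
    intro s a a' haa
    have : ∀ e, bpoly l s e a = bpoly l s e a' := by
      intro e
      funext x
      unfold bpoly
      refine Finset.sum_congr rfl fun k _ => ?_
      by_cases hk : ∀ j, Nat.size (k.1 j).natAbs = s j
      · rw [if_pos hk, if_pos hk, haa (k, 0) (funext hk), haa (k, 1) (funext hk)]
      · rw [if_neg hk, if_neg hk]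
    simp only [hG, Set.mem_ofPred_eq, this]
  have hhalf : ∀ s, (1/2 : ℝ≥0∞) ≤ Measure.pi (fun _ : (layer d n) × Fin 2 => ν) (G s) := by
    intro s
    set B : Finset (Fin d) → Set ((layer d n) × Fin 2 → ℝ) := fun e =>
      {a | ¬ (eLpNorm (bpoly l s e a) (ENNReal.ofReal q) (TP d) ≤
        ENNReal.ofReal (C * Real.sqrt (2^n)))} with hB
    have hBm : ∀ e, MeasurableSet (B e) := fun e =>
      ((bv_meas q hq l s e) measurableSet_Iic).compl
    have hBe : ∀ e, Measure.pi (fun _ : (layer d n) × Fin 2 => ν) (B e) ≤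
        ENNReal.ofReal ((1/2)^(d+1)) := by
      intro e
      have h1 := hbad n s e
      have h2 : {a : (layer d n) × Fin 2 → ℝ | (∀ i, |a i| ≤ 1) ∧
          ¬ (eLpNorm (bpoly l s e a) (ENNReal.ofReal q) (TP d) ≤ ENNReal.ofReal (C * Real.sqrt (2^n)))}
          = B e ∩ cube := by
        ext a
        simp only [Set.mem_ofPred_eq, Set.mem_inter_iff, hmemc, hB]
        tauto
      rw [h2, hvol _ (hBm e), ENNReal.ofReal_mul (by positivity), mul_comm (ENNReal.ofReal _)] at h1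
      have h3 : ENNReal.ofReal ((2:ℝ)^(2 * (layer d n).card)) = (2:ℝ≥0∞) ^ m := by
        rw [hm2, ENNReal.ofReal_pow (by norm_num)]; norm_num
      rw [h3] at h1
      exact (ENNReal.mul_le_mul_iff_right h2m0 h2mt).mp h1
    have hcompl : (G s)ᶜ ⊆ ⋃ e, B e := by
      intro a ha
      simp only [hG, Set.mem_compl_iff, Set.mem_ofPred_eq, not_forall] at ha
      obtain ⟨e, he⟩ := ha
      exact Set.mem_iUnion.mpr ⟨e, he⟩
    have hsum : Measure.pi (fun _ : (layer d n) × Fin 2 => ν) (G s)ᶜ ≤ 1/2 := by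
      refine (measure_mono hcompl).trans ((measure_iUnion_fintype_le _ _).trans ?_)
      refine (Finset.sum_le_sum fun e _ => hBe e).trans ?_
      rw [Finset.sum_const, Finset.card_univ, Fintype.card_finset, Fintype.card_fin, nsmul_eq_mul]
      have h4 : ENNReal.ofReal (((2:ℝ)^d) * (1/2)^(d+1)) = 1/2 := by
        have : ((2:ℝ)^d) * (1/2)^(d+1) = 1/2 := by
          rw [pow_succ, ← mul_assoc, ← mul_pow]; norm_num
        rw [this]
        rw [ENNReal.ofReal_div_of_pos (by norm_num)]; norm_num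
      rw [← h4, ENNReal.ofReal_mul (by positivity), ENNReal.ofReal_pow (by norm_num)]
      norm_num
    have huniv : (1:ℝ≥0∞) ≤ Measure.pi (fun _ : (layer d n) × Fin 2 => ν) (G s) + 1/2 := by
      calc (1:ℝ≥0∞) = Measure.pi (fun _ : (layer d n) × Fin 2 => ν) Set.univ := measure_univ.symm
        _ = Measure.pi (fun _ : (layer d n) × Fin 2 => ν) (G s ∪ (G s)ᶜ) := by
            rw [Set.union_compl_self]
        _ ≤ _ := (measure_union_le _ _).trans (by gcongr)
    have h9 : (1/2:ℝ≥0∞) + 1/2 ≤ Measure.pi (fun _ : (layer d n) × Fin 2 => ν) (G s) + 1/2 := by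
      rw [ENNReal.add_halves]; exact huniv
    have h10 : (1/2:ℝ≥0∞) ≠ ⊤ := by simp
    exact (ENNReal.add_le_add_iff_right h10).mp h9
  set S : Finset (Fin d → ℕ) := (Sh d n).image (fun s j => ((s j : Fin (n+1)) : ℕ)) with hS
  have hSc : S.card ≤ shp d n := Finset.card_image_le
  have hSm : ∀ s : Fin d → ℕ, ∑ j, s j = n → s ∈ S := by
    intro s hs
    have hlt : ∀ j, s j < n + 1 := by
      intro j
      have := Finset.single_le_sum (f := s) (fun i _ => Nat.zero_le _) (Finset.mem_univ j)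
      omega
    rw [hS, Finset.mem_image]
    refine ⟨fun j => ⟨s j, hlt j⟩, ?_, rfl⟩
    simp [Sh, hs]
  have hind := indep_blocks ν (fun i : (layer d n) × Fin 2 => fun j => Nat.size (i.1.1 j).natAbs)
    S G hGm hdep
  have hprod : (1/2 : ℝ≥0∞) ^ S.card ≤
      Measure.pi (fun _ : (layer d n) × Fin 2 => ν) (⋂ s ∈ S, G s) := by
    rw [hind, ← Finset.prod_const]
    exact Finset.prod_le_prod' fun s _ => hhalf s
  have hSm2 : S.card ≤ m := by
    rw [hm2, card_layer]
    calc S.card ≤ shp d n := hSc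
      _ = 1 * shp d n := (one_mul _).symm
      _ ≤ (2 * 2 ^ n) * shp d n := Nat.mul_le_mul_right _ (by have := Nat.one_le_two_pow (n := n); omega)
      _ = 2 * (2 ^ n * shp d n) := by ring
  have hfin : (1:ℝ≥0∞) ≤ volume ((⋂ s ∈ S, G s) ∩ cube) := by
    rw [hvol _ (Finset.measurableSet_biInter S fun s _ => hGm s)]
    calc (1:ℝ≥0∞) = (2:ℝ≥0∞) ^ m * (1/2) ^ m := by
          rw [← mul_pow, one_div, ENNReal.mul_inv_cancel (by norm_num) (by norm_num), one_pow]
      _ ≤ (2:ℝ≥0∞) ^ m * (1/2) ^ S.card := by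
          have h11 : (1/2:ℝ≥0∞) ≤ 1 := by
            simpa using (ENNReal.half_le_self (a := 1))
          exact mul_le_mul' le_rfl (pow_le_pow_right_of_le_one' h11 hSm2)
      _ ≤ _ := by gcongr
  refine hfin.trans (measure_mono ?_)
  rintro a ⟨ha1, ha2⟩
  refine ⟨(hmemc a).mp ha2, fun s e hs => ?_⟩
  have := Set.mem_iInter₂.mp ha1 s (hSm s hs)
  exact this e

end S_block_vol

alias block_vol := S_block_vol.block_vol

end HypVolE
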