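import Pool.Agent.H636R2.HE.Defs
open MeasureTheory Real ProbabilityTheory
open scoped ENNReal BigOperators


open HypVol
namespace HypVolE

namespace S_poly_co




theorem poly_co {d : ℕ} (f : (Fin d → ℝ) → ℂ) (n : ℕ) : poly (co f n) = lay f n := by
  funext x
  unfold poly lay
  rw [← Finset.sum_coe_sort (layer d n) (fun k => fc f k *
    Complex.exp (Complex.I * ((∑ j, (k j : ℝ) * x j : ℝ) : ℂ)))]
  apply Finset.sum_congr rfl
  intro k _
  have h0 : co f n (k, 0) = (fc f k.1).re := by
    unfold co
    rw [if_pos rfl]
  have h1 : co f n (k, 1) = (fc f k.1).im := by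
    unfold co
    exact if_neg (fun h => absurd h (by simp))
  rw [h0, h1, Complex.re_add_im]

end S_poly_co

alias poly_co := S_poly_co.poly_co

end HypVolE
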