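import Pool.Agent.H636R2.HE.Defs
open MeasureTheory Real ProbabilityTheory
open scoped ENNReal BigOperators


open HypVol
namespace HypVolE

namespace S_shift_gauss




theorem gam_wd {ι : Type} [Fintype ι] (s : ℝ) (hs : 0 < s) :
    gam ι s = volume.withDensity
      (fun y : ι → ℝ => ∏ i, gaussianPDF 0 (Real.toNNReal (s^2)) (y i)) := by
  have hv : Real.toNNReal (s^2) ≠ 0 := by
    have : 0 < s^2 := by positivity
    simpa using this.ne'
  set v := Real.toNNReal (s^2) with hvdef
  unfold gam
  refine Measure.pi_eq ?_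
  intro S hS
  rw [withDensity_apply _ (MeasurableSet.univ_pi hS),
    ← lintegral_indicator (MeasurableSet.univ_pi hS)]
  have h1 : ∀ y : ι → ℝ, (Set.univ.pi S).indicator
      (fun y : ι → ℝ => ∏ i, gaussianPDF 0 v (y i)) y =
      ENNReal.ofReal (∏ i, (S i).indicator (gaussianPDFReal 0 v) (y i)) := by
    intro y
    by_cases hy : y ∈ Set.univ.pi S
    · rw [Set.indicator_of_mem hy]
      rw [ENNReal.ofReal_prod_of_nonneg (fun i _ =>
        Set.indicator_nonneg (fun x _ => gaussianPDFReal_nonneg 0 v x) _)]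
      refine Finset.prod_congr rfl fun i _ => ?_
      rw [Set.indicator_of_mem (hy i (Set.mem_univ i)), gaussianPDF_def]
    · rw [Set.indicator_of_notMem hy]
      have : ∃ i, y i ∉ S i := by
        by_contra hcon
        push Not at hcon
        exact hy fun i _ => hcon i
      obtain ⟨i, hi⟩ := this
      rw [Finset.prod_eq_zero (Finset.mem_univ i) (Set.indicator_of_notMem hi _)]
      simp
  have hint : ∀ i, Integrable ((S i).indicator (gaussianPDFReal 0 v)) volume := fun i =>
    (integrable_gaussianPDFReal 0 v).indicator (hS i)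
  have hI : Integrable (fun y : ι → ℝ => ∏ i, (S i).indicator (gaussianPDFReal 0 v) (y i))
      volume := Integrable.fintype_prod (f := fun i => (S i).indicator (gaussianPDFReal 0 v)) hint
  rw [lintegral_congr h1, ← ofReal_integral_eq_lintegral_ofReal hI
    (Filter.Eventually.of_forall fun y => Finset.prod_nonneg fun i _ =>
        Set.indicator_nonneg (fun x _ => gaussianPDFReal_nonneg 0 v x) _)]
  rw [integral_fintype_prod_volume_eq_prod (fun i => (S i).indicator (gaussianPDFReal 0 v))]
  rw [ENNReal.ofReal_prod_of_nonneg (fun i _ => integral_nonneg (fun x =>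
        Set.indicator_nonneg (fun x _ => gaussianPDFReal_nonneg 0 v x) _))]
  refine Finset.prod_congr rfl fun i _ => ?_
  rw [integral_indicator (hS i), gaussianReal_apply_eq_integral _ hv]

theorem shift_gauss {ι : Type} [Fintype ι] (s : ℝ) (hs : 0 < s) (K : Set (ι → ℝ)) (hK : MeasurableSet K)
    (hsym : ∀ y ∈ K, -y ∈ K) (z : ι → ℝ) :
    ENNReal.ofReal (Real.exp (-(∑ i, z i ^ 2) / (2 * s^2))) * gam ι s K
      ≤ gam ι s {y | y - z ∈ K} := by
  have hs2 : (0:ℝ) < s^2 := by positivity
  rw [gam_wd s hs]
  set v := Real.toNNReal (s^2) with hvdef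
  have hvr : (v : ℝ) = s^2 := Real.coe_toNNReal _ hs2.le
  set C : ℝ := (√(2 * π * v))⁻¹ with hC
  have hCn : 0 ≤ C := by positivity
  have hp : ∀ y : ι → ℝ, ∏ i, gaussianPDF 0 v (y i) =
      ENNReal.ofReal (C ^ Fintype.card ι * Real.exp (-(∑ i, y i ^ 2) / (2 * s^2))) := by
    intro y
    simp only [gaussianPDF_def]
    rw [← ENNReal.ofReal_prod_of_nonneg (fun i _ => gaussianPDFReal_nonneg 0 v _)]
    congr 1
    simp only [gaussianPDFReal_def]
    rw [Finset.prod_mul_distrib, ← Real.exp_sum]
    congr 1
    · simp [hC, Finset.card_univ]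
    · congr 1
      rw [← Finset.sum_neg_distrib, Finset.sum_div]
      refine Finset.sum_congr rfl fun i _ => ?_
      rw [hvr, sub_zero]
  have hK' : MeasurableSet {y : ι → ℝ | y - z ∈ K} :=
    (measurable_id.sub_const z) hK
  simp only [hp]
  set p : (ι → ℝ) → ENNReal := fun y =>
    ENNReal.ofReal (C ^ Fintype.card ι * Real.exp (-(∑ i, y i ^ 2) / (2 * s^2))) with hpdef
  have hpm : Measurable p := by
    have : Measurable (fun y : ι → ℝ =>
      C ^ Fintype.card ι * Real.exp (-(∑ i, y i ^ 2) / (2 * s^2))) := by fun_prop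
    exact this.ennreal_ofReal
  rw [withDensity_apply _ hK, withDensity_apply _ hK']
  have hA : ∫⁻ y in {y : ι → ℝ | y - z ∈ K}, p y = ∫⁻ y in K, p (y + z) := by
    rw [← lintegral_indicator hK', ← lintegral_indicator hK,
      ← lintegral_sub_right_eq_self (fun y => K.indicator (fun y => p (y + z)) y) z]
    refine lintegral_congr fun y => ?_
    by_cases hy : y - z ∈ K
    · rw [Set.indicator_of_mem (show y ∈ {y : ι → ℝ | y - z ∈ K} from hy),
        Set.indicator_of_mem hy, sub_add_cancel]
    · rw [Set.indicator_of_notMem (show y ∉ {y : ι → ℝ | y - z ∈ K} from hy),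
        Set.indicator_of_notMem hy]
  have hB : ∫⁻ y in K, p (y + z) = ∫⁻ y in K, p (y - z) := by
    rw [← lintegral_indicator hK, ← lintegral_indicator hK,
      ← (Measure.measurePreserving_neg (volume : Measure (ι → ℝ))).lintegral_comp
        (f := fun y => K.indicator (fun y => p (y - z)) y)
        ((hpm.comp (measurable_id.sub_const z)).indicator hK)]
    refine lintegral_congr fun y => ?_
    by_cases hy : y ∈ K
    · rw [Set.indicator_of_mem hy, Set.indicator_of_mem (hsym y hy)]
      simp only [hpdef]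
      congr 5
      refine Finset.sum_congr rfl fun i _ => ?_
      simp only [Pi.add_apply, Pi.sub_apply, Pi.neg_apply]
      ring
    · have hy' : -y ∉ K := fun h => hy (by simpa using hsym _ h)
      rw [Set.indicator_of_notMem hy, Set.indicator_of_notMem hy']
  have hsum : (ENNReal.ofReal (Real.exp (-(∑ i, z i ^ 2) / (2 * s^2))) * ∫⁻ y in K, p y) +
      (ENNReal.ofReal (Real.exp (-(∑ i, z i ^ 2) / (2 * s^2))) * ∫⁻ y in K, p y) ≤
      (∫⁻ y in K, p (y + z)) + (∫⁻ y in K, p (y - z)) := by
    rw [← lintegral_const_mul _ hpm, ← lintegral_add_left (hpm.const_mul _),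
      ← lintegral_add_left (f := fun y => p (y + z)) (hpm.comp (measurable_id.add_const z))]
    refine lintegral_mono fun y => ?_
    simp only [hpdef]
    rw [← ENNReal.ofReal_mul (Real.exp_pos _).le, ← ENNReal.ofReal_add (by positivity)
      (by positivity), ← ENNReal.ofReal_add (by positivity) (by positivity)]
    refine ENNReal.ofReal_le_ofReal ?_
    set a : ℝ := -(∑ i, z i ^ 2) / (2 * s^2) with ha
    set b : ℝ := -(∑ i, y i ^ 2) / (2 * s^2) with hb
    set d : ℝ := (∑ i, y i * z i) / s^2 with hd
    have e1 : -(∑ i, (y + z) i ^ 2) / (2 * s^2) = a + b - d := by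
      have : ∑ i, (y + z) i ^ 2 = ∑ i, y i ^ 2 + ∑ i, z i ^ 2 + 2 * ∑ i, y i * z i := by
        rw [Finset.mul_sum, ← Finset.sum_add_distrib, ← Finset.sum_add_distrib]
        refine Finset.sum_congr rfl fun i _ => ?_
        simp only [Pi.add_apply]; ring
      rw [this, ha, hb, hd]
      field_simp
      ring
    have e2 : -(∑ i, (y - z) i ^ 2) / (2 * s^2) = a + b + d := by
      have : ∑ i, (y - z) i ^ 2 = ∑ i, y i ^ 2 + ∑ i, z i ^ 2 - 2 * ∑ i, y i * z i := by
        rw [Finset.mul_sum, ← Finset.sum_add_distrib, ← Finset.sum_sub_distrib]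
        refine Finset.sum_congr rfl fun i _ => ?_
        simp only [Pi.sub_apply]; ring
      rw [this, ha, hb, hd]
      field_simp
      ring
    rw [e1, e2, sub_eq_add_neg, Real.exp_add (a + b) (-d), Real.exp_add (a + b) d,
      Real.exp_add a b]
    have hcosh : 2 ≤ Real.exp (-d) + Real.exp d := by
      have h1 := Real.one_le_cosh d
      rw [Real.cosh_eq] at h1
      linarith
    have hpos : 0 ≤ C ^ Fintype.card ι * (Real.exp a * Real.exp b) := by positivity
    nlinarith [mul_le_mul_of_nonneg_left hcosh hpos]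
  rw [← hB] at hsum
  rw [hA]
  by_contra hlt
  push Not at hlt
  exact absurd (ENNReal.add_lt_add hlt hlt) (not_lt.mpr hsum)

end S_shift_gauss

alias shift_gauss := S_shift_gauss.shift_gauss

end HypVolE
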