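import Pool.Agent.H636R2.HE.Defs
import Pool.Agent.HypVol.L_gam_prob
import Pool.Agent.H636R2.HE.P_shift_gauss
open MeasureTheory Real ProbabilityTheory
open scoped ENNReal BigOperators


open HypVol
namespace HypVolE

namespace S_cov_gauss








theorem cov_gauss_card {ι : Type} [Fintype ι] (s : ℝ) (hs : 0 < s) (K : Set (ι → ℝ))
    (hK : MeasurableSet K) (hsym : ∀ y ∈ K, -y ∈ K) (m ρ : ℝ)
    (hm : ENNReal.ofReal (Real.exp (-m)) ≤ gam ι s K) (c : Finset (ι → ℝ))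
    (hc : ∀ z ∈ c, z ∈ EB ι ρ)
    (hd : (c : Set (ι → ℝ)).PairwiseDisjoint (fun z => {y : ι → ℝ | y - z ∈ K})) :
    (c.card : ℝ) ≤ Real.exp (ρ^2 / (2 * s^2) + m) := by
  haveI := gam_prob ι s
  have hmeas : ∀ z ∈ c, MeasurableSet {y : ι → ℝ | y - z ∈ K} := by
    intro z _
    have h1 : Measurable (fun y : ι → ℝ => y - z) := measurable_id.sub_const z
    exact h1 hK
  have hsum := measure_biUnion_finset (μ := gam ι s) hd hmeas
  have hle1 : ∑ z ∈ c, gam ι s {y : ι → ℝ | y - z ∈ K} ≤ 1 := by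
    rw [← hsum]; exact prob_le_one
  have hlow : ∀ z ∈ c, ENNReal.ofReal (Real.exp (-(ρ^2 / (2 * s^2) + m)))
      ≤ gam ι s {y : ι → ℝ | y - z ∈ K} := by
    intro z hz
    refine le_trans ?_ (shift_gauss s hs K hK hsym z)
    have h1 : Real.exp (-(ρ^2 / (2 * s^2) + m))
        = Real.exp (-(ρ^2) / (2 * s^2)) * Real.exp (-m) := by
      rw [← Real.exp_add]; congr 1; ring
    rw [h1, ENNReal.ofReal_mul (Real.exp_pos _).le]
    refine mul_le_mul' (ENNReal.ofReal_le_ofReal ?_) hm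
    apply Real.exp_le_exp.2
    have h2 : ∑ i, z i ^ 2 ≤ ρ ^ 2 := hc z hz
    have h3 : 0 < 2 * s ^ 2 := by positivity
    exact div_le_div_of_nonneg_right (neg_le_neg h2) h3.le
  have h4 : (c.card : ℝ≥0∞) * ENNReal.ofReal (Real.exp (-(ρ^2 / (2 * s^2) + m))) ≤ 1 := by
    refine le_trans ?_ hle1
    have := Finset.card_nsmul_le_sum c (fun z => gam ι s {y : ι → ℝ | y - z ∈ K}) _ hlow
    rwa [nsmul_eq_mul] at this
  have h5 : (c.card : ℝ) * Real.exp (-(ρ^2 / (2 * s^2) + m)) ≤ 1 := by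
    rw [← ENNReal.ofReal_natCast, ← ENNReal.ofReal_mul (by positivity)] at h4
    exact (ENNReal.ofReal_le_one).1 h4
  rw [Real.exp_neg, ← div_eq_mul_inv, div_le_one (Real.exp_pos _)] at h5
  exact h5

theorem cov_gauss {ι : Type} [Fintype ι] (s : ℝ) (hs : 0 < s) (K K2 : Set (ι → ℝ)) (hK : MeasurableSet K)
    (hsym : ∀ y ∈ K, -y ∈ K) (hK2 : ∀ x ∈ K, ∀ y ∈ K, x - y ∈ K2) (m ρ : ℝ)
    (hm : ENNReal.ofReal (Real.exp (-m)) ≤ gam ι s K) :
    Cov (EB ι ρ) K2 (Real.exp (ρ^2 / (2 * s^2) + m)) := by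
  classical
  have hKne : K.Nonempty := by
    rw [Set.nonempty_iff_ne_empty]
    rintro rfl
    rw [measure_empty, nonpos_iff_eq_zero, ENNReal.ofReal_eq_zero] at hm
    exact absurd (Real.exp_pos (-m)) (not_lt.2 hm)
  have h0 : (0 : ι → ℝ) ∈ K2 := by
    obtain ⟨y, hy⟩ := hKne
    have := hK2 y hy y hy
    rwa [sub_self] at this
  set P : Finset (ι → ℝ) → Prop := fun c => (∀ z ∈ c, z ∈ EB ι ρ) ∧
    (c : Set (ι → ℝ)).PairwiseDisjoint (fun z => {y : ι → ℝ | y - z ∈ K}) with hP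
  set S : Set ℕ := {n | ∃ c, P c ∧ c.card = n} with hS
  have hSne : S.Nonempty := ⟨0, ∅, ⟨by simp, by simp⟩, rfl⟩
  have hSb : BddAbove S := by
    refine ⟨⌊Real.exp (ρ^2 / (2 * s^2) + m)⌋₊, ?_⟩
    rintro n ⟨c, hc, rfl⟩
    exact Nat.le_floor (cov_gauss_card s hs K hK hsym m ρ hm c hc.1 hc.2)
  obtain ⟨c, hc, hcard⟩ := Nat.sSup_mem hSne hSb
  refine ⟨c, cov_gauss_card s hs K hK hsym m ρ hm c hc.1 hc.2, ?_⟩
  intro a ha
  by_contra hcon
  push Not at hcon
  have hac : a ∉ c := by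
    intro hac
    have := hcon a hac
    rw [sub_self] at this
    exact this h0
  have hins : P (insert a c) := by
    refine ⟨?_, ?_⟩
    · intro z hz
      rcases Finset.mem_insert.1 hz with rfl | hz
      · exact ha
      · exact hc.1 z hz
    · rw [Finset.coe_insert]
      refine hc.2.insert ?_
      intro z hz _
      rw [Set.disjoint_left]
      intro y hy1 hy2
      have h1 := hK2 _ hy2 _ hy1
      have h2 : (y - z) - (y - a) = a - z := by abel
      rw [h2] at h1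
      exact hcon z hz h1
  have h6 : (insert a c).card ≤ sSup S := le_csSup hSb ⟨_, hins, rfl⟩
  rw [Finset.card_insert_of_notMem hac, ← hcard] at h6
  omega

end S_cov_gauss

alias cov_gauss := S_cov_gauss.cov_gauss

end HypVolE
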