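import Pool.Agent.H636R2.HE.Defs
open MeasureTheory Real ProbabilityTheory
open scoped ENNReal BigOperators


open HypVol
namespace HypVolE

namespace S_cov_mono




theorem cov_mono {V : Type} [AddCommGroup V] (A S T : Set V) (m1 m2 : ℝ) (hm : m1 ≤ m2) (hST : S ⊆ T)
    (h1 : Cov A S m1) : Cov A T m2 := by
  obtain ⟨c, hc, h⟩ := h1
  exact ⟨c, hc.trans hm, fun a ha => (h a ha).imp fun x hx => ⟨hx.1, hST hx.2⟩⟩

end S_cov_mono

alias cov_mono := S_cov_mono.cov_mono

end HypVolE
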