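import Pool.Agent.H636R2.HE.Defs
open MeasureTheory Real ProbabilityTheory
open scoped ENNReal BigOperators


open HypVol
namespace HypVolE

namespace S_cov_scale




theorem cov_scale {ι : Type} [Fintype ι] (S T : Set (ι → ℝ)) (ρ θ m : ℝ) (hθ : 0 < θ)
    (hS : ∀ y ∈ S, (fun i => θ * y i) ∈ T) (h : Cov (EB ι ρ) S m) : Cov (EB ι (θ * ρ)) T m := by
  classical
  obtain ⟨c, hc, hcov⟩ := h
  refine ⟨c.image (fun x => fun i => θ * x i), ?_, ?_⟩
  · refine le_trans ?_ hc
    exact_mod_cast Finset.card_image_le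
  · intro a ha
    have ha' : (fun i => a i / θ) ∈ EB ι ρ := by
      simp only [EB, Set.mem_setOf_eq] at ha ⊢
      have h1 : ∑ i, (a i / θ) ^ 2 = (∑ i, a i ^ 2) / θ ^ 2 := by
        rw [Finset.sum_div]
        refine Finset.sum_congr rfl fun i _ => ?_
        rw [div_pow]
      rw [h1, div_le_iff₀ (by positivity)]
      calc ∑ i, a i ^ 2 ≤ (θ * ρ) ^ 2 := ha
        _ = ρ ^ 2 * θ ^ 2 := by ring
    obtain ⟨x, hx, hxS⟩ := hcov _ ha'
    refine ⟨fun i => θ * x i, Finset.mem_image_of_mem _ hx, ?_⟩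
    have h2 := hS _ hxS
    have h3 : (fun i => θ * (((fun i => a i / θ) - x : ι → ℝ) i)) = a - fun i => θ * x i := by
      funext i
      simp only [Pi.sub_apply]
      have : θ ≠ 0 := hθ.ne'
      field_simp
    rw [← h3]
    exact h2

end S_cov_scale

alias cov_scale := S_cov_scale.cov_scale

end HypVolE
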