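import Pool.Agent.H636R2.HE.Defs
open MeasureTheory Real ProbabilityTheory
open scoped ENNReal BigOperators


open HypVol
namespace HypVolE

namespace S_cov_trans




theorem cov_trans {V : Type} [AddCommGroup V] (A S T : Set V) (m1 m2 : ℝ) (hm1 : 0 ≤ m1)
    (h1 : Cov A S m1) (h2 : Cov S T m2) : Cov A T (m1 * m2) := by
  classical
  obtain ⟨c1, hc1, h1⟩ := h1
  obtain ⟨c2, hc2, h2⟩ := h2
  refine ⟨(c1 ×ˢ c2).image (fun p => p.1 + p.2), ?_, ?_⟩
  · have h3 : (((c1 ×ˢ c2).image (fun p => p.1 + p.2)).card : ℝ) ≤ (c1.card : ℝ) * c2.card := by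
      have := (Finset.card_image_le (s := c1 ×ˢ c2) (f := fun p => p.1 + p.2))
      rw [Finset.card_product] at this
      exact_mod_cast this
    have h4 : (0 : ℝ) ≤ c2.card := Nat.cast_nonneg _
    exact h3.trans (mul_le_mul hc1 hc2 h4 hm1)
  · intro a ha
    obtain ⟨x, hx, hax⟩ := h1 a ha
    obtain ⟨y, hy, hay⟩ := h2 (a - x) hax
    refine ⟨x + y, Finset.mem_image.2 ⟨(x, y), Finset.mem_product.2 ⟨hx, hy⟩, rfl⟩, ?_⟩
    rw [← sub_sub]
    exact hay

end S_cov_trans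

alias cov_trans := S_cov_trans.cov_trans

end HypVolE
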