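import Pool.Agent.H636R2.HE.Defs
open MeasureTheory Real ProbabilityTheory
open scoped ENNReal BigOperators


open HypVol
namespace HypVolE

namespace S_cov_vol




open scoped Function in
theorem cov_vol_card {E : Type*} [NormedAddCommGroup E] [NormedSpace ℝ E] [FiniteDimensional ℝ E]
    (s : Finset E) (r t : ℝ) (hr : 0 ≤ r) (ht : 0 < t) (hs : ∀ c ∈ s, ‖c‖ ≤ r)
    (h : ∀ c ∈ s, ∀ d ∈ s, c ≠ d → t ≤ ‖c - d‖) :
    (s.card : ℝ) ≤ (1 + 2 * r / t) ^ (Module.finrank ℝ E) := by
  borelize E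
  let μ : Measure E := Measure.addHaar
  let δ : ℝ := t / 2
  let ρ : ℝ := r + t / 2
  have ρpos : 0 < ρ := by simp only [ρ]; positivity
  have δpos : 0 < δ := by simp only [δ]; positivity
  set A := ⋃ c ∈ s, Metric.ball (c : E) δ with hA
  have D : Set.Pairwise (s : Set E) (Disjoint on fun c => Metric.ball (c : E) δ) := by
    rintro c hc d hd hcd
    apply Metric.ball_disjoint_ball
    rw [dist_eq_norm]
    have := h c hc d hd hcd
    simp only [δ]
    linarith
  have A_subset : A ⊆ Metric.ball (0 : E) ρ := by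
    refine Set.iUnion₂_subset fun x hx => ?_
    apply Metric.ball_subset_ball'
    rw [dist_zero_right]
    have := hs x hx
    simp only [δ, ρ]
    linarith
  have I :
    (s.card : ℝ≥0∞) * ENNReal.ofReal (δ ^ Module.finrank ℝ E) * μ (Metric.ball 0 1) ≤
      ENNReal.ofReal (ρ ^ Module.finrank ℝ E) * μ (Metric.ball 0 1) :=
    calc
      (s.card : ℝ≥0∞) * ENNReal.ofReal (δ ^ Module.finrank ℝ E) * μ (Metric.ball 0 1) = μ A := by
        rw [hA, measure_biUnion_finset D fun c _ => measurableSet_ball]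
        simp only [μ.addHaar_ball_of_pos _ δpos]
        simp only [Finset.sum_const, nsmul_eq_mul, mul_assoc]
      _ ≤ μ (Metric.ball (0 : E) ρ) := measure_mono A_subset
      _ = ENNReal.ofReal (ρ ^ Module.finrank ℝ E) * μ (Metric.ball 0 1) := by
        simp only [μ.addHaar_ball_of_pos _ ρpos]
  have J : (s.card : ℝ≥0∞) * ENNReal.ofReal (δ ^ Module.finrank ℝ E) ≤
      ENNReal.ofReal (ρ ^ Module.finrank ℝ E) :=
    (ENNReal.mul_le_mul_iff_left (Metric.measure_ball_pos _ _ zero_lt_one).ne'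
      measure_ball_lt_top.ne).1 I
  have K := ENNReal.toReal_le_of_le_ofReal (pow_nonneg ρpos.le _) J
  rw [ENNReal.toReal_mul, ENNReal.toReal_natCast, ENNReal.toReal_ofReal (by positivity)] at K
  have hq : (1 + 2 * r / t) = ρ / δ := by
    simp only [ρ, δ]
    field_simp
    ring
  rw [hq, div_pow, le_div_iff₀ (by positivity)]
  exact K

theorem cov_vol {ι : Type} [Fintype ι] (r t : ℝ) (hr : 0 ≤ r) (ht : 0 < t) :
    Cov (EB ι r) (EB ι t) ((1 + 2 * r / t)^(Fintype.card ι)) := by
  classical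
  let Q : Finset (EuclideanSpace ℝ ι) → Prop := fun s => (∀ c ∈ s, ‖c‖ ≤ r) ∧
    ∀ c ∈ s, ∀ d ∈ s, c ≠ d → t ≤ ‖c - d‖
  have hcard : ∀ s, Q s → (s.card : ℝ) ≤ (1 + 2 * r / t)^(Fintype.card ι) := by
    intro s hs
    have := cov_vol_card s r t hr ht hs.1 hs.2
    rwa [finrank_euclideanSpace] at this
  let S : Set ℕ := {n | ∃ s, Q s ∧ s.card = n}
  have hS0 : S.Nonempty := ⟨0, ∅, ⟨by simp, by simp⟩, rfl⟩
  have hSb : BddAbove S := by
    refine ⟨⌊(1 + 2 * r / t)^(Fintype.card ι)⌋₊, ?_⟩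
    rintro n ⟨s, hs, rfl⟩
    exact Nat.le_floor (hcard s hs)
  obtain ⟨s, hs, hsn⟩ := Nat.sSup_mem hS0 hSb
  refine ⟨s.image (fun v => WithLp.ofLp v), ?_, ?_⟩
  · exact (Nat.cast_le.mpr Finset.card_image_le).trans (hcard s hs)
  · intro a ha
    by_contra hcon
    push Not at hcon
    let a' : EuclideanSpace ℝ ι := WithLp.toLp 2 a
    have hna : ‖a'‖ ≤ r := by
      rw [EB, Set.mem_setOf_eq] at ha
      have h1 : ‖a'‖ ^ 2 = ∑ i, a i ^ 2 := by
        rw [EuclideanSpace.real_norm_sq_eq]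
      apply le_of_sq_le_sq _ hr
      rw [h1]; exact ha
    have hfar : ∀ c ∈ s, t < ‖a' - c‖ := by
      intro c hc
      have h1 := hcon (WithLp.ofLp c) (Finset.mem_image_of_mem _ hc)
      rw [EB, Set.mem_setOf_eq, not_le] at h1
      have h2 : ‖a' - c‖ ^ 2 = ∑ i, (a - WithLp.ofLp c) i ^ 2 := by
        rw [EuclideanSpace.real_norm_sq_eq]
        rfl
      rw [← h2] at h1
      exact lt_of_pow_lt_pow_left₀ 2 (norm_nonneg _) h1
    have hnot : a' ∉ s := by
      intro hmem
      have := hfar a' hmem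
      rw [sub_self, norm_zero] at this
      linarith
    have hQ : Q (insert a' s) := by
      refine ⟨?_, ?_⟩
      · intro c hc
        rcases Finset.mem_insert.mp hc with rfl | hc
        · exact hna
        · exact hs.1 c hc
      · intro c hc d hd hcd
        rcases Finset.mem_insert.mp hc with rfl | hc
        · rcases Finset.mem_insert.mp hd with rfl | hd
          · exact absurd rfl hcd
          · exact (hfar d hd).le
        · rcases Finset.mem_insert.mp hd with rfl | hd
          · rw [norm_sub_rev]; exact (hfar c hc).le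
          · exact hs.2 c hc d hd hcd
    have hle : (insert a' s).card ≤ sSup S := le_csSup hSb ⟨_, hQ, rfl⟩
    rw [Finset.card_insert_of_notMem hnot, ← hsn] at hle
    omega

end S_cov_vol

alias cov_vol := S_cov_vol.cov_vol

end HypVolE
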