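import Pool.Agent.H636R2.HE.Defs
import Pool.Agent.HypVol.L_gam_prob
import Pool.Agent.HypVol.L_gam_mgf
import Pool.Agent.HypVol.L_card_layer
import Pool.Agent.HypVol.L_TP_prob
import Pool.Agent.HypVol.L_card_layer
open MeasureTheory Real ProbabilityTheory
open scoped ENNReal BigOperators


open HypVol
namespace HypVolE

namespace S_gauss_Linf











/-- the real system on a grid -/
noncomputable def gl_b {d n : ℕ} {Y : Type} (g : Y → Fin d → ℝ) (β : (layer d n) × Fin 2)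
    (x : Y × Fin 2) : ℝ :=
  if x.2 = 0 then (if β.2 = 0 then Real.cos (∑ j, (β.1.1 j : ℝ) * g x.1 j)
    else -Real.sin (∑ j, (β.1.1 j : ℝ) * g x.1 j))
  else (if β.2 = 0 then Real.sin (∑ j, (β.1.1 j : ℝ) * g x.1 j)
    else Real.cos (∑ j, (β.1.1 j : ℝ) * g x.1 j))

theorem gl_b_sq {d n : ℕ} {Y : Type} (g : Y → Fin d → ℝ) (x : Y × Fin 2) :
    ∑ β : (layer d n) × Fin 2, gl_b g β x ^ 2 ≤ ((layer d n).card : ℝ) := by
  rw [Fintype.sum_prod_type]
  have h : ∀ k : layer d n, ∑ e : Fin 2, gl_b g (k, e) x ^ 2 = 1 := by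
    intro k
    rw [Fin.sum_univ_two]
    unfold gl_b
    by_cases hx : x.2 = 0
    · simp [hx]
    · simp [hx]
  rw [Finset.sum_congr rfl (fun k _ => h k), Finset.sum_const, Finset.card_univ, Fintype.card_coe,
    nsmul_eq_mul, mul_one]

theorem gl_exp (t : ℝ) : Complex.exp (Complex.I * (t : ℂ)) =
    (Real.cos t : ℂ) + (Real.sin t : ℂ) * Complex.I := by
  rw [mul_comm, Complex.exp_mul_I, Complex.ofReal_cos, Complex.ofReal_sin]

theorem gl_term_re (a0 a1 A B : ℝ) :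
    (((a0 : ℂ) + (a1 : ℂ) * Complex.I) * ((A : ℂ) + (B : ℂ) * Complex.I)).re = a0 * A - a1 * B := by
  simp

theorem gl_term_im (a0 a1 A B : ℝ) :
    (((a0 : ℂ) + (a1 : ℂ) * Complex.I) * ((A : ℂ) + (B : ℂ) * Complex.I)).im = a0 * B + a1 * A := by
  simp

theorem gl_re {d n : ℕ} {Y : Type} (g : Y → Fin d → ℝ) (a : (layer d n) × Fin 2 → ℝ) (y : Y) :
    (poly a (g y)).re = ∑ β, a β * gl_b g β (y, 0) := by
  rw [Fintype.sum_prod_type]
  unfold poly
  rw [Complex.re_sum]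
  refine Finset.sum_congr rfl fun k _ => ?_
  rw [Fin.sum_univ_two, gl_exp, gl_term_re]
  simp [gl_b]
  ring

theorem gl_im {d n : ℕ} {Y : Type} (g : Y → Fin d → ℝ) (a : (layer d n) × Fin 2 → ℝ) (y : Y) :
    (poly a (g y)).im = ∑ β, a β * gl_b g β (y, 1) := by
  rw [Fintype.sum_prod_type]
  unfold poly
  rw [Complex.im_sum]
  refine Finset.sum_congr rfl fun k _ => ?_
  rw [Fin.sum_univ_two, gl_exp, gl_term_im]
  simp [gl_b]

theorem gl_coord (Q : ℕ) (hQ : 0 < Q) (t : ℝ) : ∃ (q : Fin Q) (z : ℤ) (δ : ℝ),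
    t = 2 * π * ((q : ℕ) : ℝ) / Q + 2 * π * z + δ ∧ |δ| ≤ 2 * π / Q := by
  have hpi : (0 : ℝ) < 2 * π := by positivity
  have hQ' : (0 : ℝ) < Q := by exact_mod_cast hQ
  obtain ⟨f, hf⟩ : ∃ f, f = Int.fract (t / (2 * π)) := ⟨_, rfl⟩
  have hf0 : 0 ≤ f := by rw [hf]; exact Int.fract_nonneg _
  have hf1 : f < 1 := by rw [hf]; exact Int.fract_lt_one _
  have hfl : (⌊t / (2 * π)⌋ : ℝ) + f = t / (2 * π) := by rw [hf]; exact Int.floor_add_fract _
  have ht : t = 2 * π * ⌊t / (2 * π)⌋ + 2 * π * f := by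
    have h1 : t = 2 * π * (t / (2 * π)) := by field_simp
    calc t = 2 * π * (t / (2 * π)) := h1
      _ = 2 * π * ((⌊t / (2 * π)⌋ : ℝ) + f) := by rw [hfl]
      _ = _ := by ring
  have hq : ⌊(Q : ℝ) * f⌋₊ < Q := by
    rw [Nat.floor_lt (by positivity)]
    nlinarith
  have h1 : ((⌊(Q : ℝ) * f⌋₊ : ℕ) : ℝ) ≤ Q * f := Nat.floor_le (by positivity)
  have h2 : (Q : ℝ) * f < ((⌊(Q : ℝ) * f⌋₊ : ℕ) : ℝ) + 1 := Nat.lt_floor_add_one _
  refine ⟨⟨⌊(Q : ℝ) * f⌋₊, hq⟩, ⌊t / (2 * π)⌋,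
    2 * π * (((Q : ℝ) * f - ((⌊(Q : ℝ) * f⌋₊ : ℕ) : ℝ)) / Q), ?_, ?_⟩
  · have e : 2 * π * ((⌊(Q : ℝ) * f⌋₊ : ℕ) : ℝ) / Q + 2 * π * (⌊t / (2 * π)⌋ : ℝ) +
        2 * π * (((Q : ℝ) * f - ((⌊(Q : ℝ) * f⌋₊ : ℕ) : ℝ)) / Q) =
        2 * π * ⌊t / (2 * π)⌋ + 2 * π * f := by
      field_simp
      ring
    show t = 2 * π * ((⌊(Q : ℝ) * f⌋₊ : ℕ) : ℝ) / Q + 2 * π * (⌊t / (2 * π)⌋ : ℝ) +
        2 * π * (((Q : ℝ) * f - ((⌊(Q : ℝ) * f⌋₊ : ℕ) : ℝ)) / Q)
    rw [e]
    exact ht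
  · have h3 : (((Q : ℝ) * f - ((⌊(Q : ℝ) * f⌋₊ : ℕ) : ℝ)) / Q) ≤ 1 / Q :=
      div_le_div_of_nonneg_right (by linarith) hQ'.le
    have h4 : 0 ≤ (((Q : ℝ) * f - ((⌊(Q : ℝ) * f⌋₊ : ℕ) : ℝ)) / Q) :=
      div_nonneg (by linarith) hQ'.le
    rw [abs_of_nonneg (by positivity)]
    calc 2 * π * (((Q : ℝ) * f - ((⌊(Q : ℝ) * f⌋₊ : ℕ) : ℝ)) / Q) ≤ 2 * π * (1 / Q) :=
          mul_le_mul_of_nonneg_left h3 hpi.le
      _ = 2 * π / Q := by ring

theorem gl_mem {d n : ℕ} (k : layer d n) (j : Fin d) : |((k.1 j : ℤ) : ℝ)| ≤ 2 ^ n := by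
  have hk := k.2
  simp only [layer, Finset.mem_filter] at hk
  have h1 := hk.1
  have h2 := Finset.mem_Ioo.1 (Fintype.mem_piFinset.1 h1 j)
  have h3 : ((-(2:ℤ)^n : ℤ) : ℝ) < ((k.1 j : ℤ) : ℝ) := by exact_mod_cast h2.1
  have h4 : ((k.1 j : ℤ) : ℝ) < (((2:ℤ)^n : ℤ) : ℝ) := by exact_mod_cast h2.2
  push_cast at h3 h4
  rw [abs_le]
  exact ⟨h3.le, h4.le⟩

theorem gl_close {d n : ℕ} (Q : ℕ) (hQ : 0 < Q) (a : (layer d n) × Fin 2 → ℝ)
    (ha : ∀ i, |a i| ≤ 1)
    (hsm : ((layer d n).card : ℝ) * (2 * ((d : ℝ) * (2 ^ n * (2 * π / Q)))) ≤ 1)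
    (y : Fin d → ℝ) :
    ∃ x : Fin d → Fin Q, ‖poly a y‖ ≤
      ‖poly a (fun j => 2 * π * ((x j : ℕ) : ℝ) / Q)‖ + 1 := by
  choose q z δ h1 h2 using fun j => gl_coord Q hQ (y j)
  refine ⟨q, ?_⟩
  have key : ‖poly a y - poly a (fun j => 2 * π * ((q j : ℕ) : ℝ) / Q)‖ ≤ 1 := by
    unfold poly
    rw [← Finset.sum_sub_distrib]
    refine (norm_sum_le _ _).trans ?_
    refine le_trans ?_ hsm
    have hterm : ∀ k ∈ (Finset.univ : Finset (layer d n)),
        ‖((a (k, 0) : ℂ) + (a (k, 1) : ℂ) * Complex.I) *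
          Complex.exp (Complex.I * ((∑ j, (k.1 j : ℝ) * y j : ℝ) : ℂ)) -
        ((a (k, 0) : ℂ) + (a (k, 1) : ℂ) * Complex.I) *
          Complex.exp (Complex.I * ((∑ j, (k.1 j : ℝ) * (2 * π * ((q j : ℕ) : ℝ) / Q) : ℝ) : ℂ))‖ ≤
        2 * ((d : ℝ) * (2 ^ n * (2 * π / Q))) := by
      intro k _
      rw [← mul_sub, norm_mul]
      have e1 : ‖(a (k, 0) : ℂ) + (a (k, 1) : ℂ) * Complex.I‖ ≤ 2 := by
        refine (norm_add_le _ _).trans ?_
        rw [norm_mul, Complex.norm_I, mul_one, Complex.norm_real, Complex.norm_real,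
          Real.norm_eq_abs, Real.norm_eq_abs]
        linarith [ha (k, 0), ha (k, 1)]
      have e2 : (∑ j, (k.1 j : ℝ) * y j : ℝ) =
          (∑ j, (k.1 j : ℝ) * (2 * π * ((q j : ℕ) : ℝ) / Q)) +
          ((∑ j, k.1 j * z j : ℤ) : ℝ) * (2 * π) + ∑ j, (k.1 j : ℝ) * δ j := by
        push_cast
        rw [Finset.sum_mul, ← Finset.sum_add_distrib, ← Finset.sum_add_distrib]
        refine Finset.sum_congr rfl fun j _ => ?_
        conv_lhs => rw [h1 j]
        ring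
      have e3 : Complex.exp (Complex.I * ((∑ j, (k.1 j : ℝ) * y j : ℝ) : ℂ)) =
          Complex.exp (Complex.I * ((∑ j, (k.1 j : ℝ) * (2 * π * ((q j : ℕ) : ℝ) / Q) : ℝ) : ℂ)) *
          Complex.exp (Complex.I * ((∑ j, (k.1 j : ℝ) * δ j : ℝ) : ℂ)) := by
        rw [e2, Complex.ofReal_add, Complex.ofReal_add, mul_add, mul_add, Complex.exp_add,
          Complex.exp_add]
        have e4 : Complex.exp (Complex.I * ((((∑ j, k.1 j * z j : ℤ) : ℝ) * (2 * π) : ℝ) : ℂ)) = 1 := by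
          rw [← Complex.exp_int_mul_two_pi_mul_I (∑ j, k.1 j * z j)]
          congr 1
          push_cast
          ring
        rw [e4, mul_one]
      have e5 : ‖Complex.exp (Complex.I * ((∑ j, (k.1 j : ℝ) * y j : ℝ) : ℂ)) -
          Complex.exp (Complex.I * ((∑ j, (k.1 j : ℝ) * (2 * π * ((q j : ℕ) : ℝ) / Q) : ℝ) : ℂ))‖ ≤
          (d : ℝ) * (2 ^ n * (2 * π / Q)) := by
        rw [e3]
        have e6 : ∀ A B : ℂ, A * B - A = A * (B - 1) := fun A B => by ring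
        rw [e6, norm_mul]
        have e7 : ‖Complex.exp (Complex.I *
            ((∑ j, (k.1 j : ℝ) * (2 * π * ((q j : ℕ) : ℝ) / Q) : ℝ) : ℂ))‖ = 1 := by
          rw [mul_comm]
          exact Complex.norm_exp_ofReal_mul_I _
        rw [e7, one_mul]
        refine (Real.norm_exp_I_mul_ofReal_sub_one_le).trans ?_
        rw [Real.norm_eq_abs]
        refine (Finset.abs_sum_le_sum_abs _ _).trans ?_
        have e8 : ∀ j ∈ (Finset.univ : Finset (Fin d)), |(k.1 j : ℝ) * δ j| ≤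
            2 ^ n * (2 * π / Q) := by
          intro j _
          rw [abs_mul]
          exact mul_le_mul (gl_mem k j) (h2 j) (abs_nonneg _) (by positivity)
        refine (Finset.sum_le_sum e8).trans ?_
        rw [Finset.sum_const, Finset.card_univ, Fintype.card_fin, nsmul_eq_mul]
      exact mul_le_mul e1 e5 (norm_nonneg _) (by norm_num)
    refine (Finset.sum_le_sum hterm).trans ?_
    rw [Finset.sum_const, Finset.card_univ, Fintype.card_coe, nsmul_eq_mul]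
  have := norm_sub_norm_le (poly a y) (poly a (fun j => 2 * π * ((q j : ℕ) : ℝ) / Q))
  linarith

theorem gl_card (d n : ℕ) : ((layer d n).card : ℝ) ≤ 2 ^ ((n + 1) * d) := by
  classical
  have h1 : (layer d n).card ≤ (2 ^ (n + 1)) ^ d := by
    unfold layer
    refine (Finset.card_filter_le _ _).trans ?_
    rw [Fintype.card_piFinset, Finset.prod_const, Finset.card_univ, Fintype.card_fin, Int.card_Ioo]
    refine Nat.pow_le_pow_left ?_ d
    have h2 : ((2:ℤ)^n - -(2:ℤ)^n - 1) ≤ ((2 ^ (n + 1) : ℕ) : ℤ) := by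
      push_cast
      rw [pow_succ]
      linarith
    exact Int.toNat_le.2 h2
  rw [← pow_mul] at h1
  exact_mod_cast h1

theorem gl_small (d n : ℕ) :
    ((layer d n).card : ℝ) * (2 * ((d : ℝ) * (2 ^ n *
      (2 * π / ((2 ^ ((n + 1) * d + d + n + 4) : ℕ) : ℝ))))) ≤ 1 := by
  have h1 := gl_card d n
  have h2 : (d : ℝ) ≤ 2 ^ d := by exact_mod_cast (Nat.lt_two_pow_self (n := d)).le
  have h3 : 2 * π ≤ 8 := by linarith [Real.pi_le_four]
  have hpi := Real.pi_pos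
  have hP : (0 : ℝ) < ((2 ^ ((n + 1) * d + d + n + 4) : ℕ) : ℝ) := by positivity
  have e : ((layer d n).card : ℝ) * (2 * ((d : ℝ) * (2 ^ n *
      (2 * π / ((2 ^ ((n + 1) * d + d + n + 4) : ℕ) : ℝ))))) =
      ((layer d n).card : ℝ) * (2 * ((d : ℝ) * (2 ^ n * (2 * π)))) /
      ((2 ^ ((n + 1) * d + d + n + 4) : ℕ) : ℝ) := by ring
  rw [e, div_le_one hP]
  calc ((layer d n).card : ℝ) * (2 * ((d : ℝ) * (2 ^ n * (2 * π)))) ≤
      2 ^ ((n + 1) * d) * (2 * (2 ^ d * (2 ^ n * 8))) := by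
        refine mul_le_mul h1 ?_ (by positivity) (by positivity)
        refine mul_le_mul_of_nonneg_left ?_ (by norm_num)
        refine mul_le_mul h2 ?_ (by positivity) (by positivity)
        exact mul_le_mul_of_nonneg_left h3 (by positivity)
    _ = ((2 ^ ((n + 1) * d + d + n + 4) : ℕ) : ℝ) := by
        push_cast
        rw [pow_add, pow_add, pow_add]
        norm_num
        ring

theorem gl_log (d n : ℕ) (hn : 1 ≤ n) :
    Real.log (4 * (Fintype.card ((Fin d → Fin (2 ^ ((n + 1) * d + d + n + 4))) × Fin 2) : ℝ)) ≤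
      (n : ℝ) * (3 * (d : ℝ) ^ 2 + 5 * d + 3) := by
  have hc : (4 * (Fintype.card ((Fin d → Fin (2 ^ ((n + 1) * d + d + n + 4))) × Fin 2) : ℝ)) =
      2 ^ (3 + ((n + 1) * d + d + n + 4) * d) := by
    rw [Fintype.card_prod, Fintype.card_fun, Fintype.card_fin, Fintype.card_fin, Fintype.card_fin]
    push_cast
    rw [← pow_mul, pow_add]
    norm_num
    ring
  rw [hc, Real.log_pow]
  have hlog : Real.log 2 ≤ 1 := by
    have := Real.log_two_lt_d9
    linarith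
  have hlog0 : 0 ≤ Real.log 2 := Real.log_nonneg (by norm_num)
  have hn' : (1 : ℝ) ≤ n := by exact_mod_cast hn
  have hd0 : (0 : ℝ) ≤ d := Nat.cast_nonneg d
  push_cast
  have h1 : (3 + (((n : ℝ) + 1) * d + d + n + 4) * d) ≤ (n : ℝ) * (3 * (d : ℝ) ^ 2 + 5 * d + 3) := by
    nlinarith [mul_nonneg (sub_nonneg.2 hn') hd0, mul_nonneg (sub_nonneg.2 hn') (mul_nonneg hd0 hd0)]
  calc (3 + (((n : ℝ) + 1) * d + d + n + 4) * d) * Real.log 2 ≤
      (3 + (((n : ℝ) + 1) * d + d + n + 4) * d) * 1 :=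
        mul_le_mul_of_nonneg_left hlog (by positivity)
    _ ≤ _ := by rw [mul_one]; exact h1

theorem gl_smul {d n : ℕ} (c : ℝ) (a : (layer d n) × Fin 2 → ℝ) (x : Fin d → ℝ) :
    poly (c • a) x = (c : ℂ) * poly a x := by
  unfold poly
  rw [Finset.mul_sum]
  refine Finset.sum_congr rfl fun k _ => ?_
  simp only [Pi.smul_apply, smul_eq_mul, Complex.ofReal_mul]
  ring


theorem gl_tail {ι : Type} [Fintype ι] (c : ι → ℝ) (M : ℝ) (hM : 0 < M)
    (hc : ∑ i, c i ^ 2 ≤ M) (l : ℝ) (hl : 0 ≤ l) :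
    gam ι 1 {a : ι → ℝ | l ≤ ∑ i, a i * c i} ≤ ENNReal.ofReal (Real.exp (-(l^2/(2*M)))) := by
  haveI := gam_prob ι 1
  set t : ℝ := l / M with ht
  have ht0 : 0 ≤ t := div_nonneg hl hM.le
  obtain ⟨hint, hval⟩ := gam_mgf (1:ℝ) (fun i => t * c i)
  have hfun : ∀ a : ι → ℝ, ∑ i, a i * (t * c i) = t * ∑ i, a i * c i := by
    intro a
    rw [Finset.mul_sum]
    refine Finset.sum_congr rfl (fun i _ => ?_)
    ring
  simp only [hfun] at hint hval
  have hle : ∫ a, Real.exp (t * ∑ i, a i * c i) ∂(gam ι 1) ≤ Real.exp (t^2 * M / 2) := by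
    rw [hval]
    apply Real.exp_le_exp.2
    have h2 : ∑ i, (t * c i)^2 = t^2 * ∑ i, c i^2 := by
      rw [Finset.mul_sum]
      refine Finset.sum_congr rfl (fun i _ => ?_)
      ring
    rw [h2]
    nlinarith [mul_le_mul_of_nonneg_left hc (sq_nonneg t)]
  have hmk := mul_meas_ge_le_integral_of_nonneg (μ := gam ι 1)
    (Filter.Eventually.of_forall (fun a => (Real.exp_pos _).le)) hint (Real.exp (t * l))
  have hsub : {a : ι → ℝ | l ≤ ∑ i, a i * c i} ⊆
      {a : ι → ℝ | Real.exp (t * l) ≤ Real.exp (t * ∑ i, a i * c i)} := by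
    intro a ha
    exact Real.exp_le_exp.2 (mul_le_mul_of_nonneg_left ha ht0)
  have h5 : (gam ι 1).real {a : ι → ℝ | l ≤ ∑ i, a i * c i} ≤ Real.exp (-(l^2/(2*M))) := by
    have h6 : (gam ι 1).real {a : ι → ℝ | l ≤ ∑ i, a i * c i} ≤
      (gam ι 1).real {a : ι → ℝ | Real.exp (t * l) ≤ Real.exp (t * ∑ i, a i * c i)} :=
      measureReal_mono hsub
    have h7 := hmk.trans hle
    have h8 : Real.exp (-(l^2/(2*M))) = Real.exp (t^2 * M / 2) / Real.exp (t * l) := by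
      rw [← Real.exp_sub]
      congr 1
      rw [ht]
      field_simp
      ring
    rw [h8, le_div_iff₀ (Real.exp_pos _)]
    nlinarith [mul_le_mul_of_nonneg_left h6 (Real.exp_pos (t * l)).le]
  rw [← ENNReal.ofReal_toReal (measure_ne_top (gam ι 1) {a : ι → ℝ | l ≤ ∑ i, a i * c i})]
  exact ENNReal.ofReal_le_ofReal h5

theorem gl_union {X ι : Type} [Fintype X] [Nonempty X] [Fintype ι] (b : ι → X → ℝ) (M : ℝ)
    (hM : 0 < M) (h : ∀ x, ∑ i, b i x ^ 2 ≤ M) :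
    gam ι 1 {a : ι → ℝ | ¬ ∀ x, |∑ i, a i * b i x| ≤
      Real.sqrt (2 * M * Real.log (8 * Fintype.card X))} ≤ ENNReal.ofReal (1 / 4) := by
  set l : ℝ := Real.sqrt (2 * M * Real.log (8 * Fintype.card X)) with hl
  have hl0 : 0 ≤ l := Real.sqrt_nonneg _
  have hX : (1:ℝ) ≤ Fintype.card X := by exact_mod_cast Fintype.card_pos
  have hlog : 0 ≤ Real.log (8 * Fintype.card X) := Real.log_nonneg (by linarith)
  have hl2 : l ^ 2 = 2 * M * Real.log (8 * Fintype.card X) := by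
    rw [hl]
    exact Real.sq_sqrt (by positivity)
  have hexp : Real.exp (-(l^2/(2*M))) = 1 / (8 * Fintype.card X) := by
    rw [hl2]
    have : 2 * M * Real.log (8 * Fintype.card X) / (2 * M) = Real.log (8 * Fintype.card X) := by
      field_simp
    rw [this, Real.exp_neg, Real.exp_log (by linarith), one_div]
  have hsub : {a : ι → ℝ | ¬ ∀ x, |∑ i, a i * b i x| ≤ l} ⊆
      ⋃ x : X, ({a : ι → ℝ | l ≤ ∑ i, a i * b i x} ∪ {a : ι → ℝ | l ≤ ∑ i, a i * (- b i x)}) := by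
    intro a h2
    obtain ⟨x, hx⟩ := not_forall.1 h2
    rw [not_le] at hx
    rw [Set.mem_iUnion]
    refine ⟨x, ?_⟩
    rcases lt_abs.1 hx with h3 | h3
    · left
      exact h3.le
    · right
      show l ≤ ∑ i, a i * (- b i x)
      have : ∑ i, a i * (- b i x) = - ∑ i, a i * b i x := by
        rw [← Finset.sum_neg_distrib]
        exact Finset.sum_congr rfl (fun i _ => by ring)
      rw [this]
      exact h3.le
  refine (measure_mono hsub).trans ?_
  refine (measure_iUnion_le _).trans ?_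
  rw [tsum_fintype]
  have hone : ∀ x : X, (gam ι 1) ({a : ι → ℝ | l ≤ ∑ i, a i * b i x} ∪
      {a : ι → ℝ | l ≤ ∑ i, a i * (- b i x)}) ≤
      ENNReal.ofReal (1 / (4 * Fintype.card X)) := by
    intro x
    refine (measure_union_le _ _).trans ?_
    have h1 := gl_tail (fun i => b i x) M hM (h x) l hl0
    have h2 := gl_tail (fun i => - b i x) M hM (by simpa using h x) l hl0
    refine (add_le_add h1 h2).trans ?_
    rw [← ENNReal.ofReal_add (by positivity) (by positivity), hexp]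
    apply ENNReal.ofReal_le_ofReal
    apply le_of_eq
    field_simp
    norm_num
  refine (Finset.sum_le_sum (fun x _ => hone x)).trans ?_
  rw [Finset.sum_const, Finset.card_univ, nsmul_eq_mul, ← ENNReal.ofReal_natCast,
    ← ENNReal.ofReal_mul (by positivity)]
  apply ENNReal.ofReal_le_ofReal
  apply le_of_eq
  have : (Fintype.card X : ℝ) ≠ 0 := by positivity
  field_simp

theorem gl_shp_pos (d n : ℕ) (hd : 1 ≤ d) : 0 < shp d n := by
  unfold shp
  apply Finset.card_pos.2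
  refine ⟨Pi.single (⟨0, hd⟩ : Fin d) (Fin.last n), ?_⟩
  unfold Sh
  rw [Finset.mem_filter]
  refine ⟨Finset.mem_univ _, ?_⟩
  rw [Finset.sum_eq_single (⟨0, hd⟩ : Fin d)]
  · rw [Pi.single_eq_same]
    exact Fin.val_last n
  · intro j _ hj
    rw [Pi.single_eq_of_ne hj]
    rfl
  · intro h
    exact absurd (Finset.mem_univ _) h

theorem gl_sup {d n : ℕ} (m : ℕ) (hm : m = (n + 1) * d + d + n + 4) (a : (layer d n) × Fin 2 → ℝ)
    (B R : ℝ) (hB : 0 < B) (ha : ∀ i, |a i| ≤ B)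
    (hR : ∀ x, |∑ i, a i * gl_b (fun (x : Fin d → Fin (2 ^ m)) (j : Fin d) =>
      2 * π * ((x j : ℕ) : ℝ) / ((2 ^ m : ℕ) : ℝ)) i x| ≤ R) (y : Fin d → ℝ) :
    ‖poly a y‖ ≤ 2 * R + B := by
  have hQ : 0 < 2 ^ m := by positivity
  have hsm := gl_small d n
  rw [← hm] at hsm
  obtain ⟨x, hx⟩ := gl_close (2 ^ m) hQ (B⁻¹ • a) (fun i => by
    rw [Pi.smul_apply, smul_eq_mul, abs_mul, abs_of_pos (inv_pos.2 hB), inv_mul_le_one₀ hB]
    exact ha i) hsm y
  rw [gl_smul, gl_smul, norm_mul, norm_mul, Complex.norm_real, Real.norm_eq_abs,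
    abs_of_pos (inv_pos.2 hB)] at hx
  have h1 : ‖poly a (fun j => 2 * π * ((x j : ℕ) : ℝ) / ((2 ^ m : ℕ) : ℝ))‖ ≤ 2 * R := by
    refine (Complex.norm_le_abs_re_add_abs_im _).trans ?_
    have e1 := gl_re (fun (x : Fin d → Fin (2 ^ m)) (j : Fin d) =>
      2 * π * ((x j : ℕ) : ℝ) / ((2 ^ m : ℕ) : ℝ)) a x
    have e2 := gl_im (fun (x : Fin d → Fin (2 ^ m)) (j : Fin d) =>
      2 * π * ((x j : ℕ) : ℝ) / ((2 ^ m : ℕ) : ℝ)) a x
    rw [e1, e2]
    linarith [hR (x, 0), hR (x, 1)]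
  have h2 : B⁻¹ * ‖poly a y‖ ≤ B⁻¹ * (2 * R + B) := by
    rw [mul_add, inv_mul_cancel₀ hB.ne']
    refine hx.trans ?_
    have := mul_le_mul_of_nonneg_left h1 (inv_pos.2 hB).le
    linarith
  exact le_of_mul_le_mul_left h2 (inv_pos.2 hB)

theorem gauss_Linf (d : ℕ) (hd : 1 ≤ d) : ∃ C : ℝ, 0 < C ∧ ∀ n : ℕ, 1 ≤ n →
    ENNReal.ofReal (1/2) ≤ gam ((layer d n) × Fin 2) 1
      (PB d n ⊤ (C * Real.sqrt ((layer d n).card * n))) := by
  obtain ⟨K, hK⟩ : ∃ K : ℝ, K = 3 * (d : ℝ) ^ 2 + 5 * d + 4 := ⟨_, rfl⟩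
  have hd' : (1 : ℝ) ≤ d := by exact_mod_cast hd
  have hK0 : 0 < K := by rw [hK]; positivity
  refine ⟨3 * Real.sqrt (2 * K), by positivity, fun n hn => ?_⟩
  have hn' : (1 : ℝ) ≤ n := by exact_mod_cast hn
  obtain ⟨m, hm⟩ : ∃ m : ℕ, m = (n + 1) * d + d + n + 4 := ⟨_, rfl⟩
  have hshp := gl_shp_pos d n hd
  have hMpos : 0 < (layer d n).card := by
    rw [card_layer]
    positivity
  have hM : (1 : ℝ) ≤ ((layer d n).card : ℝ) := by exact_mod_cast hMpos
  have hM0 : 0 < ((layer d n).card : ℝ) := by linarith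
  have : NeZero (2 ^ m) := ⟨by positivity⟩
  have hne : Nonempty (layer d n) := by
    obtain ⟨k, hk⟩ := Finset.card_pos.1 hMpos
    exact ⟨⟨k, hk⟩⟩
  haveI := gam_prob ((layer d n) × Fin 2) 1
  classical
  have hb1 := gl_union (gl_b (fun (x : Fin d → Fin (2 ^ m)) (j : Fin d) =>
      2 * π * ((x j : ℕ) : ℝ) / ((2 ^ m : ℕ) : ℝ))) ((layer d n).card : ℝ) hM0 (gl_b_sq (n := n) _)
  have hb2 := gl_union (ι := (layer d n) × Fin 2) (X := (layer d n) × Fin 2)
    (fun i x => if i = x then (1:ℝ) else 0) 1 one_pos (fun x => by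
      simp only [ite_pow, one_pow, zero_pow two_ne_zero]
      rw [Finset.sum_ite_eq' Finset.univ x, if_pos (Finset.mem_univ _)])
  obtain ⟨R, hR⟩ : ∃ R : ℝ, R = Real.sqrt (2 * ((layer d n).card : ℝ) *
      Real.log (8 * (Fintype.card ((Fin d → Fin (2 ^ m)) × Fin 2) : ℝ))) := ⟨_, rfl⟩
  obtain ⟨B, hB⟩ : ∃ B : ℝ, B = Real.sqrt (2 * 1 *
      Real.log (8 * (Fintype.card ((layer d n) × Fin 2) : ℝ))) := ⟨_, rfl⟩
  rw [← hR] at hb1
  rw [← hB] at hb2
  have hcardι : (Fintype.card ((layer d n) × Fin 2) : ℝ) = 2 * ((layer d n).card : ℝ) := by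
    rw [Fintype.card_prod, Fintype.card_fin, Fintype.card_coe]
    push_cast
    ring
  have hB0 : 0 < B := by
    rw [hB]
    apply Real.sqrt_pos.2
    have : 0 < Real.log (8 * (Fintype.card ((layer d n) × Fin 2) : ℝ)) := by
      apply Real.log_pos
      rw [hcardι]
      linarith
    positivity
  have hlog2 : Real.log 2 ≤ 1 := by
    have := Real.log_two_lt_d9
    linarith
  have hlog20 : 0 ≤ Real.log 2 := Real.log_nonneg (by norm_num)
  have hRle : R ≤ Real.sqrt (2 * K) * Real.sqrt ((layer d n).card * n) := by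
    rw [hR, ← Real.sqrt_mul (by positivity)]
    refine Real.sqrt_le_sqrt ?_
    have h2 : Real.log (8 * (Fintype.card ((Fin d → Fin (2 ^ m)) × Fin 2) : ℝ)) ≤ (n : ℝ) * K := by
      have h3 := gl_log d n hn
      rw [← hm] at h3
      have h4 : (0:ℝ) < 4 * (Fintype.card ((Fin d → Fin (2 ^ m)) × Fin 2) : ℝ) := by
        have : (0:ℝ) < (Fintype.card ((Fin d → Fin (2 ^ m)) × Fin 2) : ℝ) := by
          exact_mod_cast Fintype.card_pos
        positivity
      have h5 : 8 * (Fintype.card ((Fin d → Fin (2 ^ m)) × Fin 2) : ℝ) =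
          2 * (4 * (Fintype.card ((Fin d → Fin (2 ^ m)) × Fin 2) : ℝ)) := by ring
      rw [h5, Real.log_mul (by norm_num) h4.ne', hK]
      nlinarith
    calc 2 * ((layer d n).card : ℝ) * Real.log (8 *
          (Fintype.card ((Fin d → Fin (2 ^ m)) × Fin 2) : ℝ)) ≤
          2 * ((layer d n).card : ℝ) * ((n : ℝ) * K) :=
          mul_le_mul_of_nonneg_left h2 (by positivity)
      _ = 2 * K * ((layer d n).card * n) := by ring
  have hBle : B ≤ Real.sqrt (2 * K) * Real.sqrt ((layer d n).card * n) := by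
    rw [hB, ← Real.sqrt_mul (by positivity)]
    refine Real.sqrt_le_sqrt ?_
    have h2 : Real.log (8 * (Fintype.card ((layer d n) × Fin 2) : ℝ)) ≤ (n : ℝ) * K := by
      have h3 : 8 * (Fintype.card ((layer d n) × Fin 2) : ℝ) ≤ 2 ^ (4 + (n + 1) * d) := by
        rw [hcardι, pow_add]
        have := gl_card d n
        norm_num
        linarith
      have h4 : Real.log (8 * (Fintype.card ((layer d n) × Fin 2) : ℝ)) ≤
          Real.log (2 ^ (4 + (n + 1) * d)) := by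
        apply Real.log_le_log _ h3
        rw [hcardι]
        linarith
      refine h4.trans ?_
      rw [Real.log_pow]
      push_cast
      have h5 : (4 + ((n:ℝ) + 1) * d) ≤ (n:ℝ) * K := by
        rw [hK]
        nlinarith [mul_nonneg (sub_nonneg.2 hn') (by positivity : (0:ℝ) ≤ 3 * (d : ℝ) ^ 2 + 5 * d + 4),
          mul_nonneg (sub_nonneg.2 hn') (by positivity : (0:ℝ) ≤ d)]
      calc (4 + ((n:ℝ) + 1) * d) * Real.log 2 ≤ (4 + ((n:ℝ) + 1) * d) * 1 :=
            mul_le_mul_of_nonneg_left hlog2 (by positivity)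
        _ ≤ _ := by rw [mul_one]; exact h5
    have h6 : (n : ℝ) * K ≤ ((layer d n).card : ℝ) * ((n : ℝ) * K) := by
      nlinarith [mul_nonneg (sub_nonneg.2 hM) (by positivity : (0:ℝ) ≤ (n:ℝ) * K)]
    calc 2 * 1 * Real.log (8 * (Fintype.card ((layer d n) × Fin 2) : ℝ)) ≤ 2 * 1 * ((n : ℝ) * K) :=
          mul_le_mul_of_nonneg_left h2 (by norm_num)
      _ ≤ 2 * 1 * (((layer d n).card : ℝ) * ((n : ℝ) * K)) :=
          mul_le_mul_of_nonneg_left h6 (by norm_num)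
      _ = 2 * K * ((layer d n).card * n) := by ring
  have hcover : (Set.univ : Set ((layer d n) × Fin 2 → ℝ)) ⊆
      PB d n ⊤ (3 * Real.sqrt (2 * K) * Real.sqrt ((layer d n).card * n)) ∪
      ({a : (layer d n) × Fin 2 → ℝ | ¬ ∀ x, |∑ i, a i * gl_b (fun (x : Fin d → Fin (2 ^ m)) (j : Fin d) =>
        2 * π * ((x j : ℕ) : ℝ) / ((2 ^ m : ℕ) : ℝ)) i x| ≤ R} ∪
       {a : (layer d n) × Fin 2 → ℝ | ¬ ∀ x, |∑ i, a i * (if i = x then (1:ℝ) else 0)| ≤ B}) := by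
    intro a _
    by_cases h1 : ∀ x, |∑ i, a i * gl_b (fun (x : Fin d → Fin (2 ^ m)) (j : Fin d) =>
        2 * π * ((x j : ℕ) : ℝ) / ((2 ^ m : ℕ) : ℝ)) i x| ≤ R
    · by_cases h2 : ∀ x, |∑ i, a i * (if i = x then (1:ℝ) else 0)| ≤ B
      · left
        have h3 : ∀ i, |a i| ≤ B := by
          intro i
          have := h2 i
          simpa using this
        have h4 := gl_sup m hm a B R hB0 h3 h1
        show eLpNorm (poly a) ⊤ (TP d) ≤
          ENNReal.ofReal (3 * Real.sqrt (2 * K) * Real.sqrt ((layer d n).card * n))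
        rw [eLpNorm_exponent_top]
        apply eLpNormEssSup_le_of_ae_bound
        refine Filter.Eventually.of_forall (fun y => (h4 y).trans ?_)
        linarith
      · right
        right
        exact h2
    · right
      left
      exact h1
  have htot : (1 : ℝ≥0∞) ≤ gam ((layer d n) × Fin 2) 1
      (PB d n ⊤ (3 * Real.sqrt (2 * K) * Real.sqrt ((layer d n).card * n))) + ENNReal.ofReal (1/2) := by
    calc (1 : ℝ≥0∞) = gam ((layer d n) × Fin 2) 1 Set.univ := measure_univ.symm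
      _ ≤ _ := measure_mono hcover
      _ ≤ _ := measure_union_le _ _
      _ ≤ gam ((layer d n) × Fin 2) 1
          (PB d n ⊤ (3 * Real.sqrt (2 * K) * Real.sqrt ((layer d n).card * n))) +
          (ENNReal.ofReal (1/4) + ENNReal.ofReal (1/4)) := by
          gcongr
          exact (measure_union_le _ _).trans (add_le_add hb1 hb2)
      _ = _ := by
          rw [← ENNReal.ofReal_add (by norm_num) (by norm_num)]
          norm_num
  have hhalf : (1 : ℝ≥0∞) = ENNReal.ofReal (1/2) + ENNReal.ofReal (1/2) := by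
    rw [← ENNReal.ofReal_add (by norm_num) (by norm_num)]
    norm_num
  rw [hhalf] at htot
  exact (ENNReal.add_le_add_iff_right ENNReal.ofReal_ne_top).1 htot

end S_gauss_Linf

alias gauss_Linf := S_gauss_Linf.gauss_Linf

end HypVolE
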