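import Pool.Agent.H636R2.HE.Defs
import Pool.Agent.HypVol.L_card_layer
import Pool.Agent.HypVol.L_shp_lower
import Pool.Agent.HypVol.L_shp_upper
import Pool.Agent.HypVol.L_TP_prob
import Pool.Agent.HypVol.L_fc_poly
import Pool.Agent.H636R2.HE.P_fc_poly0
import Pool.Agent.HypVol.L_Lq_vol
import Pool.Agent.HypVol.L_vol_upper
import Pool.Agent.HypVol.L_Mact_vol
import Pool.Agent.H636R2.HE.P_ess_sup_poly
import Pool.Agent.HypVol.L_card_layer
import Pool.Agent.HypVol.L_shp_lower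
import Pool.Agent.HypVol.L_shp_upper
open MeasureTheory Real ProbabilityTheory
open scoped ENNReal BigOperators


open HypVol
namespace HypVolE

namespace S_lower_W
















theorem lower_W_aux_cont {d n : ℕ} (a : (layer d n) × Fin 2 → ℝ) :
    Continuous (poly a : (Fin d → ℝ) → ℂ) := by
  unfold poly
  apply continuous_finsetSum
  intro k _
  apply Continuous.mul continuous_const
  apply Complex.continuous_exp.comp
  apply Continuous.mul continuous_const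
  apply Complex.continuous_ofReal.comp
  fun_prop

theorem lower_W_aux_sub {d n : ℕ} (a b : (layer d n) × Fin 2 → ℝ) (x : Fin d → ℝ) :
    poly (a - b) x = poly a x - poly b x := by
  unfold poly
  rw [← Finset.sum_sub_distrib]
  apply Finset.sum_congr rfl
  intro k _
  rw [Pi.sub_apply, Pi.sub_apply]
  push_cast
  ring

theorem lower_W_aux_smul {d n : ℕ} (t : ℝ) (a : (layer d n) × Fin 2 → ℝ) (x : Fin d → ℝ) :
    poly (t • a) x = (t : ℂ) * poly a x := by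
  unfold poly
  rw [Finset.mul_sum]
  apply Finset.sum_congr rfl
  intro k _
  rw [Pi.smul_apply, Pi.smul_apply, smul_eq_mul, smul_eq_mul]
  push_cast
  ring

theorem lower_W_aux_Mact {d n : ℕ} (r : ℝ) (α : Fin d → ℝ) (a b : (layer d n) × Fin 2 → ℝ) :
    Mact r α (a - b) = Mact r α a - Mact r α b := by
  funext i
  have key : Fh r α i.1.1 * (((a - b) (i.1, 0) : ℝ) + ((a - b) (i.1, 1) : ℝ) * Complex.I) =
      Fh r α i.1.1 * ((a (i.1, 0) : ℂ) + (a (i.1, 1) : ℂ) * Complex.I) -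
      Fh r α i.1.1 * ((b (i.1, 0) : ℂ) + (b (i.1, 1) : ℂ) * Complex.I) := by
    rw [Pi.sub_apply, Pi.sub_apply]
    push_cast
    ring
  rw [Pi.sub_apply]
  unfold Mact
  rw [key]
  split_ifs
  · rw [Complex.sub_re]
  · rw [Complex.sub_im]

open scoped Pointwise in
theorem lower_W_aux_S {d n : ℕ} (t : ℝ) (ht : 0 < t) :
    volume {v : (layer d n) × Fin 2 → ℝ | ∀ x : Fin d → ℝ, ‖poly v x‖ ≤ t} ≤
      ENNReal.ofReal (t ^ (2 * (layer d n).card)) * volume (ball d n) := by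
  have h1 : {v : (layer d n) × Fin 2 → ℝ | ∀ x : Fin d → ℝ, ‖poly v x‖ ≤ t} ⊆
      t • ball d n := by
    intro v hv
    refine ⟨t⁻¹ • v, fun x => ?_, ?_⟩
    · rw [lower_W_aux_smul, norm_mul, Complex.norm_real, Real.norm_of_nonneg (inv_nonneg.2 ht.le)]
      rw [inv_mul_le_iff₀ ht, mul_one]
      exact hv x
    · change t • (t⁻¹ • v) = v
      rw [smul_inv_smul₀ ht.ne']
  refine (measure_mono h1).trans ?_
  rw [Measure.addHaar_smul, Module.finrank_fintype_fun_eq_card, Fintype.card_prod,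
    Fintype.card_coe, Fintype.card_fin, mul_comm (layer d n).card 2, abs_of_pos (pow_pos ht _)]

theorem lower_W_aux_Aj {d n : ℕ} (r : ℝ) (hr : 0 < r) (α : Fin d → ℝ) (D ε : ℝ) (hD : 0 < D)
    (hε : 0 < ε) (c : (Fin d → ℝ) → ℂ) :
    volume {a : (layer d n) × Fin 2 → ℝ |
      eLpNorm (fun x => D⁻¹ • poly (Mact r α a) x - c x) ⊤ (TP d) ≤ ENNReal.ofReal ε} ≤
    ENNReal.ofReal (((2:ℝ)^(r * n))^(2 * (layer d n).card)) *
      (ENNReal.ofReal ((2 * ε * D) ^ (2 * (layer d n).card)) * volume (ball d n)) := by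
  rcases Set.eq_empty_or_nonempty {a : (layer d n) × Fin 2 → ℝ |
      eLpNorm (fun x => D⁻¹ • poly (Mact r α a) x - c x) ⊤ (TP d) ≤ ENNReal.ofReal ε} with h | h
  · rw [h, measure_empty]
    exact zero_le
  · obtain ⟨b, hb⟩ := h
    have ht : 0 < 2 * ε * D := by positivity
    have hsub : {a : (layer d n) × Fin 2 → ℝ |
        eLpNorm (fun x => D⁻¹ • poly (Mact r α a) x - c x) ⊤ (TP d) ≤ ENNReal.ofReal ε} ⊆
        (fun a => a + (-b)) ⁻¹' ((Mact r α) ⁻¹'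
          {v : (layer d n) × Fin 2 → ℝ | ∀ x : Fin d → ℝ, ‖poly v x‖ ≤ 2 * ε * D}) := by
      intro a ha
      change ∀ x : Fin d → ℝ, ‖poly (Mact r α (a + (-b))) x‖ ≤ 2 * ε * D
      rw [← sub_eq_add_neg]
      apply ess_sup_poly _ _ ht.le
      have e : (poly (Mact r α (a - b)) : (Fin d → ℝ) → ℂ) =
          D • ((fun x => D⁻¹ • poly (Mact r α a) x - c x) +
            (-(fun x => D⁻¹ • poly (Mact r α b) x - c x))) := by
        funext x
        rw [lower_W_aux_Mact, lower_W_aux_sub, Pi.smul_apply, Pi.add_apply, Pi.neg_apply,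
          ← sub_eq_add_neg, sub_sub_sub_cancel_right, ← smul_sub, smul_inv_smul₀ hD.ne']
      rw [e, eLpNorm_const_smul, eLpNorm_exponent_top]
      have h1 := eLpNormEssSup_add_le (μ := TP d)
        (f := fun x => D⁻¹ • poly (Mact r α a) x - c x)
        (g := -(fun x => D⁻¹ • poly (Mact r α b) x - c x))
      have h2 : eLpNormEssSup (fun x => D⁻¹ • poly (Mact r α a) x - c x) (TP d) ≤
          ENNReal.ofReal ε := by
        rw [← eLpNorm_exponent_top]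
        exact ha
      have h3 : eLpNormEssSup (-(fun x => D⁻¹ • poly (Mact r α b) x - c x)) (TP d) ≤
          ENNReal.ofReal ε := by
        rw [← eLpNorm_exponent_top, eLpNorm_neg]
        exact hb
      refine (mul_le_mul' le_rfl (h1.trans (add_le_add h2 h3))).trans ?_
      rw [← ENNReal.ofReal_add hε.le hε.le, Real.enorm_eq_ofReal hD.le, ← ENNReal.ofReal_mul hD.le]
      apply ENNReal.ofReal_le_ofReal
      apply le_of_eq
      ring
    refine (measure_mono hsub).trans ?_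
    rw [measure_preimage_add_right]
    refine (Mact_vol r hr α _).trans ?_
    exact mul_le_mul' le_rfl (lower_W_aux_S _ ht)

theorem lower_W_aux_real (M n k d : ℕ) (hd : 1 ≤ d) (hn : 1 ≤ n) (hM : 1 ≤ M)
    (C C1 C2 ε r : ℝ) (hC : 0 < C)
    (hC1 : 0 < C1) (hC2 : 0 < C2) (hε : 0 < ε)
    (hMU : (M : ℝ) ≤ C2 * (2 ^ n * (n : ℝ) ^ (d - 1)))
    (h : (2 : ℝ) ^ (2 * M) / 2 ≤ 2 ^ k * ((2:ℝ)^(r * n) * ((2 * ε * (C * Real.sqrt M)) *
      (C1 * (Real.sqrt (2^n * (n:ℝ)^d))⁻¹))) ^ (2 * M)) :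
    1 / (2 * C * C1 * Real.sqrt C2) * (2:ℝ)^(-(k:ℝ) / (2 * M : ℕ)) * (2:ℝ)^(-(r * n)) *
      Real.sqrt n ≤ ε := by
  have hn0 : (0 : ℝ) < n := by exact_mod_cast hn
  have hP0 : (0 : ℝ) < 2 ^ n * (n : ℝ) ^ d := by positivity
  have hsn : 0 < Real.sqrt n := Real.sqrt_pos.2 hn0
  have hsC : 0 < Real.sqrt C2 := Real.sqrt_pos.2 hC2
  have h1 : Real.sqrt M * (Real.sqrt (2^n * (n:ℝ)^d))⁻¹ ≤ Real.sqrt C2 / Real.sqrt n := by
    rw [← div_eq_mul_inv, ← Real.sqrt_div (Nat.cast_nonneg M), ← Real.sqrt_div hC2.le]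
    apply Real.sqrt_le_sqrt
    rw [div_le_div_iff₀ hP0 hn0]
    have e : (n : ℝ) ^ d = (n : ℝ) ^ (d - 1) * n := by
      rw [← pow_succ]
      congr 1
      omega
    rw [e]
    calc (M : ℝ) * n ≤ C2 * (2 ^ n * (n : ℝ) ^ (d - 1)) * n :=
          mul_le_mul_of_nonneg_right hMU hn0.le
      _ = C2 * (2 ^ n * ((n : ℝ) ^ (d - 1) * n)) := by ring
  have hr0 : 0 < (2:ℝ)^(r * n) := Real.rpow_pos_of_pos two_pos _
  obtain ⟨Q, hQ⟩ : ∃ Q : ℝ, Q = (2:ℝ)^(r * n) * (2 * ε * C * C1) * (Real.sqrt C2 / Real.sqrt n) :=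
    ⟨_, rfl⟩
  have hQ0 : 0 < Q := by
    rw [hQ]
    positivity
  have h2 : (2:ℝ)^(r * n) * ((2 * ε * (C * Real.sqrt M)) *
      (C1 * (Real.sqrt (2^n * (n:ℝ)^d))⁻¹)) ≤ Q := by
    rw [hQ]
    calc (2:ℝ)^(r * n) * ((2 * ε * (C * Real.sqrt M)) * (C1 * (Real.sqrt (2^n * (n:ℝ)^d))⁻¹)) =
        (2:ℝ)^(r * n) * (2 * ε * C * C1) * (Real.sqrt M * (Real.sqrt (2^n * (n:ℝ)^d))⁻¹) := by
          ring
      _ ≤ _ := mul_le_mul_of_nonneg_left h1 (by positivity)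
  have h3 : (2 : ℝ) ^ (2 * M) / 2 ≤ 2 ^ k * Q ^ (2 * M) := by
    refine h.trans ?_
    apply mul_le_mul_of_nonneg_left _ (by positivity)
    exact pow_le_pow_left₀ (by positivity) h2 _
  have h4 : (2 : ℝ) ≤ 2 ^ (2 * M) := by
    calc (2 : ℝ) = 2 ^ 1 := (pow_one _).symm
      _ ≤ 2 ^ (2 * M) := pow_le_pow_right₀ one_le_two (by omega)
  have h5 : 1 ≤ (2 : ℝ) ^ k * Q ^ (2 * M) := by
    have h6 : 0 < (2 : ℝ) ^ k * Q ^ (2 * M) := by positivity
    nlinarith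
  have h6 : (2:ℝ)^(-(k:ℝ) / (2 * M : ℕ)) ≤ Q := by
    have hM0 : ((2 * M : ℕ) : ℝ) ≠ 0 := by
      have : 2 * M ≠ 0 := by omega
      exact_mod_cast this
    have h7 : ((2:ℝ)^(-(k:ℝ) / (2 * M : ℕ))) ^ (2 * M) = ((2 : ℝ) ^ k)⁻¹ := by
      rw [← Real.rpow_natCast, ← Real.rpow_mul two_pos.le, div_mul_cancel₀ _ hM0,
        Real.rpow_neg two_pos.le, Real.rpow_natCast]
    apply le_of_pow_le_pow_left₀ (n := 2 * M) (by omega) hQ0.le
    rw [h7, inv_le_iff_one_le_mul₀ (by positivity), mul_comm]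
    exact h5
  have h8 : (2:ℝ)^(r * n) * (2:ℝ)^(-(r * n)) = 1 := by
    rw [← Real.rpow_add two_pos, add_neg_cancel, Real.rpow_zero]
  have hr1 : 0 < (2:ℝ)^(-(r * n)) := Real.rpow_pos_of_pos two_pos _
  calc 1 / (2 * C * C1 * Real.sqrt C2) * (2:ℝ)^(-(k:ℝ) / (2 * M : ℕ)) * (2:ℝ)^(-(r * n)) *
      Real.sqrt n ≤ 1 / (2 * C * C1 * Real.sqrt C2) * Q * (2:ℝ)^(-(r * n)) * Real.sqrt n := by
        apply mul_le_mul_of_nonneg_right _ hsn.le
        apply mul_le_mul_of_nonneg_right _ hr1.le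
        exact mul_le_mul_of_nonneg_left h6 (by positivity)
    _ = ε * ((2:ℝ)^(r * n) * (2:ℝ)^(-(r * n))) := by
        rw [hQ]
        field_simp
    _ = ε := by rw [h8, mul_one]


theorem lower_W_aux_bdd {d n : ℕ} (a : (layer d n) × Fin 2 → ℝ) (x : Fin d → ℝ) :
    ‖poly a x‖ ≤ ∑ k : layer d n, ‖((a (k, 0) : ℂ) + (a (k, 1) : ℂ) * Complex.I)‖ := by
  unfold poly
  refine (norm_sum_le _ _).trans (Finset.sum_le_sum fun k _ => ?_)
  rw [norm_mul, Complex.norm_exp]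
  have : (Complex.I * ((∑ j, (k.1 j : ℝ) * x j : ℝ) : ℂ)).re = 0 := by
    simp [Complex.mul_re]
  rw [this, Real.exp_zero, mul_one]

theorem lower_W_aux_fcs {d : ℕ} (t : ℝ) (g : (Fin d → ℝ) → ℂ) (k : Fin d → ℤ) :
    fc (fun x => t • g x) k = (t : ℂ) * fc g k := by
  unfold fc
  rw [← integral_const_mul]
  congr 1
  funext x
  show (t • g x) * _ = _
  rw [Complex.real_smul, mul_assoc]

theorem lower_W_aux_mem {d n : ℕ} (q r : ℝ) (D : ℝ)
    (hD : 0 < D) (a : (layer d n) × Fin 2 → ℝ)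
    (ha : eLpNorm (poly a) (ENNReal.ofReal q) (TP d) ≤ ENNReal.ofReal D) :
    (fun x => D⁻¹ • poly (Mact r (fun _ => r) a) x) ∈ WF d r (ENNReal.ofReal q) := by
  have hprob : IsProbabilityMeasure (TP d) := TP_prob d
  have hn : eLpNorm (D⁻¹ • (poly a : (Fin d → ℝ) → ℂ)) (ENNReal.ofReal q) (TP d) ≤ 1 := by
    rw [eLpNorm_const_smul, Real.enorm_eq_ofReal (inv_nonneg.2 hD.le)]
    refine (mul_le_mul' le_rfl ha).trans ?_
    rw [← ENNReal.ofReal_mul (inv_nonneg.2 hD.le), inv_mul_cancel₀ hD.ne', ENNReal.ofReal_one]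
  refine ⟨?_, D⁻¹ • (poly a : (Fin d → ℝ) → ℂ), ⟨?_, lt_of_le_of_lt hn ENNReal.one_lt_top⟩, hn, ?_⟩
  · refine MemLp.of_bound ((lower_W_aux_cont _).const_smul D⁻¹).aestronglyMeasurable
      (D⁻¹ * ∑ k : layer d n, ‖((Mact r (fun _ => r) a (k, 0) : ℂ) + (Mact r (fun _ => r) a (k, 1) : ℂ) * Complex.I)‖)
      (Filter.Eventually.of_forall fun x => ?_)
    rw [norm_smul, Real.norm_of_nonneg (inv_nonneg.2 hD.le)]
    exact mul_le_mul_of_nonneg_left (lower_W_aux_bdd _ x) (inv_nonneg.2 hD.le)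
  · exact ((lower_W_aux_cont a).const_smul D⁻¹).aestronglyMeasurable
  · intro k
    have e1 : fc (D⁻¹ • (poly a : (Fin d → ℝ) → ℂ)) k = ((D⁻¹ : ℝ) : ℂ) * fc (poly a) k :=
      lower_W_aux_fcs D⁻¹ (poly a) k
    rw [lower_W_aux_fcs, e1]
    by_cases hk : k ∈ layer d n
    · rw [fc_poly _ ⟨k, hk⟩, fc_poly _ ⟨k, hk⟩]
      have h1 : ((Mact r (fun _ => r) a (⟨k, hk⟩, 0) : ℝ) : ℂ) +
          ((Mact r (fun _ => r) a (⟨k, hk⟩, 1) : ℝ) : ℂ) * Complex.I =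
          Fh r (fun _ => r) k * ((a (⟨k, hk⟩, 0) : ℂ) + (a (⟨k, hk⟩, 1) : ℂ) * Complex.I) := by
        have h2 : Mact r (fun _ => r) a (⟨k, hk⟩, 0) =
            (Fh r (fun _ => r) k * ((a (⟨k, hk⟩, 0) : ℂ) + (a (⟨k, hk⟩, 1) : ℂ) * Complex.I)).re := by
          unfold Mact; simp
        have h3 : Mact r (fun _ => r) a (⟨k, hk⟩, 1) =
            (Fh r (fun _ => r) k * ((a (⟨k, hk⟩, 0) : ℂ) + (a (⟨k, hk⟩, 1) : ℂ) * Complex.I)).im := by
          unfold Mact; simp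
        rw [h2, h3, Complex.re_add_im]
      rw [h1]
      ring
    · rw [fc_poly0 _ k hk, fc_poly0 _ k hk]
      simp

theorem lower_W (d : ℕ) (hd : 3 ≤ d) (q r : ℝ) (hq : 1 ≤ q) (hr : 0 < r) :
    ∃ c : ℝ, 0 < c ∧ ∀ (n k : ℕ) (ε : ℝ), 1 ≤ n → 0 < ε →
      (∃ cc : Fin (2^k) → ((Fin d → ℝ) → ℂ), ∀ f ∈ WF d r (ENNReal.ofReal q), ∃ j,
        eLpNorm (fun x => f x - cc j x) ⊤ (TP d) ≤ ENNReal.ofReal ε) →
      c * (2:ℝ)^(-(k:ℝ) / (2 * (layer d n).card : ℕ)) * (2:ℝ)^(-(r * n)) * (n:ℝ)^((1:ℝ)/2) ≤ ε := by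
  obtain ⟨C, hC, hA⟩ := Lq_vol d q hq
  obtain ⟨C1, hC1, hV⟩ := vol_upper d hd
  obtain ⟨C2, hC2, hU⟩ := shp_upper d (by omega)
  obtain ⟨c0, hc0, hL⟩ := shp_lower d (by omega)
  refine ⟨1 / (2 * C * C1 * Real.sqrt C2), by positivity, ?_⟩
  rintro n k ε hn hε ⟨cc, hcc⟩
  have hn0 : (0 : ℝ) < n := by exact_mod_cast hn
  have hshp : 0 < shp d n := by
    have h1 := hL n hn
    have h2 : 0 < c0 * (n:ℝ)^(d-1) := by positivity
    have h3 : (0 : ℝ) < shp d n := lt_of_lt_of_le h2 h1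
    exact_mod_cast h3
  have hM : 1 ≤ (layer d n).card := by
    rw [card_layer]
    exact Nat.mul_pos (pow_pos two_pos n) hshp
  have hM0 : (0 : ℝ) < (layer d n).card := by exact_mod_cast hM
  have hMU : ((layer d n).card : ℝ) ≤ C2 * (2 ^ n * (n : ℝ) ^ (d - 1)) := by
    rw [card_layer]
    push_cast
    have h1 := hU n hn
    calc (2 : ℝ) ^ n * (shp d n : ℝ) ≤ 2 ^ n * (C2 * (n : ℝ) ^ (d - 1)) :=
          mul_le_mul_of_nonneg_left h1 (by positivity)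
      _ = C2 * (2 ^ n * (n : ℝ) ^ (d - 1)) := by ring
  have hD : 0 < C * Real.sqrt ((layer d n).card) := by positivity
  rw [← Real.sqrt_eq_rpow]
  apply lower_W_aux_real (layer d n).card n k d (by omega) hn hM C C1 C2 ε r hC hC1 hC2 hε hMU
  have hcov : {a : (layer d n) × Fin 2 → ℝ | (∀ i, |a i| ≤ 1) ∧
        eLpNorm (poly a) (ENNReal.ofReal q) (TP d) ≤
          ENNReal.ofReal (C * Real.sqrt ((layer d n).card))} ⊆
      ⋃ j : Fin (2^k), {a : (layer d n) × Fin 2 → ℝ |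
        eLpNorm (fun x => (C * Real.sqrt ((layer d n).card))⁻¹ • poly (Mact r (fun _ => r) a) x - cc j x) ⊤
          (TP d) ≤ ENNReal.ofReal ε} := by
    intro a ha
    obtain ⟨j, hj⟩ := hcc _ (lower_W_aux_mem q r _ hD a ha.2)
    exact Set.mem_iUnion.2 ⟨j, hj⟩
  have h1 := ((hA n).trans (measure_mono hcov)).trans (measure_iUnion_fintype_le _ _)
  have h2 : ∀ j : Fin (2^k), volume {a : (layer d n) × Fin 2 → ℝ |
        eLpNorm (fun x => (C * Real.sqrt ((layer d n).card))⁻¹ • poly (Mact r (fun _ => r) a) x - cc j x) ⊤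
          (TP d) ≤ ENNReal.ofReal ε} ≤ ENNReal.ofReal (((2:ℝ)^(r * n) *
            ((2 * ε * (C * Real.sqrt ((layer d n).card))) *
      (C1 * (Real.sqrt (2^n * (n:ℝ)^d))⁻¹))) ^ (2 * (layer d n).card)) := by
    intro j
    refine (lower_W_aux_Aj r hr (fun _ => r) _ ε hD hε (cc j)).trans ?_
    refine (mul_le_mul' le_rfl (mul_le_mul' le_rfl (hV n hn))).trans ?_
    rw [← ENNReal.ofReal_mul (by positivity), ← ENNReal.ofReal_mul (by positivity), ← mul_pow,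
      ← mul_pow]
  have h3 := h1.trans (Finset.sum_le_card_nsmul Finset.univ _ _ (fun j _ => h2 j))
  rw [Finset.card_univ, Fintype.card_fin, nsmul_eq_mul] at h3
  have h4 : ((2 ^ k : ℕ) : ℝ≥0∞) = ENNReal.ofReal ((2 : ℝ) ^ k) := by
    rw [← ENNReal.ofReal_natCast]
    congr 1
    push_cast
    ring
  rw [h4, ← ENNReal.ofReal_mul (by positivity), ENNReal.ofReal_le_ofReal_iff (by positivity)] at h3
  exact h3

end S_lower_W

alias lower_W := S_lower_W.lower_W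

end HypVolE
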