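import Pool.Agent.H636R2.HE.Defs
open MeasureTheory Real ProbabilityTheory
open scoped ENNReal BigOperators


open HypVol
namespace HypVolE

namespace S_num1




theorem num1_aux0 (N : ℕ) : ∑ n ∈ Finset.range N, (2:ℝ)^n ≤ 2^N := by
  induction N with
  | zero => simp
  | succ N ih => rw [Finset.sum_range_succ, pow_succ]; linarith

theorem num1_aux (c : ℝ) (hc : 0 ≤ c) (N : ℕ) :
    ∑ n ∈ Finset.range (N + 1), (2:ℝ)^n * (1 + c * ((N:ℝ) - n)) ≤ 2 * (c + 1) * 2^N := by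
  induction N with
  | zero => simp; linarith
  | succ N ih =>
    rw [Finset.sum_range_succ]
    have h1 : ∑ n ∈ Finset.range (N + 1), (2:ℝ)^n * (1 + c * (((N + 1 : ℕ) : ℝ) - n)) =
        ∑ n ∈ Finset.range (N + 1), (2:ℝ)^n * (1 + c * ((N:ℝ) - n)) +
          c * ∑ n ∈ Finset.range (N + 1), (2:ℝ)^n := by
      rw [Finset.mul_sum, ← Finset.sum_add_distrib]
      apply Finset.sum_congr rfl
      intro n _
      push_cast
      ring
    have h2 := mul_le_mul_of_nonneg_left (num1_aux0 (N + 1)) hc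
    rw [h1]
    have h3 : (2:ℝ)^(N + 1) * (1 + c * (((N + 1 : ℕ) : ℝ) - ((N + 1 : ℕ) : ℝ))) = 2^(N + 1) := by
      rw [sub_self]; ring
    rw [h3]
    have h4 : (2:ℝ)^(N + 1) = 2 * 2^N := by rw [pow_succ]; ring
    rw [h4] at h2 ⊢
    nlinarith

theorem num1 (e : ℕ) (a : ℝ) (ha : 0 < a) : ∃ C : ℝ, 0 < C ∧ ∀ n0 : ℕ, 1 ≤ n0 →
    ∑ n ∈ Finset.range (n0 + 1), (2:ℝ)^n * ((max n 1 : ℕ) : ℝ)^e * (1 + (a + 1) * ((n0:ℝ) - n))
      ≤ C * (2:ℝ)^n0 * (n0:ℝ)^e := by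
  refine ⟨2 * ((a + 1) + 1), by linarith, ?_⟩
  intro n0 hn0
  have h := num1_aux (a + 1) (by linarith) n0
  have hp : (0:ℝ) ≤ (n0:ℝ)^e := by positivity
  calc ∑ n ∈ Finset.range (n0 + 1), (2:ℝ)^n * ((max n 1 : ℕ) : ℝ)^e * (1 + (a + 1) * ((n0:ℝ) - n))
      ≤ ∑ n ∈ Finset.range (n0 + 1), ((2:ℝ)^n * (1 + (a + 1) * ((n0:ℝ) - n))) * (n0:ℝ)^e := by
        apply Finset.sum_le_sum
        intro n hn
        have hn' : n ≤ n0 := Nat.lt_succ_iff.mp (Finset.mem_range.mp hn)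
        have hn2 : (n:ℝ) ≤ n0 := by exact_mod_cast hn'
        have h1 : ((max n 1 : ℕ) : ℝ)^e ≤ (n0:ℝ)^e := by
          apply pow_le_pow_left₀ (by positivity)
          exact_mod_cast max_le hn' hn0
        have h2 : 0 ≤ 1 + (a + 1) * ((n0:ℝ) - n) := by
          have : 0 ≤ (n0:ℝ) - n := by linarith
          positivity
        have h3 : 0 ≤ (2:ℝ)^n * (1 + (a + 1) * ((n0:ℝ) - n)) := by positivity
        calc (2:ℝ)^n * ((max n 1 : ℕ) : ℝ)^e * (1 + (a + 1) * ((n0:ℝ) - n))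
            = ((2:ℝ)^n * (1 + (a + 1) * ((n0:ℝ) - n))) * ((max n 1 : ℕ) : ℝ)^e := by ring
          _ ≤ _ := mul_le_mul_of_nonneg_left h1 h3
    _ = (∑ n ∈ Finset.range (n0 + 1), (2:ℝ)^n * (1 + (a + 1) * ((n0:ℝ) - n))) * (n0:ℝ)^e := by
        rw [Finset.sum_mul]
    _ ≤ (2 * ((a + 1) + 1) * 2^n0) * (n0:ℝ)^e := mul_le_mul_of_nonneg_right h hp
    _ = _ := by ring

end S_num1

alias num1 := S_num1.num1

end HypVolE
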