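import Pool.Agent.H636R2.HE.Defs
open MeasureTheory Real ProbabilityTheory
open scoped ENNReal BigOperators


open HypVol
namespace HypVolE

namespace S_num3




theorem num3_summable (m : ℕ) : Summable (fun j : ℕ => ((j:ℝ) + 1)^m * (1/2:ℝ)^j) := by
  have h1 : Summable (fun n : ℕ => ((n:ℝ))^m * (1/2:ℝ)^n) :=
    summable_pow_mul_geometric_of_norm_lt_one m (by norm_num)
  have h2 := (summable_nat_add_iff 1).mpr h1
  have h3 := h2.mul_left 2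
  refine h3.congr fun j => ?_
  push_cast
  rw [pow_succ]
  ring

theorem num3_key (e : ℝ) (n0 j : ℕ) (hn0 : 1 ≤ n0) (hj : j ≤ n0) :
    ((max (n0 - j) 1 : ℕ) : ℝ)^e ≤ (n0:ℝ)^e * ((j:ℝ) + 1)^(⌈|e|⌉₊) := by
  have hn0' : (1:ℝ) ≤ (n0:ℝ) := by exact_mod_cast hn0
  have hj0 : (0:ℝ) ≤ (j:ℝ) := Nat.cast_nonneg j
  have hnb1 : (1:ℝ) ≤ ((max (n0 - j) 1 : ℕ) : ℝ) := by exact_mod_cast le_max_right _ _
  have hnb2 : ((max (n0 - j) 1 : ℕ) : ℝ) ≤ (n0:ℝ) := by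
    have : max (n0 - j) 1 ≤ n0 := by omega
    exact_mod_cast this
  have hnb3 : (n0:ℝ) ≤ ((max (n0 - j) 1 : ℕ) : ℝ) * ((j:ℝ) + 1) := by
    have : n0 ≤ (max (n0 - j) 1) * (j + 1) := by
      rcases Nat.lt_or_ge j n0 with h | h
      · obtain ⟨c, rfl⟩ : ∃ c, n0 = j + (c + 1) := ⟨n0 - j - 1, by omega⟩
        have e1 : j + (c + 1) - j = c + 1 := by omega
        rw [e1, max_eq_left (by omega)]
        nlinarith [Nat.zero_le (c * j)]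
      · have e1 : n0 - j = 0 := by omega
        rw [e1]
        simp
        omega
    exact_mod_cast this
  have hm : |e| ≤ ((⌈|e|⌉₊ : ℕ) : ℝ) := Nat.le_ceil _
  have hj1 : (1:ℝ) ≤ (j:ℝ) + 1 := by linarith
  rcases le_or_gt 0 e with he | he
  · have h1 : ((max (n0 - j) 1 : ℕ) : ℝ)^e ≤ (n0:ℝ)^e :=
      Real.rpow_le_rpow (by linarith) hnb2 he
    have h2 : (1:ℝ) ≤ ((j:ℝ) + 1)^(⌈|e|⌉₊) := one_le_pow₀ hj1
    have h3 : 0 ≤ (n0:ℝ)^e := Real.rpow_nonneg (by linarith) e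
    nlinarith
  · have h1 : (n0:ℝ) / ((j:ℝ) + 1) ≤ ((max (n0 - j) 1 : ℕ) : ℝ) := by
      rw [div_le_iff₀ (by linarith)]
      exact hnb3
    have h2 : ((max (n0 - j) 1 : ℕ) : ℝ)^e ≤ ((n0:ℝ) / ((j:ℝ) + 1))^e :=
      Real.rpow_le_rpow_of_nonpos (by positivity) h1 he.le
    rw [Real.div_rpow (by linarith) (by linarith), div_eq_mul_inv,
      ← Real.rpow_neg (by linarith)] at h2
    refine h2.trans ?_
    refine mul_le_mul_of_nonneg_left ?_ (Real.rpow_nonneg (by linarith) e)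
    rw [← Real.rpow_natCast]
    apply Real.rpow_le_rpow_of_exponent_le hj1
    have := neg_le_abs e
    linarith

theorem num3 (a e : ℝ) (ha : 0 < a) : ∃ C : ℝ, 0 < C ∧ ∀ n0 : ℕ, 1 ≤ n0 →
    ∑ n ∈ Finset.range (n0 + 1), (2:ℝ)^(-a * (n:ℝ)) * ((max n 1 : ℕ) : ℝ)^e *
      (2:ℝ)^(-(a + 1) * ((n0:ℝ) - n)) ≤ C * (2:ℝ)^(-a * (n0:ℝ)) * (n0:ℝ)^e := by
  have hs := num3_summable ⌈|e|⌉₊
  have hnn : ∀ j : ℕ, 0 ≤ ((j:ℝ) + 1)^(⌈|e|⌉₊) * (1/2:ℝ)^j := fun j => by positivity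
  refine ⟨(∑' j : ℕ, ((j:ℝ) + 1)^(⌈|e|⌉₊) * (1/2:ℝ)^j) + 1, ?_, ?_⟩
  · have h0 : 0 ≤ ∑' j : ℕ, ((j:ℝ) + 1)^(⌈|e|⌉₊) * (1/2:ℝ)^j := tsum_nonneg hnn
    linarith
  intro n0 hn0
  rw [← Finset.sum_range_reflect]
  have hP : 0 ≤ (2:ℝ)^(-a * (n0:ℝ)) * (n0:ℝ)^e := by
    have h1 : (0:ℝ) ≤ (n0:ℝ) := Nat.cast_nonneg _
    positivity
  calc _ ≤ ∑ j ∈ Finset.range (n0 + 1), ((2:ℝ)^(-a * (n0:ℝ)) * (n0:ℝ)^e) *
          (((j:ℝ) + 1)^(⌈|e|⌉₊) * (1/2:ℝ)^j) := by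
        refine Finset.sum_le_sum fun j hj => ?_
        have hj' : j ≤ n0 := by
          have := Finset.mem_range.mp hj
          omega
        have e1 : n0 + 1 - 1 - j = n0 - j := by omega
        rw [e1]
        have e2 : ((n0 - j : ℕ) : ℝ) = (n0:ℝ) - (j:ℝ) := by
          rw [Nat.cast_sub hj']
        rw [e2]
        have e3 : (2:ℝ)^(-a * ((n0:ℝ) - (j:ℝ))) * (2:ℝ)^(-(a + 1) * ((n0:ℝ) - ((n0:ℝ) - (j:ℝ))))
            = (2:ℝ)^(-a * (n0:ℝ)) * (1/2:ℝ)^j := by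
          rw [← Real.rpow_add (by norm_num)]
          have e4 : -a * ((n0:ℝ) - (j:ℝ)) + -(a + 1) * ((n0:ℝ) - ((n0:ℝ) - (j:ℝ)))
              = -a * (n0:ℝ) + (-(j:ℝ)) := by ring
          rw [e4, Real.rpow_add (by norm_num), Real.rpow_neg (by norm_num) (j:ℝ),
            Real.rpow_natCast, one_div, inv_pow]
        have h1 := num3_key e n0 j hn0 hj'
        have h2 : 0 ≤ (2:ℝ)^(-a * (n0:ℝ)) * (1/2:ℝ)^j := by positivity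
        calc _ = ((2:ℝ)^(-a * ((n0:ℝ) - (j:ℝ))) *
              (2:ℝ)^(-(a + 1) * ((n0:ℝ) - ((n0:ℝ) - (j:ℝ))))) *
              ((max (n0 - j) 1 : ℕ) : ℝ)^e := by ring
          _ = ((2:ℝ)^(-a * (n0:ℝ)) * (1/2:ℝ)^j) * ((max (n0 - j) 1 : ℕ) : ℝ)^e := by rw [e3]
          _ ≤ ((2:ℝ)^(-a * (n0:ℝ)) * (1/2:ℝ)^j) * ((n0:ℝ)^e * ((j:ℝ) + 1)^(⌈|e|⌉₊)) :=
              mul_le_mul_of_nonneg_left h1 h2
          _ = _ := by ring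
    _ = ((2:ℝ)^(-a * (n0:ℝ)) * (n0:ℝ)^e) *
          ∑ j ∈ Finset.range (n0 + 1), (((j:ℝ) + 1)^(⌈|e|⌉₊) * (1/2:ℝ)^j) := by
        rw [Finset.mul_sum]
    _ ≤ ((2:ℝ)^(-a * (n0:ℝ)) * (n0:ℝ)^e) *
          ((∑' j : ℕ, ((j:ℝ) + 1)^(⌈|e|⌉₊) * (1/2:ℝ)^j) + 1) := by
        refine mul_le_mul_of_nonneg_left ?_ hP
        have := hs.sum_le_tsum (Finset.range (n0 + 1)) (fun j _ => hnn j)
        linarith
    _ = _ := by ring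

end S_num3

alias num3 := S_num3.num3

end HypVolE
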