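import Pool.Agent.H636R2.HE.Defs
open MeasureTheory Real ProbabilityTheory
open scoped ENNReal BigOperators


open HypVol
namespace HypVolE

namespace S_num4




theorem num4_pow (e : ℝ) (n0 j : ℕ) (hn : 1 ≤ n0) :
    ((n0 + 1 + j : ℕ) : ℝ) ^ e ≤ (n0 : ℝ) ^ e * ((j + 2 : ℕ) : ℝ) ^ ⌈|e|⌉₊ := by
  have hn0 : (1:ℝ) ≤ n0 := by exact_mod_cast hn
  have hj0 : (0:ℝ) ≤ j := Nat.cast_nonneg j
  have h2 : (1:ℝ) ≤ ((j + 2 : ℕ) : ℝ) := by push_cast; linarith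
  have h3 : ((j + 2 : ℕ) : ℝ) ^ |e| ≤ ((j + 2 : ℕ) : ℝ) ^ ⌈|e|⌉₊ := by
    rw [← Real.rpow_natCast]
    exact Real.rpow_le_rpow_of_exponent_le h2 (Nat.le_ceil _)
  have hpos : (0:ℝ) ≤ (n0 : ℝ) ^ e := by positivity
  refine le_trans ?_ (mul_le_mul_of_nonneg_left h3 hpos)
  rcases le_or_gt 0 e with he | he
  · rw [abs_of_nonneg he, ← Real.mul_rpow (by positivity) (by positivity)]
    refine Real.rpow_le_rpow (by positivity) ?_ he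
    push_cast
    nlinarith
  · have h4 : ((n0 + 1 + j : ℕ) : ℝ) ^ e ≤ (n0 : ℝ) ^ e := by
      refine Real.rpow_le_rpow_of_nonpos (by linarith) ?_ he.le
      push_cast
      linarith
    have h5 : (1:ℝ) ≤ ((j + 2 : ℕ) : ℝ) ^ |e| := Real.one_le_rpow h2 (abs_nonneg e)
    nlinarith

theorem num4 (a e μ : ℝ) (hμ : μ < a) : ∃ C : ℝ, 0 < C ∧ ∀ n0 : ℕ, 1 ≤ n0 → ∀ m : ℕ,
    ∑ j ∈ Finset.range m, (2:ℝ)^(-a * ((n0 + 1 + j : ℕ) : ℝ)) * ((n0 + 1 + j : ℕ) : ℝ)^e *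
      (2:ℝ)^(μ * ((j:ℝ) + 1)) ≤ C * (2:ℝ)^(-a * (n0:ℝ)) * (n0:ℝ)^e := by
  set q : ℝ := (2:ℝ) ^ (-(a - μ)) with hq
  have hq0 : 0 < q := by positivity
  have hq1 : q < 1 := Real.rpow_lt_one_of_one_lt_of_neg (by norm_num) (by linarith)
  have hsum : Summable (fun n : ℕ => ((n : ℕ) : ℝ) ^ ⌈|e|⌉₊ * q ^ n) :=
    summable_pow_mul_geometric_of_norm_lt_one _ (by
      rw [Real.norm_eq_abs, abs_of_pos hq0]; exact hq1)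
  have hsum2 : Summable (fun j : ℕ => ((j + 2 : ℕ) : ℝ) ^ ⌈|e|⌉₊ * q ^ (j + 2)) :=
    (summable_nat_add_iff 2).2 hsum
  have hnn : ∀ j : ℕ, 0 ≤ ((j + 2 : ℕ) : ℝ) ^ ⌈|e|⌉₊ * q ^ (j + 2) := fun j => by positivity
  refine ⟨q⁻¹ * (∑' j : ℕ, ((j + 2 : ℕ) : ℝ) ^ ⌈|e|⌉₊ * q ^ (j + 2)) + 1, ?_, ?_⟩
  · have : 0 ≤ ∑' j : ℕ, ((j + 2 : ℕ) : ℝ) ^ ⌈|e|⌉₊ * q ^ (j + 2) := tsum_nonneg hnn
    positivity
  · intro n0 hn m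
    have hterm : ∀ j : ℕ, (2:ℝ)^(-a * ((n0 + 1 + j : ℕ) : ℝ)) * ((n0 + 1 + j : ℕ) : ℝ)^e *
        (2:ℝ)^(μ * ((j:ℝ) + 1)) ≤ ((2:ℝ)^(-a * (n0:ℝ)) * (n0:ℝ)^e) *
          (q⁻¹ * (((j + 2 : ℕ) : ℝ) ^ ⌈|e|⌉₊ * q ^ (j + 2))) := by
      intro j
      have e1 : (2:ℝ)^(-a * ((n0 + 1 + j : ℕ) : ℝ)) * (2:ℝ)^(μ * ((j:ℝ) + 1)) =
          (2:ℝ)^(-a * (n0:ℝ)) * q ^ (j + 1) := by
        rw [← Real.rpow_natCast q (j + 1), hq, ← Real.rpow_mul (by norm_num),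
          ← Real.rpow_add (by norm_num), ← Real.rpow_add (by norm_num)]
        congr 1
        push_cast
        ring
      have e2 : q⁻¹ * q ^ (j + 2) = q ^ (j + 1) := by
        rw [pow_succ' q (j + 1), ← mul_assoc, inv_mul_cancel₀ hq0.ne', one_mul]
      calc (2:ℝ)^(-a * ((n0 + 1 + j : ℕ) : ℝ)) * ((n0 + 1 + j : ℕ) : ℝ)^e *
            (2:ℝ)^(μ * ((j:ℝ) + 1))
          = ((2:ℝ)^(-a * ((n0 + 1 + j : ℕ) : ℝ)) * (2:ℝ)^(μ * ((j:ℝ) + 1))) *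
            ((n0 + 1 + j : ℕ) : ℝ)^e := by ring
        _ = ((2:ℝ)^(-a * (n0:ℝ)) * q ^ (j + 1)) * ((n0 + 1 + j : ℕ) : ℝ)^e := by rw [e1]
        _ ≤ ((2:ℝ)^(-a * (n0:ℝ)) * q ^ (j + 1)) *
            ((n0 : ℝ) ^ e * ((j + 2 : ℕ) : ℝ) ^ ⌈|e|⌉₊) :=
            mul_le_mul_of_nonneg_left (num4_pow e n0 j hn) (by positivity)
        _ = _ := by rw [← e2]; ring
    calc ∑ j ∈ Finset.range m, (2:ℝ)^(-a * ((n0 + 1 + j : ℕ) : ℝ)) *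
          ((n0 + 1 + j : ℕ) : ℝ)^e * (2:ℝ)^(μ * ((j:ℝ) + 1))
        ≤ ∑ j ∈ Finset.range m, ((2:ℝ)^(-a * (n0:ℝ)) * (n0:ℝ)^e) *
          (q⁻¹ * (((j + 2 : ℕ) : ℝ) ^ ⌈|e|⌉₊ * q ^ (j + 2))) :=
          Finset.sum_le_sum fun j _ => hterm j
      _ = ((2:ℝ)^(-a * (n0:ℝ)) * (n0:ℝ)^e) * (q⁻¹ * ∑ j ∈ Finset.range m,
          (((j + 2 : ℕ) : ℝ) ^ ⌈|e|⌉₊ * q ^ (j + 2))) := by
          rw [Finset.mul_sum, Finset.mul_sum]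
      _ ≤ ((2:ℝ)^(-a * (n0:ℝ)) * (n0:ℝ)^e) *
          (q⁻¹ * (∑' j : ℕ, ((j + 2 : ℕ) : ℝ) ^ ⌈|e|⌉₊ * q ^ (j + 2)) + 1) := by
          refine mul_le_mul_of_nonneg_left ?_ (by positivity)
          have h1 := hsum2.sum_le_tsum (Finset.range m) (fun j _ => hnn j)
          have h2 := mul_le_mul_of_nonneg_left h1 (inv_nonneg.2 hq0.le)
          linarith
      _ = _ := by ring

end S_num4

alias num4 := S_num4.num4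

end HypVolE
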