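import Pool.Agent.H636R2.HE.Defs
open MeasureTheory Real ProbabilityTheory
open scoped ENNReal BigOperators


open HypVol
namespace HypVolE

namespace S_num5




theorem num5 (e : ℕ) (a f C : ℝ) (ha : 0 < a) (hC : 0 < C) : ∃ (k0 : ℕ) (C2 : ℝ), 2 ≤ k0 ∧ 0 < C2 ∧
    ∀ k : ℕ, k0 ≤ k → ∃ n0 : ℕ, 1 ≤ n0 ∧ C * (2:ℝ)^n0 * (n0:ℝ)^e ≤ k * Real.log 2 ∧
      (2:ℝ)^(-a * (n0:ℝ)) * (n0:ℝ)^f ≤ C2 * ((k:ℝ)^(-a) * (Real.log k)^((e:ℝ) * a + f)) := by
  have hl2 : 0 < Real.log 2 := Real.log_pos (by norm_num)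
  obtain ⟨K1, hK1⟩ := exists_nat_ge (2 * C / Real.log 2)
  obtain ⟨K2, hK2⟩ := exists_nat_ge (Real.log 2 / C)
  set g : ℝ := (e:ℝ) * a + f with hg
  set B : ℝ := C * 2^(1+e) / Real.log 2 with hB
  have hBpos : 0 < B := by rw [hB]; positivity
  set D : ℝ := |Real.log B| + (1 + e) * Real.log 2 with hD
  have hDpos : 0 < D := by
    rw [hD]
    have : 0 ≤ |Real.log B| := abs_nonneg _
    have : 0 < (1 + (e:ℝ)) * Real.log 2 := by positivity
    linarith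
  set c2 : ℝ := 2 / Real.log 2 with hc2
  have hc2pos : 0 < c2 := by rw [hc2]; positivity
  refine ⟨3 + K1 + K2, B ^ a * (c2 ^ g + (D⁻¹) ^ g), by omega, by positivity, ?_⟩
  intro k hk
  have hk3 : (3:ℝ) ≤ k := by
    have : 3 ≤ k := by omega
    exact_mod_cast this
  have hkK1 : (K1:ℝ) ≤ k := by
    have : K1 ≤ k := by omega
    exact_mod_cast this
  have hkK2 : (K2:ℝ) ≤ k := by
    have : K2 ≤ k := by omega
    exact_mod_cast this
  have hkpos : (0:ℝ) < k := by linarith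
  have hlk : 0 < Real.log k := Real.log_pos (by linarith)
  have hex : ∃ n : ℕ, (k:ℝ) * Real.log 2 < C * (2:ℝ)^(n+1) * ((n+1 : ℕ):ℝ)^e := by
    obtain ⟨n, hn⟩ := pow_unbounded_of_one_lt ((k:ℝ) * Real.log 2 / C) (by norm_num : (1:ℝ) < 2)
    refine ⟨n, ?_⟩
    have h1 : (k:ℝ) * Real.log 2 < C * 2^n := by
      rw [div_lt_iff₀ hC] at hn
      linarith
    have h2 : (2:ℝ)^n ≤ 2^(n+1) := pow_le_pow_right₀ (by norm_num) (Nat.le_succ n)
    have h3 : (1:ℝ) ≤ ((n+1 : ℕ):ℝ)^e := one_le_pow₀ (by exact_mod_cast Nat.succ_le_succ (Nat.zero_le n))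
    calc (k:ℝ) * Real.log 2 < C * 2^n := h1
      _ ≤ C * 2^(n+1) := by gcongr
      _ ≤ C * (2:ℝ)^(n+1) * ((n+1 : ℕ):ℝ)^e := le_mul_of_one_le_right (by positivity) h3
  classical
  have hm := Nat.find_spec hex
  have hmin : ∀ n, n < Nat.find hex → ¬ ((k:ℝ) * Real.log 2 < C * (2:ℝ)^(n+1) * ((n+1 : ℕ):ℝ)^e) :=
    fun n hn => Nat.find_min hex hn
  set m := Nat.find hex with hmdef
  have h0 : 1 ≤ m := by
    by_contra hcon
    have hm0 : m = 0 := by omega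
    rw [hm0] at hm
    have : 2 * C ≤ k * Real.log 2 := by
      have := hK1.trans hkK1
      rwa [div_le_iff₀ hl2] at this
    simp at hm
    linarith
  obtain ⟨p, hp⟩ : ∃ p, m = p + 1 := ⟨m - 1, by omega⟩
  have hle : C * (2:ℝ)^m * (m:ℝ)^e ≤ k * Real.log 2 := by
    have := hmin p (by omega)
    push Not at this
    rw [hp]
    exact this
  have hm1 : (1:ℝ) ≤ m := by exact_mod_cast h0
  have hmpos : (0:ℝ) < m := by linarith
  refine ⟨m, h0, hle, ?_⟩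
  -- k ≤ B 2^m m^e
  have hkB : (k:ℝ) ≤ B * 2^m * (m:ℝ)^e := by
    have h1 : (k:ℝ) * Real.log 2 ≤ C * (2:ℝ)^(m+1) * (2 * (m:ℝ))^e := by
      refine hm.le.trans ?_
      gcongr
      push_cast
      linarith
    have h2 : C * (2:ℝ)^(m+1) * (2 * (m:ℝ))^e = (B * 2^m * (m:ℝ)^e) * Real.log 2 := by
      rw [hB]
      field_simp
      ring
    rw [h2] at h1
    exact le_of_mul_le_mul_right h1 hl2
  -- upper bound on m
  have hup : (m:ℝ) ≤ c2 * Real.log k := by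
    have h1 : (2:ℝ)^m ≤ k * k := by
      have h2 : C * (2:ℝ)^m ≤ k * Real.log 2 :=
        (le_mul_of_one_le_right (by positivity) (one_le_pow₀ hm1)).trans hle
      have h3 : (2:ℝ)^m ≤ k * (Real.log 2 / C) := by
        rw [mul_div_assoc', le_div_iff₀ hC]
        linarith
      exact h3.trans (by gcongr; exact hK2.trans hkK2)
    have h4 := Real.log_le_log (by positivity) h1
    rw [Real.log_pow, Real.log_mul hkpos.ne' hkpos.ne'] at h4
    rw [hc2, div_mul_eq_mul_div, le_div_iff₀ hl2]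
    linarith
  -- lower bound on m
  have hlow : D⁻¹ * Real.log k ≤ m := by
    have h1 : (k:ℝ) ≤ B * 2^((1+e)*m) := by
      refine hkB.trans ?_
      have h2 : (m:ℝ)^e ≤ (2^m)^e := by
        gcongr
        exact_mod_cast Nat.lt_two_pow_self.le
      calc B * 2^m * (m:ℝ)^e ≤ B * 2^m * (2^m)^e := by gcongr
        _ = B * 2^((1+e)*m) := by ring
    have h4 := Real.log_le_log hkpos h1
    rw [Real.log_mul hBpos.ne' (by positivity), Real.log_pow] at h4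
    rw [inv_mul_le_iff₀ hDpos, hD]
    have h5 : Real.log B ≤ |Real.log B| * m := by
      calc Real.log B ≤ |Real.log B| := le_abs_self _
        _ ≤ |Real.log B| * m := le_mul_of_one_le_right (abs_nonneg _) hm1
    push_cast at h4
    nlinarith
  have hmg : (m:ℝ)^g ≤ (c2 ^ g + (D⁻¹) ^ g) * (Real.log k)^g := by
    rcases le_or_gt 0 g with hg0 | hg0
    · calc (m:ℝ)^g ≤ (c2 * Real.log k)^g := Real.rpow_le_rpow hmpos.le hup hg0
        _ = c2 ^ g * (Real.log k)^g := Real.mul_rpow hc2pos.le hlk.le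
        _ ≤ (c2 ^ g + (D⁻¹) ^ g) * (Real.log k)^g := by
            gcongr
            have : 0 ≤ (D⁻¹)^g := by positivity
            linarith
    · calc (m:ℝ)^g ≤ (D⁻¹ * Real.log k)^g :=
            Real.rpow_le_rpow_of_nonpos (by positivity) hlow hg0.le
        _ = (D⁻¹) ^ g * (Real.log k)^g := Real.mul_rpow (by positivity) hlk.le
        _ ≤ (c2 ^ g + (D⁻¹) ^ g) * (Real.log k)^g := by
            gcongr
            have : 0 ≤ c2^g := by positivity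
            linarith
  have h2a : (2:ℝ)^(-a * (m:ℝ)) ≤ B ^ a * (k:ℝ)^(-a) * (m:ℝ)^((e:ℝ)*a) := by
    have h1 : (k:ℝ)^a ≤ (B * 2^m * (m:ℝ)^e)^a := Real.rpow_le_rpow hkpos.le hkB ha.le
    rw [Real.mul_rpow (by positivity) (by positivity), Real.mul_rpow hBpos.le (by positivity)] at h1
    have e1 : ((2:ℝ)^m)^a = (2:ℝ)^(a * (m:ℝ)) := by
      rw [← Real.rpow_natCast, ← Real.rpow_mul (by norm_num)]
      ring_nf
    have e2 : ((m:ℝ)^e)^a = (m:ℝ)^((e:ℝ)*a) := by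
      rw [← Real.rpow_natCast, ← Real.rpow_mul hmpos.le]
    rw [e1, e2] at h1
    have e3 : (2:ℝ)^(-a * (m:ℝ)) = ((2:ℝ)^(a * (m:ℝ)))⁻¹ := by
      rw [neg_mul, Real.rpow_neg (by norm_num)]
    have e4 : (k:ℝ)^(-a) = ((k:ℝ)^a)⁻¹ := Real.rpow_neg hkpos.le _
    rw [e3, e4]
    have hka : 0 < (k:ℝ)^a := Real.rpow_pos_of_pos hkpos _
    have h2m : 0 < (2:ℝ)^(a * (m:ℝ)) := Real.rpow_pos_of_pos (by norm_num) _
    rw [inv_le_iff_one_le_mul₀ h2m]
    have : B ^ a * ((k:ℝ)^a)⁻¹ * (m:ℝ)^((e:ℝ)*a) * (2:ℝ)^(a * (m:ℝ)) =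
      (B ^ a * (2:ℝ)^(a * (m:ℝ)) * (m:ℝ)^((e:ℝ)*a)) / (k:ℝ)^a := by
      field_simp
    rw [this, le_div_iff₀ hka, one_mul]
    exact h1
  calc (2:ℝ)^(-a * (m:ℝ)) * (m:ℝ)^f ≤ (B ^ a * (k:ℝ)^(-a) * (m:ℝ)^((e:ℝ)*a)) * (m:ℝ)^f := by
        gcongr
    _ = B ^ a * (k:ℝ)^(-a) * (m:ℝ)^g := by
        rw [hg, Real.rpow_add hmpos]
        ring
    _ ≤ B ^ a * (k:ℝ)^(-a) * ((c2 ^ g + (D⁻¹) ^ g) * (Real.log k)^g) := by
        gcongr
    _ = B ^ a * (c2 ^ g + (D⁻¹) ^ g) * ((k:ℝ)^(-a) * (Real.log k)^g) := by ring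

end S_num5

alias num5 := S_num5.num5

end HypVolE
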