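import Pool.Agent.H636R2.HE.Defs
import Pool.Agent.HypVol.L_card_layer
import Pool.Agent.HypVol.L_shp_upper
import Pool.Agent.HypVol.L_card_layer
import Pool.Agent.HypVol.L_shp_upper
import Pool.Agent.H636R2.HE.P_num1
import Pool.Agent.H636R2.HE.P_num2
import Pool.Agent.H636R2.HE.P_num3
import Pool.Agent.H636R2.HE.P_num4
import Pool.Agent.H636R2.HE.P_num5
open MeasureTheory Real ProbabilityTheory
open scoped ENNReal BigOperators


open HypVol
namespace HypVolE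

namespace S_num_upper













theorem nu_core (e : ℕ) (r g K C C' : ℝ) (Q : ℕ → ℝ) (hr : 1/2 < r) (hK : 0 < K) (hC : 1 ≤ C)
    (hC' : 0 < C')
    (hQ0 : ∀ n, 0 ≤ Q n) (hQ : ∀ n, Q n ≤ C' * (2:ℝ)^n * ((max n 1 : ℕ) : ℝ)^e) :
    Summable (fun n : ℕ => (K * (2:ℝ)^(-(r * n)) * ((max n 1 : ℕ) : ℝ)^g) * Real.sqrt (2 * Q n)) ∧
    ∃ c2 : ℝ, 0 < c2 ∧ ∀ k : ℕ, 2 ≤ k → ∃ (m : ℕ) (t M : ℕ → ℝ),
    (∀ n < m, 0 < t n ∧
      ((t n ≤ Real.sqrt ((max n 1 : ℕ) : ℝ) ∧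
          M n = C * Q n * (1 + Real.log (Real.sqrt ((max n 1 : ℕ) : ℝ) / t n))) ∨
       (2 ≤ n ∧ M n = C * Q n * n / (t n)^2))) ∧
    ∑ n ∈ Finset.range m, M n ≤ k * Real.log 2 ∧
    (∑ n ∈ Finset.range m, (K * (2:ℝ)^(-(r * n)) * ((max n 1 : ℕ) : ℝ)^g) * t n) +
      (∑' n : ℕ, (K * (2:ℝ)^(-(r * ((n + m : ℕ) : ℝ))) * ((max (n + m) 1 : ℕ) : ℝ)^g) *
        Real.sqrt (2 * Q (n + m)))
      ≤ c2 * (k:ℝ)^(-r) * (Real.log k)^((e:ℝ) * r + g + 1/2) := by
  have hr0 : 0 < r := by linarith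
  obtain ⟨nb, hnb⟩ : ∃ nb : ℕ → ℝ, ∀ n, ((max n 1 : ℕ) : ℝ) = nb n := ⟨fun n => ((max n 1 : ℕ) : ℝ), fun n => rfl⟩
  have hnb1 : ∀ n, 1 ≤ nb n := by
    intro n
    rw [← hnb]
    exact_mod_cast le_max_right n 1
  have hnb0 : ∀ n, 0 < nb n := fun n => lt_of_lt_of_le one_pos (hnb1 n)
  have hnbn : ∀ n : ℕ, 1 ≤ n → nb n = n := by
    intro n hn
    rw [← hnb, max_eq_left hn]
  simp only [hnb] at hQ ⊢
  obtain ⟨T, hT⟩ : ∃ T : ℕ → ℝ, ∀ n : ℕ, (K * (2:ℝ)^(-(r * (n:ℝ))) * (nb n)^g) * Real.sqrt (2 * Q n) = T n :=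
    ⟨_, fun n => rfl⟩
  have hT0 : ∀ n, 0 ≤ T n := by
    intro n
    rw [← hT]
    have := hnb0 n
    positivity
  -- summability
  have hsum : Summable T := by
    obtain ⟨C4, hC4, h4⟩ := num4 r (g + (e:ℝ)/2) (1/2) hr
    have h1 : Summable (fun j : ℕ => (2:ℝ)^(-r * ((1 + 1 + j : ℕ) : ℝ)) *
        ((1 + 1 + j : ℕ) : ℝ)^(g + (e:ℝ)/2) * (2:ℝ)^((1/2:ℝ) * ((j:ℝ) + 1))) := by
      refine summable_of_sum_range_le (fun j => by positivity) (fun m => h4 1 le_rfl m)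
    have h2 := h1.mul_left (K * √(2 * C') * (2:ℝ)^(1/2:ℝ))
    refine (summable_nat_add_iff 2).mp (Summable.of_nonneg_of_le (fun j => hT0 _) (fun j => ?_) h2)
    rw [← hT]
    have e0 : 1 + 1 + j = j + 2 := by ring
    rw [e0]
    have e1 : nb (j + 2) = ((j + 2 : ℕ) : ℝ) := hnbn _ (by omega)
    obtain ⟨x, hx⟩ : ∃ x : ℝ, x = ((j + 2 : ℕ) : ℝ) := ⟨_, rfl⟩
    have hx0 : 0 < x := by rw [hx]; positivity
    have e2 : √(2 * Q (j + 2)) ≤ √(2 * C') * (2:ℝ)^((1/2:ℝ) * x) * x ^ ((e:ℝ)/2) := by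
      have e3 : 2 * Q (j + 2) ≤ (2 * C') * ((2:ℝ)^(j+2) * x^e) := by
        have := hQ (j + 2)
        rw [e1, ← hx] at this
        linarith
      refine (Real.sqrt_le_sqrt e3).trans (le_of_eq ?_)
      have q1 : √((2 * C') * ((2:ℝ)^(j+2) * x^e)) = √(2 * C') * √((2:ℝ)^(j+2) * x^e) :=
        Real.sqrt_mul (by positivity) _
      have q2 : √((2:ℝ)^(j+2) * x^e) = √((2:ℝ)^(j+2)) * √(x^e) := Real.sqrt_mul (by positivity) _
      have q3 : √((2:ℝ)^(j+2)) = (2:ℝ)^((1/2:ℝ) * x) := by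
        rw [Real.sqrt_eq_rpow, ← Real.rpow_natCast, ← Real.rpow_mul (by norm_num), hx]
        congr 1
        ring
      have q4 : √(x^e) = x ^ ((e:ℝ)/2) := by
        rw [Real.sqrt_eq_rpow, ← Real.rpow_natCast, ← Real.rpow_mul hx0.le]
        congr 1
        ring
      rw [q1, q2, q3, q4]
      ring
    rw [e1, ← hx]
    have e4 : (2:ℝ)^((1/2:ℝ) * x) = (2:ℝ)^(1/2:ℝ) * (2:ℝ)^((1/2:ℝ) * ((j:ℝ) + 1)) := by
      rw [← Real.rpow_add (by norm_num), hx]
      congr 1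
      push_cast
      ring
    have e5 : x ^ (g + (e:ℝ)/2) = x ^ g * x ^ ((e:ℝ)/2) := Real.rpow_add hx0 _ _
    calc K * (2:ℝ)^(-(r * x)) * x^g * √(2 * Q (j + 2))
        ≤ K * (2:ℝ)^(-(r * x)) * x^g * (√(2 * C') * (2:ℝ)^((1/2:ℝ) * x) * x ^ ((e:ℝ)/2)) := by
          apply mul_le_mul_of_nonneg_left e2
          positivity
      _ = _ := by
          rw [e4, e5, neg_mul]
          ring
  have hsum' : Summable (fun n : ℕ => (K * (2:ℝ)^(-(r * (n:ℝ))) * (nb n)^g) * Real.sqrt (2 * Q n)) := by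
    simp only [hT]
    exact hsum
  refine ⟨hsum', ?_⟩
  obtain ⟨μ, hμ1, hμ2⟩ : ∃ μ : ℝ, 1/2 < μ ∧ μ < r := exists_between hr
  obtain ⟨C1, hC1, h1⟩ := num1 e r hr0
  obtain ⟨C2, hC2, h2⟩ := num2 e (2 * μ) (by linarith)
  obtain ⟨C3, hC3, h3⟩ := num3 r (g + 1/2) hr0
  obtain ⟨C4, hC4, h4⟩ := num4 r (g + 1/2) μ hμ2
  obtain ⟨k0, C5, hk0, hC5, h5⟩ := num5 e r (g + 1/2) (C * C' * (C1 + C2)) hr0 (by positivity)
  obtain ⟨p, hp⟩ : ∃ p : ℝ, p = (e:ℝ) * r + g + 1/2 := ⟨_, rfl⟩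
  have hp' : (e:ℝ) * r + (g + 1/2) = p := by rw [hp]; ring
  rw [← hp]
  simp only [hp'] at h5
  have hS0 : 0 ≤ ∑' n, T n := tsum_nonneg hT0
  have hD0 : ∀ k : ℕ, 0 ≤ (∑' n, T n) / ((k:ℝ)^(-r) * (Real.log k)^p) := by
    intro k
    have : 0 ≤ Real.log k := Real.log_natCast_nonneg k
    positivity
  refine ⟨(∑ k ∈ Finset.range k0, (∑' n, T n) / ((k:ℝ)^(-r) * (Real.log k)^p)) +
    (K * (C3 + C4) * C5 + 1), ?_, fun k hk => ?_⟩
  · have := Finset.sum_nonneg (s := Finset.range k0) (fun k _ => hD0 k)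
    positivity
  have hk1 : (1:ℝ) < k := by exact_mod_cast (by omega : 1 < k)
  have hlog : 0 < Real.log k := Real.log_pos hk1
  have hD : 0 < (k:ℝ)^(-r) * (Real.log k)^p := by positivity
  have hsumnn : 0 ≤ ∑ k ∈ Finset.range k0, (∑' n, T n) / ((k:ℝ)^(-r) * (Real.log k)^p) :=
    Finset.sum_nonneg (fun k _ => hD0 k)
  by_cases hkk : k < k0
  · refine ⟨0, fun _ => 1, fun _ => 0, fun n hn => absurd hn (Nat.not_lt_zero n), ?_, ?_⟩
    · simp only [Finset.range_zero, Finset.sum_empty]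
      have := Real.log_pos (show (1:ℝ) < 2 by norm_num)
      positivity
    · simp only [Finset.range_zero, Finset.sum_empty, zero_add, add_zero, hT]
      have e1 : (∑' n, T n) / ((k:ℝ)^(-r) * (Real.log k)^p) ≤
          ∑ k ∈ Finset.range k0, (∑' n, T n) / ((k:ℝ)^(-r) * (Real.log k)^p) :=
        Finset.single_le_sum (f := fun k : ℕ => (∑' n, T n) / ((k:ℝ)^(-r) * (Real.log k)^p))
          (fun i _ => hD0 i) (Finset.mem_range.mpr hkk)
      have e2 : ∑' n, T n = ((∑' n, T n) / ((k:ℝ)^(-r) * (Real.log k)^p)) *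
          ((k:ℝ)^(-r) * (Real.log k)^p) := by
        field_simp
      rw [mul_assoc]
      calc ∑' n, T n = ((∑' n, T n) / ((k:ℝ)^(-r) * (Real.log k)^p)) *
          ((k:ℝ)^(-r) * (Real.log k)^p) := e2
        _ ≤ _ := by
          apply mul_le_mul_of_nonneg_right _ hD.le
          have : 0 ≤ K * (C3 + C4) * C5 + 1 := by positivity
          linarith
  · push Not at hkk
    obtain ⟨n0, hn0, h6, h7⟩ := h5 k hkk
    -- the tail
    have htail := tendsto_sum_nat_add T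
    have hev := htail.eventually (gt_mem_nhds hD)
    obtain ⟨l, hl⟩ := Filter.eventually_atTop.mp hev
    have hl' := hl (n0 + 1 + l) (by omega)
    have hn0' : (1:ℝ) ≤ n0 := by exact_mod_cast hn0
    refine ⟨n0 + 1 + l, fun n => if n ≤ n0 then √(nb n) * (2:ℝ)^(-(r+1) * ((n0:ℝ) - n))
        else √(nb n) * (2:ℝ)^(μ * ((n:ℝ) - n0)),
      fun n => if n ≤ n0 then C * Q n * (1 + (r+1) * ((n0:ℝ) - n) * Real.log 2)
        else C * Q n * (2:ℝ)^(-(2 * μ) * ((n:ℝ) - n0)), ?_, ?_, ?_⟩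
    · intro n _
      have hx := hnb0 n
      by_cases hn : n ≤ n0
      · simp only [if_pos hn]
        have hn' : (n:ℝ) ≤ n0 := by exact_mod_cast hn
        refine ⟨by positivity, Or.inl ⟨?_, ?_⟩⟩
        · have : (2:ℝ)^(-(r+1) * ((n0:ℝ) - n)) ≤ 1 := by
            apply Real.rpow_le_one_of_one_le_of_nonpos (by norm_num)
            nlinarith
          exact mul_le_of_le_one_right (Real.sqrt_nonneg _) this
        · congr 2
          have e1 : √(nb n) / (√(nb n) * (2:ℝ)^(-(r+1) * ((n0:ℝ) - n))) =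
              (2:ℝ)^((r+1) * ((n0:ℝ) - n)) := by
            rw [neg_mul, Real.rpow_neg (by norm_num)]
            field_simp
          rw [e1, Real.log_rpow (by norm_num)]
      · simp only [if_neg hn]
        refine ⟨by positivity, Or.inr ⟨by omega, ?_⟩⟩
        have hn1 : nb n = n := hnbn n (by omega)
        have hn2 : (0:ℝ) < n := by rw [← hn1]; exact hx
        rw [hn1, mul_pow, Real.sq_sqrt hn2.le, ← Real.rpow_natCast, ← Real.rpow_mul (by norm_num),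
          neg_mul, Real.rpow_neg (by norm_num)]
        have e2 : 2 * μ * ((n:ℝ) - n0) = μ * ((n:ℝ) - n0) * ((2:ℕ):ℝ) := by
          push_cast
          ring
        rw [e2]
        field_simp
    · rw [Finset.sum_range_add]
      have hA : ∑ n ∈ Finset.range (n0 + 1), (if n ≤ n0 then C * Q n * (1 + (r+1) * ((n0:ℝ) - n) * Real.log 2)
        else C * Q n * (2:ℝ)^(-(2 * μ) * ((n:ℝ) - n0))) ≤ C * C' * (C1 * (2:ℝ)^n0 * (n0:ℝ)^e) := by
        calc _ ≤ ∑ n ∈ Finset.range (n0 + 1), C * C' * ((2:ℝ)^n * (nb n)^e * (1 + (r + 1) * ((n0:ℝ) - n))) := by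
              apply Finset.sum_le_sum
              intro n hn
              have hn1 : n ≤ n0 := by
                rw [Finset.mem_range] at hn
                omega
              rw [if_pos hn1]
              have hn' : (n:ℝ) ≤ n0 := by exact_mod_cast hn1
              have hy : 0 ≤ (r + 1) * ((n0:ℝ) - n) := by
                apply mul_nonneg (by linarith)
                linarith
              have hlog2 : Real.log 2 ≤ 1 := by
                have := Real.log_le_sub_one_of_pos (show (0:ℝ) < 2 by norm_num)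
                linarith
              have hlog20 : 0 ≤ Real.log 2 := Real.log_nonneg (by norm_num)
              have e1 : 1 + (r+1) * ((n0:ℝ) - n) * Real.log 2 ≤ 1 + (r + 1) * ((n0:ℝ) - n) := by
                nlinarith
              calc C * Q n * (1 + (r+1) * ((n0:ℝ) - n) * Real.log 2)
                  ≤ C * (C' * (2:ℝ)^n * (nb n)^e) * (1 + (r + 1) * ((n0:ℝ) - n)) := by
                    apply mul_le_mul (mul_le_mul_of_nonneg_left (hQ n) (by linarith)) e1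
                      (by positivity)
                    have := hnb0 n
                    positivity
                _ = _ := by ring
          _ = C * C' * ∑ n ∈ Finset.range (n0 + 1), ((2:ℝ)^n * (nb n)^e * (1 + (r + 1) * ((n0:ℝ) - n))) := by
              rw [Finset.mul_sum]
          _ ≤ _ := by
              have h1' := h1 n0 hn0
              simp only [hnb] at h1'
              exact mul_le_mul_of_nonneg_left h1' (by positivity)
      have hB : ∑ j ∈ Finset.range l, (if n0 + 1 + j ≤ n0 then C * Q (n0 + 1 + j) * (1 + (r+1) * ((n0:ℝ) - ((n0 + 1 + j : ℕ) : ℝ)) * Real.log 2)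
        else C * Q (n0 + 1 + j) * (2:ℝ)^(-(2 * μ) * (((n0 + 1 + j : ℕ) : ℝ) - n0))) ≤ C * C' * (C2 * (2:ℝ)^n0 * (n0:ℝ)^e) := by
        calc _ ≤ ∑ j ∈ Finset.range l, C * C' * ((2:ℝ)^(n0 + 1 + j) * ((n0 + 1 + j : ℕ) : ℝ)^e * (2:ℝ)^(-(2 * μ) * ((j:ℝ) + 1))) := by
              apply Finset.sum_le_sum
              intro j _
              rw [if_neg (by omega)]
              have e1 : ((n0 + 1 + j : ℕ) : ℝ) - n0 = (j:ℝ) + 1 := by
                push_cast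
                ring
              rw [e1]
              have e2 := hQ (n0 + 1 + j)
              rw [hnbn (n0 + 1 + j) (by omega)] at e2
              calc C * Q (n0 + 1 + j) * (2:ℝ)^(-(2 * μ) * ((j:ℝ) + 1))
                  ≤ C * (C' * (2:ℝ)^(n0 + 1 + j) * ((n0 + 1 + j : ℕ) : ℝ)^e) * (2:ℝ)^(-(2 * μ) * ((j:ℝ) + 1)) := by
                    apply mul_le_mul_of_nonneg_right _ (by positivity)
                    exact mul_le_mul_of_nonneg_left e2 (by linarith)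
                _ = _ := by ring
          _ = C * C' * ∑ j ∈ Finset.range l, ((2:ℝ)^(n0 + 1 + j) * ((n0 + 1 + j : ℕ) : ℝ)^e * (2:ℝ)^(-(2 * μ) * ((j:ℝ) + 1))) := by
              rw [Finset.mul_sum]
          _ ≤ _ := mul_le_mul_of_nonneg_left (h2 n0 hn0 l) (by positivity)
      calc _ ≤ C * C' * (C1 * (2:ℝ)^n0 * (n0:ℝ)^e) + C * C' * (C2 * (2:ℝ)^n0 * (n0:ℝ)^e) :=
            add_le_add hA hB
        _ = C * C' * (C1 + C2) * (2:ℝ)^n0 * (n0:ℝ)^e := by ring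
        _ ≤ _ := h6
    · rw [Finset.sum_range_add]
      have hE : ∀ x : ℝ, 0 < x → x ^ g * √x = x ^ (g + 1/2) := by
        intro x hx
        rw [Real.rpow_add hx, Real.sqrt_eq_rpow]
      have hA : ∑ n ∈ Finset.range (n0 + 1), (K * (2:ℝ)^(-(r * (n:ℝ))) * (nb n)^g) *
          (if n ≤ n0 then √(nb n) * (2:ℝ)^(-(r+1) * ((n0:ℝ) - n))
        else √(nb n) * (2:ℝ)^(μ * ((n:ℝ) - n0))) ≤ K * (C3 * (2:ℝ)^(-r * (n0:ℝ)) * (n0:ℝ)^(g + 1/2)) := by
        have h3' := h3 n0 hn0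
        simp only [hnb] at h3'
        calc _ = ∑ n ∈ Finset.range (n0 + 1), K * ((2:ℝ)^(-r * (n:ℝ)) * (nb n)^(g + 1/2) * (2:ℝ)^(-(r + 1) * ((n0:ℝ) - n))) := by
              apply Finset.sum_congr rfl
              intro n hn
              have hn1 : n ≤ n0 := by
                rw [Finset.mem_range] at hn
                omega
              rw [if_pos hn1, ← hE _ (hnb0 n), neg_mul r]
              ring
          _ = K * ∑ n ∈ Finset.range (n0 + 1), ((2:ℝ)^(-r * (n:ℝ)) * (nb n)^(g + 1/2) * (2:ℝ)^(-(r + 1) * ((n0:ℝ) - n))) := by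
              rw [Finset.mul_sum]
          _ ≤ _ := mul_le_mul_of_nonneg_left h3' hK.le
      have hB : ∑ j ∈ Finset.range l, (K * (2:ℝ)^(-(r * ((n0 + 1 + j : ℕ) : ℝ))) * (nb (n0 + 1 + j))^g) *
          (if n0 + 1 + j ≤ n0 then √(nb (n0 + 1 + j)) * (2:ℝ)^(-(r+1) * ((n0:ℝ) - ((n0 + 1 + j : ℕ) : ℝ)))
        else √(nb (n0 + 1 + j)) * (2:ℝ)^(μ * (((n0 + 1 + j : ℕ) : ℝ) - n0))) ≤ K * (C4 * (2:ℝ)^(-r * (n0:ℝ)) * (n0:ℝ)^(g + 1/2)) := by
        calc _ = ∑ j ∈ Finset.range l, K * ((2:ℝ)^(-r * ((n0 + 1 + j : ℕ) : ℝ)) * ((n0 + 1 + j : ℕ) : ℝ)^(g + 1/2) * (2:ℝ)^(μ * ((j:ℝ) + 1))) := by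
              apply Finset.sum_congr rfl
              intro j _
              rw [if_neg (by omega)]
              have e1 : ((n0 + 1 + j : ℕ) : ℝ) - n0 = (j:ℝ) + 1 := by
                push_cast
                ring
              rw [e1, hnbn (n0 + 1 + j) (by omega), ← hE _ (by positivity), neg_mul r]
              ring
          _ = K * ∑ j ∈ Finset.range l, ((2:ℝ)^(-r * ((n0 + 1 + j : ℕ) : ℝ)) * ((n0 + 1 + j : ℕ) : ℝ)^(g + 1/2) * (2:ℝ)^(μ * ((j:ℝ) + 1))) := by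
              rw [Finset.mul_sum]
          _ ≤ _ := mul_le_mul_of_nonneg_left (h4 n0 hn0 l) hK.le
      simp only [hT]
      calc _ ≤ (K * (C3 * (2:ℝ)^(-r * (n0:ℝ)) * (n0:ℝ)^(g + 1/2)) +
            K * (C4 * (2:ℝ)^(-r * (n0:ℝ)) * (n0:ℝ)^(g + 1/2))) + (k:ℝ)^(-r) * (Real.log k)^p :=
            add_le_add (add_le_add hA hB) hl'.le
        _ = K * (C3 + C4) * ((2:ℝ)^(-r * (n0:ℝ)) * (n0:ℝ)^(g + 1/2)) + (k:ℝ)^(-r) * (Real.log k)^p := by
            ring
        _ ≤ K * (C3 + C4) * (C5 * ((k:ℝ)^(-r) * (Real.log k)^p)) + (k:ℝ)^(-r) * (Real.log k)^p := by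
            have := mul_le_mul_of_nonneg_left h7 (show 0 ≤ K * (C3 + C4) by positivity)
            linarith
        _ = (K * (C3 + C4) * C5 + 1) * ((k:ℝ)^(-r) * (Real.log k)^p) := by ring
        _ ≤ _ := by
            rw [mul_assoc _ ((k:ℝ)^(-r))]
            apply mul_le_mul_of_nonneg_right _ hD.le
            linarith

theorem num_upper (d : ℕ) (hd : 1 ≤ d) (r g K C : ℝ) (hr : 1/2 < r) (hK : 0 < K) (hC : 1 ≤ C) :
    Summable (fun n : ℕ => (K * (2:ℝ)^(-(r * n)) * ((max n 1 : ℕ) : ℝ)^g) * Real.sqrt (2 * (layer d n).card)) ∧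
    ∃ c2 : ℝ, 0 < c2 ∧ ∀ k : ℕ, 2 ≤ k → ∃ (m : ℕ) (t M : ℕ → ℝ),
    (∀ n < m, 0 < t n ∧
      ((t n ≤ Real.sqrt ((max n 1 : ℕ) : ℝ) ∧
          M n = C * (layer d n).card * (1 + Real.log (Real.sqrt ((max n 1 : ℕ) : ℝ) / t n))) ∨
       (2 ≤ n ∧ M n = C * (layer d n).card * n / (t n)^2))) ∧
    ∑ n ∈ Finset.range m, M n ≤ k * Real.log 2 ∧
    (∑ n ∈ Finset.range m, (K * (2:ℝ)^(-(r * n)) * ((max n 1 : ℕ) : ℝ)^g) * t n) +
      (∑' n : ℕ, (K * (2:ℝ)^(-(r * ((n + m : ℕ) : ℝ))) * ((max (n + m) 1 : ℕ) : ℝ)^g) *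
        Real.sqrt (2 * (layer d (n + m)).card))
      ≤ c2 * (k:ℝ)^(-r) * (Real.log k)^(((d:ℝ) - 1) * r + g + 1/2) := by
  obtain ⟨Cs, hCs, hs⟩ := shp_upper d hd
  have hcard : ∀ n, ((layer d n).card : ℝ) ≤ (Cs + 1) * (2:ℝ)^n * ((max n 1 : ℕ) : ℝ)^(d - 1) := by
    intro n
    rw [card_layer]
    push_cast
    rcases Nat.eq_zero_or_pos n with hn | hn
    · subst hn
      have h1 : shp d 0 ≤ 1 := by
        unfold shp Sh
        refine (Finset.card_le_univ _).trans ?_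
        simp
      have h2 : ((shp d 0 : ℕ) : ℝ) ≤ 1 := by exact_mod_cast h1
      simp
      linarith
    · have h1 := hs n hn
      have h2 : ((max n 1 : ℕ) : ℝ) = n := by rw [max_eq_left hn]
      push_cast at h2
      rw [h2]
      calc (2:ℝ)^n * (shp d n : ℝ) ≤ 2^n * (Cs * (n:ℝ)^(d-1)) := by gcongr
        _ ≤ (Cs + 1) * 2^n * (n:ℝ)^(d-1) := by
          have : 0 ≤ (2:ℝ)^n * (n:ℝ)^(d-1) := by positivity
          nlinarith
  have hd' : ((d - 1 : ℕ) : ℝ) = (d:ℝ) - 1 := by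
    push_cast [Nat.cast_sub hd]
    ring
  have := nu_core (d - 1) r g K C (Cs + 1) (fun n => ((layer d n).card : ℝ)) hr hK hC (by linarith)
    (fun n => Nat.cast_nonneg _) hcard
  rw [hd'] at this
  exact this

end S_num_upper

alias num_upper := S_num_upper.num_upper

end HypVolE
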