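import Pool.Agent.H636R2.HE.R3
import Pool.Agent.H636R2.HE.P_block_vol
import Pool.Agent.H636R2.HE.E_ent_split
import Pool.Agent.H636R2.HE.E_ent_final
import Pool.Agent.H636R2.HE.E_W_split
import Pool.Agent.H636R2.HE.E_H_split
import Pool.Agent.H636R2.HE.E_lower_Dm
open MeasureTheory Real ProbabilityTheory
open scoped ENNReal BigOperators

open HypVol
namespace HypVolE

theorem W_lower_inf (d : ℕ) (hd : 3 ≤ d) (r : ℝ) (hr : 1/2 < r) : ∃ c : ℝ, 0 < c ∧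
    ∀ k : ℕ, 2 ≤ k → ENNReal.ofReal (c * (k:ℝ)^(-r) * (Real.log k)^(((d:ℝ) - 1) * r + 1/2)) ≤
      entLp ⊤ k (WF d r ⊤) := by
  have hr0 : 0 < r := by linarith
  have hd3 : (3:ℝ) ≤ d := by exact_mod_cast hd
  obtain ⟨c1, hc1, h1⟩ := W_lower d hd 4 r (by norm_num) hr0
  obtain ⟨C2, hC2, h2⟩ := W_upper d (by omega) 2 r le_rfl hr
  have e4 : ENNReal.ofReal 4 = 4 := by norm_num
  have e2 : ENNReal.ofReal 2 = 2 := by norm_num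
  rw [e4] at h1
  rw [e2] at h2
  refine ent_final r _ c1 C2 hr0 (by nlinarith) hc1 hC2 (fun k => entLp ⊤ k (WF d r 4))
    (fun k => entLp ⊤ k (WF d r ⊤)) (fun k => entLp ⊤ k (WF d r 2)) h1 h2 (fun lam hl k _ => ?_)
  exact ent_split k _ _ _ lam (by linarith) (fun f hf => W_split d r lam hr hl f hf)

theorem H_lower_inf (d : ℕ) (hd : 3 ≤ d) (r : ℝ) (hr : 1/2 < r) : ∃ c : ℝ, 0 < c ∧
    ∀ k : ℕ, 2 ≤ k → ENNReal.ofReal (c * (k:ℝ)^(-r) * (Real.log k)^(((d:ℝ) - 1) * r + (d:ℝ)/2)) ≤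
      entLp ⊤ k (HH d r ⊤) := by
  have hr0 : 0 < r := by linarith
  have hd3 : (3:ℝ) ≤ d := by exact_mod_cast hd
  have e4 : ENNReal.ofReal 4 = 4 := by norm_num
  have e2 : ENNReal.ofReal 2 = 2 := by norm_num
  obtain ⟨CB, hCB, hB⟩ := block_vol d (by omega) 4 (by norm_num) (⌊r⌋₊ + 1)
  rw [e4] at hB
  obtain ⟨c0, hc0, hs⟩ := H_split d r CB hr0 hCB
  obtain ⟨c, hc, hlow⟩ := lower_Dm d hd (⌊r⌋₊ + 1) CB hB r c0 hr0 hc0
  obtain ⟨c1, hc1, h1⟩ := ent_num2 d hd r ((d:ℝ)/2) c hr0 (by positivity) hc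
  obtain ⟨C2, hC2, h2⟩ := H_upper d (by omega) 2 r le_rfl hr
  rw [e2] at h2
  set Θ0 : Set ((Fin d → ℝ) → ℂ) := {f | ∃ (n : ℕ) (a : (layer d n) × Fin 2 → ℝ),
    (∀ (s : Fin d → ℕ) (e : Finset (Fin d)), ∑ j, s j = n →
      eLpNorm (bpoly (⌊r⌋₊ + 1) s e a) 4 (TP d) ≤ ENNReal.ofReal (CB * Real.sqrt (2^n))) ∧
    f = (fun x => ((c0 * (2:ℝ)^(-(r * n)) * (Real.sqrt (2^n))⁻¹ : ℝ) : ℂ) * poly (Dm a) x)} with hΘ
  refine ent_final r _ c1 C2 hr0 (by nlinarith) hc1 hC2 (fun k => entLp ⊤ k Θ0)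
    (fun k => entLp ⊤ k (HH d r ⊤)) (fun k => entLp ⊤ k (HH d r 2)) (fun k hk => ?_) h2
    (fun lam hl k _ => ?_)
  · obtain ⟨n, hn, h3⟩ := h1 k hk
    refine ent_of_cover k _ _ (fun ε hε hcov => h3.trans (hlow n k ε hn hε ?_))
    obtain ⟨cc, hcc⟩ := hcov
    exact ⟨cc, fun a ha => hcc _ ⟨n, a, ha, rfl⟩⟩
  · refine ent_split k _ _ _ lam (by linarith) (fun f hf => ?_)
    obtain ⟨n, a, ha, rfl⟩ := hf
    exact hs lam hl n a ha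

end HypVolE
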